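import Pool.Agent.Work.PT.Clock
import Pool.Agent.Work.PT.Bridge
import Pool.Prelude.Def_F_c21d359f

/-!
# Frozen complexity classes and the `PTF` library

* `ptf_of_isPolyTime`, `isPolyTime_of_ptf`: polynomial-time predicates on pairs of bit strings in the
  sense of the frozen definitions are exactly the `PTF` ones;
* `NPd`: predicates on an encoded type with polynomially bounded certificates, closure properties;
* `NPd.mem_NP`: an `NPd` set of bit strings is in the frozen class `NP`, and conversely.
-/

set_option autoImplicit false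

namespace Pool.Agent.Work.MP_46935e_lc

open Pool.Agent.PT Turing Function

/-! ### Arithmetic -/

section arith

variable {α : Type} [Enc α]

theorem ptf_pow {n : α → ℕ} (hn : PTF n) (k : ℕ) : PTF (fun a => n a ^ k) := by
  induction k with
  | zero => exact (PTF.const 1).congr (fun a => by simp)
  | succ k ih => exact (ih.mul hn).congr (fun a => by rw [pow_succ])

theorem ptf_eval (p : Polynomial ℕ) {n : α → ℕ} (hn : PTF n) : PTF (fun a => p.eval (n a)) := by
  induction p using Polynomial.induction_on' with
  | add p q hp hq => exact (hp.add hq).congr (fun a => by rw [Polynomial.eval_add])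
  | monomial k c =>
    exact ((PTF.const c).mul (ptf_pow hn k)).congr (fun a => by rw [Polynomial.eval_monomial])

/-- A polynomially bounded function of bit strings is bounded by a polynomial of the length. -/
theorem exists_poly_of_ptf {B : List Bool → ℕ} (hB : PTF B) :
    ∃ p : Polynomial ℕ, ∀ x, B x ≤ p.eval x.length := by
  obtain ⟨k, hk⟩ := hB.size
  refine ⟨(4 * Polynomial.X + 3) ^ k, fun x => ?_⟩
  have h7 : sz x ≤ 4 * x.length + 1 := by
    induction x with
    | nil => simp [sz_nil]
    | cons b x ih =>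
      rw [sz_cons]
      have := sz_bool b
      simp only [List.length_cons]
      omega
  have h8 : (sz x + 2) ^ k ≤ (4 * x.length + 3) ^ k := Nat.pow_le_pow_left (by omega) _
  have h9 : sz (B x) ≤ (sz x + 2) ^ k := hk x
  rw [sz_nat] at h9
  simp only [Polynomial.eval_add, Polynomial.eval_mul, Polynomial.eval_pow, Polynomial.eval_X,
    Polynomial.eval_ofNat]
  omega

end arith

/-! ### Parsing -/

/-- The delimited form of a bit string (as in the frozen encoding). -/
abbrev dl (l : List Bool) : List Bool := N487b59b3.delimit l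

/-- State machine for parsing `dl a ++ b`. -/
def dstep (s : ℕ × (List Bool × List Bool)) (c : Bool) : ℕ × (List Bool × List Bool) :=
  if s.1 = 0 then (if c then (1, s.2.1, s.2.2) else (2, s.2.1, s.2.2))
  else if s.1 = 1 then (0, s.2.1 ++ [c], s.2.2)
  else (2, s.2.1, s.2.2 ++ [c])

/-- Split `dl a ++ b` into `(a, b)`. -/
def dec2 (l : List Bool) : List Bool × List Bool := (l.foldl dstep (0, [], [])).2

theorem dstep_copy (b : List Bool) : ∀ (a c : List Bool),
    b.foldl dstep (2, a, c) = (2, a, c ++ b) := by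
  induction b with
  | nil => intro a c; simp
  | cons d b ih => intro a c; rw [List.foldl_cons]; simp [dstep, ih]

theorem dstep_dl (a : List Bool) : ∀ (b c : List Bool),
    (dl a ++ b).foldl dstep (0, c, []) = (2, c ++ a, b) := by
  induction a with
  | nil => intro b c; simp [dl, N487b59b3.delimit, dstep, dstep_copy]
  | cons d a ih =>
    intro b c
    have := ih b (c ++ [d])
    simp only [dl, N487b59b3.delimit, List.cons_append, List.foldl_cons] at this ⊢
    simp only [dstep, if_true, if_false, one_ne_zero] at this ⊢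
    rw [this]; simp

theorem dec2_dl (a b : List Bool) : dec2 (dl a ++ b) = (a, b) := by
  unfold dec2
  rw [dstep_dl]; simp

theorem ptf_dec2 {α : Type} [Enc α] {f : α → List Bool} (hf : PTF f) :
    PTF (fun a => dec2 (f a)) := by
  have hstep : PTF (fun p : α × ((ℕ × (List Bool × List Bool)) × Bool) => dstep p.2.1 p.2.2) := by
    unfold dstep
    have h1 : PTF (fun p : α × ((ℕ × (List Bool × List Bool)) × Bool) => p.2.1.1) :=
      PTF.fst.comp (PTF.fst.comp PTF.snd)
    have h2 : PTF (fun p : α × ((ℕ × (List Bool × List Bool)) × Bool) => p.2.1.2.1) :=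
      PTF.fst.comp (PTF.snd.comp (PTF.fst.comp PTF.snd))
    have h3 : PTF (fun p : α × ((ℕ × (List Bool × List Bool)) × Bool) => p.2.1.2.2) :=
      PTF.snd.comp (PTF.snd.comp (PTF.fst.comp PTF.snd))
    have h4 : PTF (fun p : α × ((ℕ × (List Bool × List Bool)) × Bool) => p.2.2) :=
      PTF.snd.comp PTF.snd
    have hc : PTF (fun p : α × ((ℕ × (List Bool × List Bool)) × Bool) => [p.2.2]) :=
      PTF.cons h4 (PTF.const [])
    refine PTF.ite (h1.eq (PTF.const 0)) ?_ (PTF.ite (h1.eq (PTF.const 1)) ?_ ?_)
    · exact PTF.ite (p := fun p : α × ((ℕ × (List Bool × List Bool)) × Bool) => p.2.2 = true)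
        (h4.eq (PTF.const true)) ((PTF.const 1).pair (h2.pair h3))
        ((PTF.const 2).pair (h2.pair h3))
    · exact (PTF.const 0).pair ((h2.append hc).pair h3)
    · exact (PTF.const 2).pair (h2.pair (h3.append hc))
  have h := PTF.foldl_add (l := f) (init := fun _ : α => ((0 : ℕ), (([] : List Bool), ([] : List Bool))))
    (step := fun p : α × ((ℕ × (List Bool × List Bool)) × Bool) => dstep p.2.1 p.2.2)
    hf (PTF.const _) hstep (fun _ => 20) (PB.const _) (fun a s b _ => by
      obtain ⟨n, x, y⟩ := s
      have h1 := sz_bool b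
      have h2 : ∀ z : List Bool, sz (z ++ [b]) ≤ sz z + 5 := fun z => by
        have := sz_append z [b]
        rw [sz_cons, sz_nil] at this
        omega
      have h3 := h2 x
      have h4 := h2 y
      have h0 := sz_nat 0
      have h0' := sz_nat 1
      have h0'' := sz_nat 2
      have hn := sz_nat n
      simp only [dstep]
      split_ifs <;> simp only [sz_pair] <;> omega)
  exact PTF.snd.comp h

/-- The frozen encoding of a bit string. -/
def encB (l : List Bool) : List Bool := l.flatMap (fun b => [true, b, false])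

theorem bitEncode_list (l : List Bool) : N487b59b3.bitEncode l = encB l := by
  show ((l.map N487b59b3.bitEncode).map N487b59b3.delimit).flatten = encB l
  induction l with
  | nil => rfl
  | cons b l ih =>
    simp only [List.map_cons, List.flatten_cons, encB, List.flatMap_cons] at ih ⊢
    rw [ih]
    rfl

theorem bitEncode_pair (p : List Bool × List Bool) :
    N487b59b3.bitEncode p = dl (encB p.1) ++ encB p.2 := by
  show N487b59b3.delimit (N487b59b3.bitEncode p.1) ++ N487b59b3.bitEncode p.2 = _
  rw [bitEncode_list, bitEncode_list]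

theorem bitEncode_bool (b : Bool) : N487b59b3.bitEncode b = [b] := rfl

/-- State machine decoding `encB`. -/
def ustep (s : ℕ × List Bool) (c : Bool) : ℕ × List Bool :=
  if s.1 = 0 then (1, s.2) else if s.1 = 1 then (2, s.2 ++ [c]) else (0, s.2)

/-- Decoding of the frozen encoding of bit strings. -/
def unB (l : List Bool) : List Bool := (l.foldl ustep (0, [])).2

theorem ustep_encB (l : List Bool) : ∀ c, (encB l).foldl ustep (0, c) = (0, c ++ l) := by
  induction l with
  | nil => intro c; simp [encB]
  | cons b l ih =>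
    intro c
    have := ih (c ++ [b])
    simp only [encB, List.flatMap_cons, List.cons_append, List.nil_append, List.foldl_cons]
      at this ⊢
    simp only [ustep, if_true, one_ne_zero, if_false, OfNat.ofNat_ne_zero, OfNat.ofNat_ne_one]
      at this ⊢
    rw [this]; simp

theorem unB_encB (l : List Bool) : unB (encB l) = l := by
  unfold unB
  rw [ustep_encB]; simp

theorem ptf_unB {α : Type} [Enc α] {f : α → List Bool} (hf : PTF f) :
    PTF (fun a => unB (f a)) := by
  have hstep : PTF (fun p : α × ((ℕ × List Bool) × Bool) => ustep p.2.1 p.2.2) := by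
    unfold ustep
    have h1 : PTF (fun p : α × ((ℕ × List Bool) × Bool) => p.2.1.1) :=
      PTF.fst.comp (PTF.fst.comp PTF.snd)
    have h2 : PTF (fun p : α × ((ℕ × List Bool) × Bool) => p.2.1.2) :=
      PTF.snd.comp (PTF.fst.comp PTF.snd)
    have h4 : PTF (fun p : α × ((ℕ × List Bool) × Bool) => p.2.2) :=
      PTF.snd.comp PTF.snd
    have hc : PTF (fun p : α × ((ℕ × List Bool) × Bool) => [p.2.2]) :=
      PTF.cons h4 (PTF.const [])
    exact PTF.ite (h1.eq (PTF.const 0)) ((PTF.const 1).pair h2)
      (PTF.ite (h1.eq (PTF.const 1)) ((PTF.const 2).pair (h2.append hc))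
        ((PTF.const 0).pair h2))
  have h := PTF.foldl_add (l := f) (init := fun _ : α => ((0 : ℕ), ([] : List Bool)))
    (step := fun p : α × ((ℕ × List Bool) × Bool) => ustep p.2.1 p.2.2)
    hf (PTF.const _) hstep (fun _ => 20) (PB.const _) (fun a s b _ => by
      obtain ⟨n, x⟩ := s
      have h1 := sz_bool b
      have h2 : ∀ z : List Bool, sz (z ++ [b]) ≤ sz z + 5 := fun z => by
        have := sz_append z [b]
        rw [sz_cons, sz_nil] at this
        omega
      have h3 := h2 x
      have h0 := sz_nat 0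
      have h0' := sz_nat 1
      have h0'' := sz_nat 2
      have hn := sz_nat n
      simp only [ustep]
      split_ifs <;> simp only [sz_pair] <;> omega)
  exact PTF.snd.comp h

theorem ptf_encB {α : Type} [Enc α] {f : α → List Bool} (hf : PTF f) :
    PTF (fun a => encB (f a)) := by
  unfold encB
  exact hf.flatMap (g := fun p : α × Bool => [true, p.2, false])
    (PTF.cons (PTF.const true) (PTF.cons PTF.snd (PTF.cons (PTF.const false) (PTF.const []))))

theorem dl_eq (l : List Bool) : dl l = l.flatMap (fun b => [true, b]) ++ [false] := by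
  induction l with
  | nil => rfl
  | cons b l ih =>
    simp only [dl, N487b59b3.delimit, List.flatMap_cons] at ih ⊢
    rw [ih]; rfl

theorem ptf_dl {α : Type} [Enc α] {f : α → List Bool} (hf : PTF f) :
    PTF (fun a => dl (f a)) := by
  refine ((hf.flatMap (g := fun p : α × Bool => [true, p.2])
    (PTF.cons (PTF.const true) (PTF.cons PTF.snd (PTF.const [])))).append
      (PTF.const [false])).congr (fun a => ?_)
  rw [dl_eq]

/-! ### Frozen polynomial time versus `PTF` -/

/-- Machines computing from raw strings, one direction. -/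
theorem ptf_of_tm2 {α β : Type} [Enc α] [Enc β] {ea : α → List Bool} {eb : β → List Bool} {f : α → β}
    (h : Nonempty (TM2ComputableInPolyTime ea eb f)) (hea : PTF ea) {d : List Bool → β}
    (hd : PTF d) (hdb : ∀ b, d (eb b) = b) : PTF f := by
  obtain ⟨M⟩ := h
  obtain ⟨R, hR, hRs⟩ := clock M.tm M.inputAlphabet M.outputAlphabet
  have h1 : PTF (fun a => R (M.time.eval (ea a).length, ea a)) :=
    hR.comp ((ptf_eval M.time hea.length).pair hea)
  have h2 : PTF (fun a => match R (M.time.eval (ea a).length, ea a) with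
      | some y => d y
      | none => d []) :=
    (PTF.option_case (o := fun a => R (M.time.eval (ea a).length, ea a))
      (f := fun _ => d []) (g := fun p : α × List Bool => d p.2) h1 (PTF.const _)
      (hd.comp PTF.snd)).congr (fun a => by
        cases R (M.time.eval (ea a).length, ea a) <;> rfl)
  refine h2.congr (fun a => ?_)
  have h3 : R (M.time.eval (ea a).length, ea a) = some (eb (f a)) :=
    (hRs _ _ _).2 ⟨M.outputsFun a⟩
  rw [h3]
  exact hdb _

/-- The other direction. -/
theorem tm2_of_ptf {α β : Type} [Enc α] [Enc β] {ea : α → List Bool} {eb : β → List Bool} {f : α → β}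
    (h : PTF f) {d : List Bool → α} (hd : PTF d) (hda : ∀ a, d (ea a) = a) (heb : PTF eb) :
    Nonempty (TM2ComputableInPolyTime ea eb f) := by
  have h1 : PTF (fun s : List Bool => eb (f (d s))) := heb.comp (h.comp hd)
  obtain ⟨M⟩ := h1.tm2_raw
  refine ⟨{ M with outputsFun := fun a => ?_ }⟩
  have h2 := M.outputsFun (ea a)
  simp only [hda] at h2
  exact h2

/-- Decoding of the frozen encoding of pairs of bit strings. -/
def decP (l : List Bool) : List Bool × List Bool := (unB (dec2 l).1, unB (dec2 l).2)

theorem ptf_decP : PTF decP :=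
  (ptf_unB (PTF.fst.comp (ptf_dec2 PTF.id))).pair (ptf_unB (PTF.snd.comp (ptf_dec2 PTF.id)))

theorem decP_enc (p : List Bool × List Bool) : decP (N487b59b3.bitEncode p) = p := by
  rw [bitEncode_pair]
  unfold decP
  rw [dec2_dl]
  simp only [unB_encB]

theorem ptf_encP : PTF (fun p : List Bool × List Bool => N487b59b3.bitEncode p) :=
  ((ptf_dl (ptf_encB PTF.fst)).append (ptf_encB PTF.snd)).congr (fun p => (bitEncode_pair p).symm)

theorem ptf_encL : PTF (fun p : List Bool => N487b59b3.bitEncode p) :=
  (ptf_encB PTF.id).congr (fun p => (bitEncode_list p).symm)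

theorem ptf_of_isPolyTime {R : List Bool × List Bool → Bool} (h : N68a2faeb.IsPolyTime R) :
    PTF R :=
  ptf_of_tm2 (d := fun l => l.headD false) h ptf_encP (PTF.id.headD (PTF.const false))
    (fun _ => rfl)

theorem isPolyTime_of_ptf {R : List Bool × List Bool → Bool} (h : PTF R) :
    N68a2faeb.IsPolyTime R :=
  tm2_of_ptf h ptf_decP decP_enc (PTF.cons PTF.id (PTF.const []))

theorem ptf_of_isPolyTime_fun {f : List Bool → List Bool} (h : N68a2faeb.IsPolyTime f) :
    PTF f :=
  ptf_of_tm2 h ptf_encL (ptf_unB PTF.id) (fun b => by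
    show unB (N487b59b3.bitEncode b) = b
    rw [bitEncode_list, unB_encB])

/-! ### Nondeterministic polynomial time on encoded types -/

section npd

variable {α β : Type} [Enc α] [Enc β]

/-- `P` has polynomially bounded certificates which are checkable in polynomial time. -/
def NPd (P : α → Prop) : Prop :=
  ∃ (R : α × List Bool → Bool) (B : α → ℕ), PTF R ∧ PB B ∧
    (∀ a w, R (a, w) = true → w.length ≤ B a) ∧ ∀ a, P a ↔ ∃ w, R (a, w) = true

theorem NPd.congr {P Q : α → Prop} (h : NPd P) (e : ∀ a, P a ↔ Q a) : NPd Q := by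
  obtain ⟨R, B, h1, h2, h3, h4⟩ := h
  exact ⟨R, B, h1, h2, h3, fun a => (e a).symm.trans (h4 a)⟩

theorem NPd.of_ptf {c : α → Bool} (h : PTF c) : NPd (fun a => c a = true) := by
  refine ⟨fun p => c p.1 && decide (p.2.length ≤ 0), fun _ => 0,
    (h.comp PTF.fst).and (PTF.snd.length.le (PTF.const 0)), PB.const 0, fun _ w hw => ?_,
    fun a => ?_⟩
  · simp only [Bool.and_eq_true, decide_eq_true_eq] at hw
    exact hw.2
  · constructor
    · intro h; exact ⟨[], by simp [h]⟩
    · rintro ⟨w, hw⟩
      simp only [Bool.and_eq_true, decide_eq_true_eq] at hw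
      exact hw.1

theorem NPd.of_dec {P : α → Prop} [DecidablePred P] (h : PTF (fun a => decide (P a))) :
    NPd P := (NPd.of_ptf h).congr (fun a => decide_eq_true_iff)

theorem NPd.comp {P : α → Prop} (h : NPd P) {f : β → α} (hf : PTF f) : NPd (fun b => P (f b)) := by
  obtain ⟨R, B, h1, h2, h3, h4⟩ := h
  exact ⟨fun p => R (f p.1, p.2), fun b => B (f b),
    h1.comp ((hf.comp PTF.fst).pair PTF.snd), h2.comp hf.size, fun b => h3 (f b),
    fun b => h4 (f b)⟩

theorem NPd.and {P Q : α → Prop} (h : NPd P) (h' : NPd Q) : NPd (fun a => P a ∧ Q a) := by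
  obtain ⟨R, B, h1, h2, h3, h4⟩ := h
  obtain ⟨R', B', h1', h2', h3', h4'⟩ := h'
  have e1 : PTF (fun p : α × List Bool => (dec2 p.2).1) := PTF.fst.comp (ptf_dec2 PTF.snd)
  have e2 : PTF (fun p : α × List Bool => (dec2 p.2).2) := PTF.snd.comp (ptf_dec2 PTF.snd)
  refine ⟨fun p => (R (p.1, (dec2 p.2).1) && R' (p.1, (dec2 p.2).2)) &&
    decide (p.2.length ≤ 2 * (dec2 p.2).1.length + 1 + (dec2 p.2).2.length),
    fun a => 2 * B a + 1 + B' a, ?_, ?_, fun a w hw => ?_, fun a => ?_⟩
  · exact ((h1.comp (PTF.fst.pair e1)).and (h1'.comp (PTF.fst.pair e2))).and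
      (PTF.snd.length.le ((((PTF.const 2).mul e1.length).add (PTF.const 1)).add e2.length))
  · exact (((PB.const 2).mul h2).add (PB.const 1)).add h2'
  · simp only [decide_eq_true_eq, Bool.and_eq_true] at hw
    have := h3 _ _ hw.1.1
    have := h3' _ _ hw.1.2
    dsimp only
    omega
  · show (P a ∧ Q a) ↔ _
    rw [h4, h4']
    constructor
    · rintro ⟨⟨w, hR⟩, ⟨w', hR'⟩⟩
      refine ⟨dl w ++ w', ?_⟩
      simp only [dec2_dl, hR, hR', Bool.and_true, Bool.true_and, decide_eq_true_eq,
        List.length_append, dl, N487b59b3.length_delimit]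
      omega
    · rintro ⟨w, hR⟩
      simp only [decide_eq_true_eq, Bool.and_eq_true] at hR
      exact ⟨⟨_, hR.1.1⟩, ⟨_, hR.1.2⟩⟩

theorem NPd.or {P Q : α → Prop} (h : NPd P) (h' : NPd Q) : NPd (fun a => P a ∨ Q a) := by
  obtain ⟨R, B, h1, h2, h3, h4⟩ := h
  obtain ⟨R', B', h1', h2', h3', h4'⟩ := h'
  refine ⟨fun p => if p.2.headD false = true then R (p.1, p.2.tail) else R' (p.1, p.2.tail),
    fun a => 1 + (B a + B' a), ?_, ?_, fun a w hw => ?_, fun a => ?_⟩
  · have e : PTF (fun p : α × List Bool => p.2.tail) := PTF.snd.tail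
    exact PTF.ite ((PTF.snd.headD (PTF.const false)).eq (PTF.const true))
      (h1.comp (PTF.fst.pair e)) (h1'.comp (PTF.fst.pair e))
  · exact (PB.const 1).add (h2.add h2')
  · have hl : w.length ≤ 1 + w.tail.length := by rw [List.length_tail]; omega
    dsimp only at hw
    by_cases hc : w.headD false = true
    · rw [if_pos hc] at hw
      have := h3 _ _ hw
      dsimp only
      omega
    · rw [if_neg hc] at hw
      have := h3' _ _ hw
      dsimp only
      omega
  · show (P a ∨ Q a) ↔ _
    rw [h4, h4']
    constructor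
    · rintro (⟨w, hR⟩ | ⟨w, hR⟩)
      · exact ⟨true :: w, by simpa using hR⟩
      · exact ⟨false :: w, by simpa using hR⟩
    · rintro ⟨w, hR⟩
      dsimp only at hR
      by_cases hc : w.headD false = true
      · rw [if_pos hc] at hR
        exact Or.inl ⟨_, hR⟩
      · rw [if_neg hc] at hR
        exact Or.inr ⟨_, hR⟩

theorem sz_bits (x : List Bool) : sz x ≤ 4 * x.length + 1 := by
  induction x with
  | nil => simp [sz_nil]
  | cons b x ih =>
    rw [sz_cons]
    have := sz_bool b
    simp only [List.length_cons]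
    omega

/-- Polynomially bounded existential quantifier over bit strings. -/
theorem NPd.ex {P : α → List Bool → Prop} (h : NPd (fun p : α × List Bool => P p.1 p.2))
    {B₀ : α → ℕ} (hB : PTF B₀) : NPd (fun a => ∃ y, y.length ≤ B₀ a ∧ P a y) := by
  obtain ⟨R, B, h1, ⟨k, hk⟩, h3, h4⟩ := h
  have e1 : PTF (fun p : α × List Bool => (dec2 p.2).1) := PTF.fst.comp (ptf_dec2 PTF.snd)
  have e2 : PTF (fun p : α × List Bool => (dec2 p.2).2) := PTF.snd.comp (ptf_dec2 PTF.snd)
  have hB0 : PB B₀ := hB.size.mono (fun a => by rw [sz_nat]; omega)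
  refine ⟨fun p => (R ((p.1, (dec2 p.2).1), (dec2 p.2).2) && decide ((dec2 p.2).1.length ≤ B₀ p.1))
    && decide (p.2.length ≤ 2 * (dec2 p.2).1.length + 1 + (dec2 p.2).2.length),
    fun a => 2 * B₀ a + 1 + (sz a + (4 * B₀ a + 1) + 1 + 2) ^ k, ?_, ?_, fun a w hw => ?_,
    fun a => ?_⟩
  · exact ((h1.comp ((PTF.fst.pair e1).pair e2)).and (e1.length.le (hB.comp PTF.fst))).and
      (PTF.snd.length.le ((((PTF.const 2).mul e1.length).add (PTF.const 1)).add e2.length))
  · exact (((PB.const 2).mul hB0).add (PB.const 1)).add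
      ((((PB.sz.add (((PB.const 4).mul hB0).add (PB.const 1))).add (PB.const 1)).add
        (PB.const 2)).pow k)
  · simp only [decide_eq_true_eq, Bool.and_eq_true] at hw
    have h5 := h3 _ _ hw.1.1
    have h6 : B (a, (dec2 w).1) ≤ (sz a + (4 * B₀ a + 1) + 1 + 2) ^ k := by
      refine (hk _).trans (Nat.pow_le_pow_left ?_ _)
      have := sz_bits (dec2 w).1
      rw [sz_pair]
      have := hw.1.2
      omega
    have := hw.1.2
    dsimp only
    omega
  · constructor
    · rintro ⟨y, hy, hP⟩
      obtain ⟨w, hw⟩ := (h4 (a, y)).1 hP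
      refine ⟨dl y ++ w, ?_⟩
      simp only [dec2_dl, hw, Bool.true_and, decide_eq_true_eq, Bool.and_eq_true,
        List.length_append, dl, N487b59b3.length_delimit]
      exact ⟨hy, by omega⟩
    · rintro ⟨w, hw⟩
      simp only [decide_eq_true_eq, Bool.and_eq_true] at hw
      exact ⟨_, hw.1.2, (h4 (a, (dec2 w).1)).2 ⟨_, hw.1.1⟩⟩

end npd

/-- From frozen `NP` to `NPd`. -/
theorem NPd.of_NP {L : List Bool → Bool} (h : L ∈ N68a2faeb.NP) :
    NPd (fun x : List Bool => L x = true) := by
  obtain ⟨p, R, h1, h2⟩ := h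
  have h3 := ptf_of_isPolyTime h1
  have h4 : PTF (fun x : List Bool => p.eval x.length) := ptf_eval p PTF.id.length
  refine ⟨fun q => R q && decide (q.2.length ≤ p.eval q.1.length), fun x => p.eval x.length,
    h3.and (PTF.snd.length.le (h4.comp PTF.fst)), h4.size.mono (fun a => by rw [sz_nat]; omega),
    fun a w hw => ?_, fun a => ?_⟩
  · simp only [decide_eq_true_eq, Bool.and_eq_true] at hw
    exact hw.2
  · show L a = true ↔ _
    rw [h2]
    constructor
    · rintro ⟨w, hw, hR⟩
      exact ⟨w, by simp only [decide_eq_true_eq, Bool.and_eq_true]; exact ⟨hR, hw⟩⟩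
    · rintro ⟨w, hw⟩
      simp only [decide_eq_true_eq, Bool.and_eq_true] at hw
      exact ⟨w, hw.2, hw.1⟩

/-- From `NPd` to frozen `NP`. -/
theorem NPd.mem_NP {L : List Bool → Bool} (h : NPd (fun x : List Bool => L x = true)) :
    L ∈ N68a2faeb.NP := by
  obtain ⟨R, B, h1, ⟨k, hk⟩, h3, h4⟩ := h
  refine ⟨(4 * Polynomial.X + 3) ^ k, R, isPolyTime_of_ptf h1, fun x => ?_⟩
  refine (h4 x).trans ?_
  constructor
  · rintro ⟨w, hw⟩
    refine ⟨w, (h3 _ _ hw).trans ((hk x).trans ?_), hw⟩
    simp only [Polynomial.eval_add, Polynomial.eval_mul, Polynomial.eval_pow, Polynomial.eval_X,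
      Polynomial.eval_ofNat]
    have := sz_bits x
    exact Nat.pow_le_pow_left (by omega) _
  · rintro ⟨w, _, hw⟩
    exact ⟨w, hw⟩

end Pool.Agent.Work.MP_46935e_lc
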