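import Pool.Agent.Work.MP_46935e_lc.Frozen

/-!
# Simultaneous witness-tree diagonalisation

Given a disjoint coNP pair `(A, B)` and a family of functions `F u` with uniform NP graph, there is a
disjoint coNP pair which is not reducible to `(A, B)` by any of the `F u`.
-/

set_option autoImplicit false

namespace Pool.Agent.Work.MP_46935e_lc

open Pool.Agent.PT

section abstract

variable (U V : List Bool → Prop) (W : List Bool → List Bool → Prop) (m : List Bool → ℕ)
  (F : List Bool → List Bool → List Bool)

/-- The value at the root of the tree. -/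
def rootVal (x : List Bool) : List Bool := F (dec2 x).1 (dl (dec2 x).1)

/-- The value at a child. -/
def childVal (b : Bool) (x : List Bool) : List Bool :=
  F (dec2 x).1 (dl (dec2 x).1 ++ ((dec2 x).2 ++ [b]))

/-- First new set. -/
def U' (x : List Bool) : Prop :=
  ¬ W (rootVal F x) (dec2 x).2 ∧ (m (rootVal F x) ≤ (dec2 x).2.length ∨
    (U (childVal F false x) ∧ U (childVal F true x)))

/-- Second new set. -/
def V' (x : List Bool) : Prop :=
  W (rootVal F x) (dec2 x).2 ∨ ((dec2 x).2.length < m (rootVal F x) ∧
    (V (childVal F false x) ∨ V (childVal F true x)))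

theorem cover (hUV : ∀ y, U y ∨ V y) (x : List Bool) : U' U W m F x ∨ V' V W m F x := by
  unfold U' V'
  by_cases hW : W (rootVal F x) (dec2 x).2
  · exact Or.inr (Or.inl hW)
  by_cases hm : m (rootVal F x) ≤ (dec2 x).2.length
  · exact Or.inl ⟨hW, Or.inl hm⟩
  rcases hUV (childVal F false x) with h0 | h0
  · rcases hUV (childVal F true x) with h1 | h1
    · exact Or.inl ⟨hW, Or.inr ⟨h0, h1⟩⟩
    · exact Or.inr (Or.inr ⟨by omega, Or.inr h1⟩)
  · exact Or.inr (Or.inr ⟨by omega, Or.inl h0⟩)

theorem no_reduction (hUV : ∀ y, U y ∨ V y)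
    (hW : ∀ y, U y ↔ ∃ w, w.length ≤ m y ∧ W y w) (u : List Bool)
    (h1 : ∀ w : List Bool, w.length ≤ m (F u (dl u)) → U (F u (dl u ++ w)) →
      U' U W m F (dl u ++ w))
    (h2 : ∀ w : List Bool, w.length ≤ m (F u (dl u)) → V (F u (dl u ++ w)) →
      V' V W m F (dl u ++ w)) : False := by
  set y := F u (dl u) with hy
  have hroot : ∀ w, rootVal F (dl u ++ w) = y := by
    intro w; unfold rootVal; rw [dec2_dl]
  have hchild : ∀ b w, childVal F b (dl u ++ w) = F u (dl u ++ (w ++ [b])) := by
    intro b w; unfold childVal; rw [dec2_dl]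
  have hw2 : ∀ w, (dec2 (dl u ++ w)).2 = w := by
    intro w; rw [dec2_dl]
  have hy0 : F u (dl u ++ []) = y := by rw [List.append_nil]
  -- upward
  have up : ¬ U y := by
    intro hUy
    obtain ⟨w, hwl, hwW⟩ := (hW y).1 hUy
    have key : ∀ (n : ℕ) (w' : List Bool), w'.length ≤ m y → w'.length + n = w.length →
        (∃ s, w = w' ++ s) → ¬ U (F u (dl u ++ w')) := by
      intro n
      induction n with
      | zero =>
        rintro w' hm' hl ⟨s, hs⟩ hU
        have hs0 : s = [] := by
          have := congrArg List.length hs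
          rw [List.length_append] at this
          exact List.length_eq_zero_iff.1 (by omega)
        have hww : w' = w := by rw [hs, hs0, List.append_nil]
        have h3 := h1 w' hm' hU
        unfold U' at h3
        rw [hroot, hw2, hww] at h3
        exact h3.1 hwW
      | succ n ih =>
        rintro w' hm hl ⟨s, hs⟩ hU
        obtain ⟨b, s', rfl⟩ : ∃ b s', s = b :: s' := by
          cases s with
          | nil =>
            have := congrArg List.length hs
            rw [List.length_append, List.length_nil] at this
            omega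
          | cons b s' => exact ⟨b, s', rfl⟩
        have hl2 : (w' ++ [b]).length = w'.length + 1 := by simp
        have h3 := ih (w' ++ [b]) (by omega) (by omega) ⟨s', by rw [hs]; simp⟩
        have h4 := h1 w' hm hU
        unfold U' at h4
        rw [hroot, hw2, hchild, hchild] at h4
        rcases h4.2 with h5 | h5
        · omega
        · cases b with
          | false => exact h3 h5.1
          | true => exact h3 h5.2
    have := key w.length [] (Nat.zero_le _) (by simp) ⟨w, rfl⟩
    rw [hy0] at this
    exact this hUy
  have hVy : V y := (hUV y).resolve_left up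
  have down : ∀ (n : ℕ) (w : List Bool), w.length + n = m y → V (F u (dl u ++ w)) → False := by
    intro n
    induction n with
    | zero =>
      intro w hl hV
      have h3 := h2 w (by omega) hV
      unfold V' at h3
      rw [hroot, hw2] at h3
      rcases h3 with h3 | h3
      · exact up ((hW y).2 ⟨w, by omega, h3⟩)
      · omega
    | succ n ih =>
      intro w hl hV
      have h3 := h2 w (by omega) hV
      unfold V' at h3
      rw [hroot, hw2, hchild, hchild] at h3
      rcases h3 with h3 | ⟨_, h3 | h3⟩
      · exact up ((hW y).2 ⟨w, by omega, h3⟩)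
      · exact ih (w ++ [false]) (by simp; omega) h3
      · exact ih (w ++ [true]) (by simp; omega) h3
  exact down (m y) [] (by simp) (by rw [hy0]; exact hVy)

end abstract

theorem eval_mono (p : Polynomial ℕ) {a b : ℕ} (hab : a ≤ b) : p.eval a ≤ p.eval b := by
  induction p using Polynomial.induction_on' with
  | add p q hp hq => rw [Polynomial.eval_add, Polynomial.eval_add]; exact Nat.add_le_add hp hq
  | monomial k c =>
    rw [Polynomial.eval_monomial, Polynomial.eval_monomial]
    exact Nat.mul_le_mul_left _ (Nat.pow_le_pow_left hab _)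

/-- Substituting a function with NP graph. -/
theorem NPd.fn {α : Type} [Enc α] {G : α → List Bool}
    (hG : NPd (fun p : α × List Bool => G p.1 = p.2)) {C : α → ℕ} (hC : PTF C)
    (hb : ∀ a, (G a).length ≤ C a) {P : α → List Bool → Prop}
    (hP : NPd (fun p : α × List Bool => P p.1 p.2)) : NPd (fun a => P a (G a)) := by
  refine (NPd.ex (P := fun a y => G a = y ∧ P a y) (hG.and hP) hC).congr (fun a => ?_)
  constructor
  · rintro ⟨y, _, h1, h2⟩; rw [h1]; exact h2
  · intro h; exact ⟨G a, hb a, rfl, h⟩

open N68a2faeb N08b01508 in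
/-- **Diagonalisation against a uniform family of functions with NP graph.** -/
theorem diag {A B : List Bool → Bool} (hAB : IsDisjointCoNPPair A B)
    (F : List Bool → List Bool → List Bool)
    (hF : NPd (fun p : (List Bool × List Bool) × List Bool => F p.1.1 p.1.2 = p.2))
    {C : List Bool × List Bool → ℕ} (hC : PTF C) (hCb : ∀ u x, (F u x).length ≤ C (u, x)) :
    ∃ A' B' : List Bool → Bool, IsDisjointCoNPPair A' B' ∧ ∃ C' : List Bool → ℕ, PTF C' ∧ ∀ u,
      ∃ w : List Bool, w.length ≤ C' u ∧
        ((A' (dl u ++ w) = true ∧ A (F u (dl u ++ w)) ≠ true) ∨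
          (B' (dl u ++ w) = true ∧ B (F u (dl u ++ w)) ≠ true)) := by
  classical
  obtain ⟨p, R, hR, hp⟩ := hAB.memA
  have hR' := ptf_of_isPolyTime hR
  have hV0 : NPd (fun x : List Bool => B x = false) :=
    (NPd.of_NP (L := Bᶜ) hAB.memB).congr (fun x => by
      show (!(B x)) = true ↔ B x = false
      simp)
  have hU0 : NPd (fun x : List Bool => A x = false) :=
    (NPd.of_NP (L := Aᶜ) hAB.memA).congr (fun x => by
      show (!(A x)) = true ↔ A x = false
      simp)
  set U : List Bool → Prop := fun y => A y = false with hUdef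
  set V : List Bool → Prop := fun y => B y = false with hVdef
  set W : List Bool → List Bool → Prop := fun y w => R (y, w) = true with hWdef
  set m : List Bool → ℕ := fun y => p.eval y.length with hmdef
  have hUV : ∀ y, U y ∨ V y := by
    intro y
    have h := hAB.disjoint y
    show A y = false ∨ B y = false
    cases hA : A y <;> cases hB : B y <;> simp_all
  have hW : ∀ y, U y ↔ ∃ w, w.length ≤ m y ∧ W y w := by
    intro y
    have h := hp y
    have e : (Aᶜ y = true) ↔ U y := by
      show (!(A y)) = true ↔ A y = false
      simp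
    exact e.symm.trans h
  -- the functions
  have hd1 : PTF (fun x : List Bool => (dec2 x).1) := PTF.fst.comp (ptf_dec2 PTF.id)
  have hd2 : PTF (fun x : List Bool => (dec2 x).2) := PTF.snd.comp (ptf_dec2 PTF.id)
  have hm : PTF m := ptf_eval p PTF.id.length
  have hroot : PTF (fun x : List Bool => ((dec2 x).1, dl (dec2 x).1)) := hd1.pair (ptf_dl hd1)
  have hchild : ∀ b : Bool, PTF (fun x : List Bool =>
      ((dec2 x).1, dl (dec2 x).1 ++ ((dec2 x).2 ++ [b]))) := fun b =>
    hd1.pair ((ptf_dl hd1).append (hd2.append (PTF.const [b])))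
  have hchildP : ∀ (b : Bool) (P : List Bool → Prop), NPd P →
      NPd (fun x : List Bool => P (childVal F b x)) := by
    intro b P hP
    refine NPd.fn (G := childVal F b)
      (C := fun x => C ((dec2 x).1, dl (dec2 x).1 ++ ((dec2 x).2 ++ [b]))) ?_
      (hC.comp (hchild b)) (fun x => hCb _ _) (P := fun _ y => P y) (hP.comp PTF.snd)
    exact hF.comp (((hchild b).comp PTF.fst).pair PTF.snd)
  have hrootP : ∀ (P : List Bool → List Bool → Prop),
      NPd (fun q : List Bool × List Bool => P q.1 q.2) →
      NPd (fun x : List Bool => P x (rootVal F x)) := by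
    intro P hP
    refine NPd.fn (G := rootVal F)
      (C := fun x => C ((dec2 x).1, dl (dec2 x).1)) ?_
      (hC.comp hroot) (fun x => hCb _ _) hP
    exact hF.comp ((hroot.comp PTF.fst).pair PTF.snd)
  have hq2 : PTF (fun q : List Bool × List Bool => (dec2 q.1).2) := hd2.comp PTF.fst
  have hWP : PTF (fun q : List Bool × List Bool => R (q.2, (dec2 q.1).2)) :=
    hR'.comp (PTF.snd.pair hq2)
  have hmP : PTF (fun q : List Bool × List Bool => m q.2) := hm.comp PTF.snd
  have hU' : NPd (U' U W m F) := by
    refine hrootP (fun x y => ¬ W y (dec2 x).2 ∧ (m y ≤ (dec2 x).2.length ∨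
      (U (childVal F false x) ∧ U (childVal F true x)))) ?_
    refine NPd.and ?_ (NPd.or ?_ (NPd.and ?_ ?_))
    · exact (NPd.of_ptf hWP.not).congr (fun q => by
        show (!(R (q.2, (dec2 q.1).2))) = true ↔ ¬ (R (q.2, (dec2 q.1).2) = true)
        simp)
    · exact NPd.of_dec (hmP.le hq2.length)
    · exact (hchildP false U hU0).comp PTF.fst
    · exact (hchildP true U hU0).comp PTF.fst
  have hV' : NPd (V' V W m F) := by
    refine hrootP (fun x y => W y (dec2 x).2 ∨ ((dec2 x).2.length < m y ∧
      (V (childVal F false x) ∨ V (childVal F true x)))) ?_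
    refine NPd.or ?_ (NPd.and ?_ (NPd.or ?_ ?_))
    · exact NPd.of_ptf hWP
    · exact NPd.of_dec (hq2.length.lt hmP)
    · exact (hchildP false V hV0).comp PTF.fst
    · exact (hchildP true V hV0).comp PTF.fst
  refine ⟨fun x => !(decide (U' U W m F x)), fun x => !(decide (V' V W m F x)),
    ⟨?_, ?_, ?_⟩, fun u => p.eval (C (u, dl u)), ?_, ?_⟩
  · refine NPd.mem_NP (hU'.congr (fun x => ?_))
    show _ ↔ (!(!(decide (U' U W m F x)))) = true
    simp
  · refine NPd.mem_NP (hV'.congr (fun x => ?_))
    show _ ↔ (!(!(decide (V' V W m F x)))) = true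
    simp
  · intro x
    rcases cover U V W m F hUV x with h | h <;> simp [h]
  · exact ptf_eval p (hC.comp (PTF.id.pair (ptf_dl PTF.id)))
  · intro u
    by_contra hcon
    push Not at hcon
    have hle : m (F u (dl u)) ≤ p.eval (C (u, dl u)) := eval_mono p (hCb _ _)
    refine no_reduction U V W m F hUV hW u (fun w hw hx => ?_) (fun w hw hx => ?_)
    · by_contra hc
      have := (hcon w (hw.trans hle)).1 (by simp [hc])
      have hx' : A (F u (dl u ++ w)) = false := hx
      rw [hx'] at this
      exact absurd this (by simp)
    · by_contra hc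
      have := (hcon w (hw.trans hle)).2 (by simp [hc])
      have hx' : B (F u (dl u ++ w)) = false := hx
      rw [hx'] at this
      exact absurd this (by simp)

end Pool.Agent.Work.MP_46935e_lc
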