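import Pool.Agent.Work.MP_46935e_lc.Univ

/-!
# Every Mathlib machine is simulated by a program of the universal simulator
-/

set_option autoImplicit false

namespace Pool.Agent.Work.MP_46935e_lc

open Pool.Agent.PT Turing Function
open Pool.Agent.PT.Clk (pushed Good sym sym_finite stp ix good_init initList_stk haltList_stk
  outputs_iff)

theorem iterate_fix_ge {C : Type} (f : C → C) {c d : C} {n : ℕ} (h : f^[n] c = d) (hd : f d = d)
    {n' : ℕ} (hn : n ≤ n') : f^[n'] c = d := by
  obtain ⟨j, rfl⟩ := Nat.exists_eq_add_of_le hn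
  rw [Nat.add_comm, iterate_add_apply, h, iterate_fixed hd]

theorem cStk_nil {K : Type} [Fintype K] {Γ : K → Type} (sc : ∀ k, Γ k → ℕ) :
    cStk sc (fun _ => []) = List.replicate (Fintype.card K) [] := by
  apply List.ext_getElem
  · simp [cStk]
  · intro i h1 h2
    simp [cStk]

/-- **Universality.** -/
theorem exists_program (tm : FinTM2) (ei : tm.Γ tm.k₀ ≃ Bool) (eo : tm.Γ tm.k₁ ≃ Bool) :
    ∃ (t : List ℕ) (C : ℕ), ∀ (x y : List Bool) (T : ℕ),
      Nonempty (TM2OutputsInTime tm (x.map ei.invFun) (some (y.map eo.invFun)) T) →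
      ∀ T', C * T ≤ T' → univ t T' x = y := by
  classical
  let _ := tm.kFin
  let _ := tm.ΛFin
  let _ := tm.σFin
  let _ := tm.Γk₀Fin
  set F : Set (Σ k, tm.Γ k) := sym tm ∪ Set.range (fun x => (⟨tm.k₁, x⟩ : Σ k, tm.Γ k)) with hF
  have hk1 : Finite (tm.Γ tm.k₁) := Finite.of_equiv _ eo.symm
  have hFfin : F.Finite := (sym_finite tm).union (Set.finite_range _)
  obtain ⟨M, sidx, sget, hs⟩ := exists_numbering hFfin
  obtain ⟨N, idx, pt, hidx⟩ := exists_numbering (pts_finite tm.m)
  set sc : ∀ k, tm.Γ k → ℕ := fun k x => sidx ⟨k, x⟩ + 1 with hscdef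
  set sd : ∀ k, ℕ → Option (tm.Γ k) := fun k n => if n = 0 then none else
    (sget (n - 1)).bind (fun p => if h : p.1 = k then some (h ▸ p.2) else none) with hsddef
  have hsc : ∀ k x, (⟨k, x⟩ : Σ k, tm.Γ k) ∈ F → sc k x ≤ M ∧ sd k (sc k x) = some x := by
    intro k x hx
    obtain ⟨h1, h2⟩ := hs _ hx
    refine ⟨h1, ?_⟩
    simp only [hsddef, hscdef, Nat.add_one_ne_zero, if_false, Nat.add_sub_cancel, h2,
      Option.bind_some, dif_pos]
  have hsd : ∀ k, sd k 0 = none := fun k => by simp [hsddef]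
  have hpush : ∀ l, pushed (tm.m l) ⊆ F := fun l x hx => Or.inl (Or.inl (Set.mem_iUnion.2 ⟨l, hx⟩))
  obtain ⟨D, hD⟩ : ∃ D : ℕ, ∀ l, dep (tm.m l) ≤ D := by
    obtain ⟨D, hD⟩ := (Set.finite_range (fun l => dep (tm.m l))).bddAbove
    exact ⟨D, fun l => hD ⟨l, rfl⟩⟩
  set prog := tab tm.m sc sd M N idx pt with hprog
  set cc : tm.Cfg → ℕ × List (List ℕ) := fun c => ((M + 4) * idx (ptOf tm.m c), cStk sc c.stk)
    with hcc
  have hpt : ∀ c : tm.Cfg, ptOf tm.m c ∈ pts tm.m := by
    intro c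
    unfold ptOf
    cases c.l with
    | none => exact Or.inl rfl
    | some l => exact Or.inr ⟨_, _, rfl, l, TM2.stmts₁_self⟩
  have hfix : ∀ c : tm.Cfg, c.l = none → Good F c.stk → fstep prog (cc c) = cc c := by
    intro c hc hg
    have hp : ptOf tm.m c = none := by unfold ptOf; rw [hc]
    have h1 := fstep_tab tm.m sc sd M N idx pt hidx (x := none) (Or.inl rfl) (cStk sc c.stk)
      (head_le sc sd M hsc hg _)
    simp only [hcc, hp]
    exact h1
  have hstep : ∀ c : tm.Cfg, Good F c.stk → ∃ n, n ≤ D ∧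
      (fun c => fstep prog c)^[n] (cc c) = cc (stp tm c) ∧ Good F (stp tm c).stk := by
    intro c hg
    obtain ⟨o, v, S⟩ := c
    cases o with
    | none => exact ⟨0, Nat.zero_le _, rfl, hg⟩
    | some l =>
      obtain ⟨n, h1, h2, h3⟩ := sim_stmt tm.m sc sd M N idx pt hidx hsc hsd (tm.m l) v S
        (Or.inr ⟨_, _, rfl, l, TM2.stmts₁_self⟩) (hpush l) hg
      exact ⟨n, h1.trans (hD l), h2, h3⟩
  have hiter : ∀ (T : ℕ) (c : tm.Cfg), Good F c.stk → ∃ n, n ≤ D * T ∧
      (fun c => fstep prog c)^[n] (cc c) = cc ((stp tm)^[T] c) ∧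
        Good F ((stp tm)^[T] c).stk := by
    intro T
    induction T with
    | zero => intro c hg; exact ⟨0, Nat.zero_le _, rfl, hg⟩
    | succ T ih =>
      intro c hg
      obtain ⟨n, h1, h2, h3⟩ := hstep c hg
      obtain ⟨n', h1', h2', h3'⟩ := ih _ h3
      refine ⟨n' + n, by rw [Nat.mul_succ]; omega, ?_, ?_⟩
      · rw [iterate_add_apply, h2, iterate_succ_apply, h2']
      · rw [iterate_succ_apply]; exact h3'
  refine ⟨[Fintype.card tm.K, ix tm.k₀, sc tm.k₀ (ei.invFun false), sc tm.k₀ (ei.invFun true),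
    ix tm.k₁, sc tm.k₁ (eo.invFun true),
    (M + 4) * idx (some (tm.m tm.main, tm.initialState))] ++ prog, D, ?_⟩
  intro x y T hT T' hT'
  rw [outputs_iff] at hT
  have hg0 : Good F (initList tm (x.map ei.invFun)).stk :=
    fun k z hz => Or.inl (good_init tm _ k z hz)
  obtain ⟨n, h1, h2, h3⟩ := hiter T _ hg0
  rw [hT] at h2 h3
  have h4 := iterate_fix_ge _ h2 (hfix _ rfl h3) (h1.trans hT')
  have hin : finit ([Fintype.card tm.K, ix tm.k₀, sc tm.k₀ (ei.invFun false),
      sc tm.k₀ (ei.invFun true), ix tm.k₁, sc tm.k₁ (eo.invFun true),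
      (M + 4) * idx (some (tm.m tm.main, tm.initialState))] ++ prog) x =
      cc (initList tm (x.map ei.invFun)) := by
    simp only [finit, hcc, initList_stk]
    refine Prod.ext rfl ?_
    show (List.replicate (Fintype.card tm.K) []).set (ix tm.k₀) (x.map (fun b => if b = true then
      sc tm.k₀ (ei.invFun true) else sc tm.k₀ (ei.invFun false))) = _
    rw [cStk_update, cStk_nil, List.map_map]
    congr 1
    refine List.map_congr_left (fun b _ => ?_)
    cases b <;> rfl
  have hpr : fprog ([Fintype.card tm.K, ix tm.k₀, sc tm.k₀ (ei.invFun false),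
      sc tm.k₀ (ei.invFun true), ix tm.k₁, sc tm.k₁ (eo.invFun true),
      (M + 4) * idx (some (tm.m tm.main, tm.initialState))] ++ prog) = prog := rfl
  unfold univ
  rw [hin, hpr, h4]
  show ((cStk sc (haltList tm (y.map eo.invFun)).stk).getD (ix tm.k₁) []).map
    (fun s => decide (s = sc tm.k₁ (eo.invFun true))) = y
  rw [cStk_getD, haltList_stk, update_self, List.map_map, List.map_map]
  have hinj : ∀ b : Bool, decide (sc tm.k₁ (eo.invFun b) = sc tm.k₁ (eo.invFun true)) = b := by
    intro b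
    have ha := (hsc tm.k₁ (eo.invFun b) (Or.inr ⟨_, rfl⟩)).2
    have hb := (hsc tm.k₁ (eo.invFun true) (Or.inr ⟨_, rfl⟩)).2
    cases b with
    | true => simp
    | false =>
      rw [decide_eq_false_iff_not]
      intro h
      rw [h, hb] at ha
      have := eo.symm.injective (Option.some.inj ha)
      exact absurd this (by simp)
  refine (List.map_congr_left (g := id) (fun b _ => hinj b)).trans (List.map_id _)

end Pool.Agent.Work.MP_46935e_lc
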