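import Pool.Agent.Work.MP_46935e_lc.Defs
import Pool.Agent.Work.MP_46935e_lc.Univ2
import Pool.Agent.Work.MP_46935e_lc.Diag

/-!
# No disjoint coNP pair is complete under reductions computable in time `O(n^k)`
-/

set_option autoImplicit false

namespace Pool.Agent.Work.MP_46935e_lc

open Pool.Agent.PT Turing Function N68a2faeb N08b01508

/-! ### Programs as bit strings -/

/-- State machine reading run lengths. -/
def nstep (s : ℕ × List ℕ) (c : Bool) : ℕ × List ℕ :=
  if c = true then (s.1 + 1, s.2) else (0, s.2 ++ [s.1])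

/-- The run lengths of a bit string. -/
def natsOf (l : List Bool) : List ℕ := (l.foldl nstep (0, [])).2

/-- A bit string with given run lengths. -/
def bitsOf (t : List ℕ) : List Bool := t.flatMap (fun n => List.replicate n true ++ [false])

theorem nstep_rep (n : ℕ) : ∀ (a : ℕ) (s : List ℕ),
    (List.replicate n true).foldl nstep (a, s) = (a + n, s) := by
  induction n with
  | zero => intro a s; rfl
  | succ n ih =>
    intro a s
    rw [List.replicate_succ, List.foldl_cons]
    show (List.replicate n true).foldl nstep (a + 1, s) = _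
    rw [ih, Nat.add_right_comm, Nat.add_assoc]

theorem nstep_bitsOf (t : List ℕ) : ∀ s : List ℕ, (bitsOf t).foldl nstep (0, s) = (0, s ++ t) := by
  induction t with
  | nil => intro s; simp [bitsOf]
  | cons n t ih =>
    intro s
    have h : bitsOf (n :: t) = List.replicate n true ++ ([false] ++ bitsOf t) := by
      simp [bitsOf]
    rw [h, List.foldl_append, nstep_rep, List.foldl_append]
    show (bitsOf t).foldl nstep (0, s ++ [0 + n]) = _
    rw [ih, Nat.zero_add]
    simp

theorem natsOf_bitsOf (t : List ℕ) (c : ℕ) : natsOf (bitsOf t ++ List.replicate c true) = t := by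
  unfold natsOf
  rw [List.foldl_append, nstep_bitsOf, nstep_rep]
  simp

theorem ptf_natsOf {α : Type} [Enc α] {f : α → List Bool} (hf : PTF f) :
    PTF (fun a => natsOf (f a)) := by
  have hstep : PTF (fun p : α × ((ℕ × List ℕ) × Bool) => nstep p.2.1 p.2.2) := by
    have h1 : PTF (fun p : α × ((ℕ × List ℕ) × Bool) => p.2.1.1) :=
      PTF.fst.comp (PTF.fst.comp PTF.snd)
    have h2 : PTF (fun p : α × ((ℕ × List ℕ) × Bool) => p.2.1.2) :=
      PTF.snd.comp (PTF.fst.comp PTF.snd)
    have h4 : PTF (fun p : α × ((ℕ × List ℕ) × Bool) => p.2.2) :=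
      PTF.snd.comp PTF.snd
    exact PTF.ite (p := fun p : α × ((ℕ × List ℕ) × Bool) => p.2.2 = true)
      (h4.eq (PTF.const true)) (h1.succ.pair h2)
      ((PTF.const 0).pair (h2.append (PTF.cons h1 (PTF.const []))))
  have h := PTF.foldl_add (l := f) (init := fun _ : α => ((0 : ℕ), ([] : List ℕ)))
    (step := fun p : α × ((ℕ × List ℕ) × Bool) => nstep p.2.1 p.2.2)
    hf (PTF.const _) hstep (fun _ => 20) (PB.const _) (fun a s b _ => by
      obtain ⟨n, x⟩ := s
      have h2 := sz_append x [n]
      rw [sz_cons, sz_nil] at h2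
      have h0 := sz_nat 0
      have hn := sz_nat n
      have hn1 := sz_nat (n + 1)
      simp only [nstep]
      split_ifs <;> simp only [sz_pair] <;> omega)
  exact PTF.snd.comp h

/-! ### The universal family -/

/-- The universal family of functions computable in time `O(n^k)`. -/
def ufam (k : ℕ) (u x : List Bool) : List Bool :=
  unB (univ (natsOf u) (u.length * ((encB x).length ^ k + 1)) (encB x))

theorem ptf_ufam (k : ℕ) : PTF (fun p : List Bool × List Bool => ufam k p.1 p.2) := by
  have he : PTF (fun p : List Bool × List Bool => encB p.2) := ptf_encB PTF.snd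
  exact ptf_unB (ptf_univ (ptf_natsOf PTF.fst)
    (PTF.fst.length.mul ((ptf_pow he.length k).add (PTF.const 1))) he)

theorem exists_index {k : ℕ} {f : List Bool → List Bool} (hf : InTimePow k f) :
    ∃ N₀ : ℕ, ∀ N ≥ N₀, ∃ u : List Bool, u.length = N ∧ ∀ x, ufam k u x = f x := by
  obtain ⟨M, c, hc⟩ := hf
  obtain ⟨t, C, ht⟩ := exists_program M.tm M.inputAlphabet M.outputAlphabet
  refine ⟨(bitsOf t).length + C * c, fun N hN => ?_⟩
  refine ⟨bitsOf t ++ List.replicate (N - (bitsOf t).length) true, ?_, fun x => ?_⟩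
  · rw [List.length_append, List.length_replicate]; omega
  have hlen : (bitsOf t ++ List.replicate (N - (bitsOf t).length) true).length = N := by
    rw [List.length_append, List.length_replicate]; omega
  unfold ufam
  rw [natsOf_bitsOf, hlen]
  have h1 := ht (encB x) (encB (f x)) (M.time (encB x).length) (by
    have := M.outputsFun x
    have e : ∀ z, (N487b59b3.toEncoding (α := List Bool)).encode z = encB z := bitEncode_list
    rw [e, e] at this
    exact ⟨this⟩)
    (N * ((encB x).length ^ k + 1)) (by
      refine (Nat.mul_le_mul_left C (hc _)).trans ?_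
      rw [← Nat.mul_assoc]
      exact Nat.mul_le_mul_right _ (by omega))
  rw [h1, unB_encB]

theorem isPolyTime_iff (f : List Bool → List Bool) : IsPolyTime f ↔ ∃ k, InTimePow k f := by
  constructor
  · rintro ⟨M⟩
    obtain ⟨k, c, hc⟩ : ∃ k c : ℕ, ∀ n, M.time.eval n ≤ c * (n ^ k + 1) := by
      generalize M.time = p
      induction p using Polynomial.induction_on' with
      | add p q hp hq =>
        obtain ⟨k, c, h⟩ := hp
        obtain ⟨k', c', h'⟩ := hq
        refine ⟨max k k', 2 * (c + c'), fun n => ?_⟩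
        rw [Polynomial.eval_add]
        have key : ∀ j ≤ max k k', n ^ j + 1 ≤ 2 * (n ^ max k k' + 1) := by
          intro j hj
          rcases Nat.eq_zero_or_pos n with rfl | hn
          · have : (0 : ℕ) ^ j ≤ 1 := by cases j <;> simp
            have h0 : 0 ≤ (0 : ℕ) ^ max k k' := Nat.zero_le _
            generalize (0 : ℕ) ^ max k k' = z at h0 ⊢
            omega
          · have := Nat.pow_le_pow_right hn hj
            omega
        have h1 := (h n).trans (Nat.mul_le_mul_left c (key k (le_max_left _ _)))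
        have h2 := (h' n).trans (Nat.mul_le_mul_left c' (key k' (le_max_right _ _)))
        nlinarith
      | monomial k c =>
        refine ⟨k, c, fun n => ?_⟩
        rw [Polynomial.eval_monomial]
        exact Nat.mul_le_mul_left _ (Nat.le_succ _)
    exact ⟨k, M.toTM2ComputableInTime, c, hc⟩
  · rintro ⟨k, M, c, hc⟩
    refine ⟨{ M with
      time := Polynomial.C c * (Polynomial.X ^ k + 1)
      outputsFun := fun a => ⟨(M.outputsFun a).toEvalsTo, (M.outputsFun a).steps_le_m.trans ?_⟩ }⟩
    simpa using hc _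

theorem family_aux {A B : DecisionProblem} (hAB : IsDisjointCoNPPair A B)
    (F : List Bool → List Bool → List Bool)
    (hF : NPd (fun p : (List Bool × List Bool) × List Bool => F p.1.1 p.1.2 = p.2))
    {C : List Bool × List Bool → ℕ} (hC : PTF C) (hCb : ∀ u x, (F u x).length ≤ C (u, x)) :
    ∃ A' B', IsDisjointCoNPPair A' B' ∧ ∃ r : Polynomial ℕ, ∀ u, ∃ x : List Bool,
      u.length ≤ x.length ∧ x.length ≤ r.eval u.length ∧ FailsAt (F u) A' B' A B x := by
  obtain ⟨A', B', h1, C', hC', h2⟩ := diag hAB F hF hC hCb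
  have h3 : PTF (fun u : List Bool => 2 * u.length + 1 + C' u) :=
    (((PTF.const 2).mul PTF.id.length).add (PTF.const 1)).add hC'
  obtain ⟨r, hr⟩ := exists_poly_of_ptf h3
  refine ⟨A', B', h1, r, fun u => ?_⟩
  obtain ⟨w, hw, h4⟩ := h2 u
  have hl : (dl u ++ w).length = 2 * u.length + 1 + w.length := by
    rw [List.length_append, dl, N487b59b3.length_delimit]
  have := hr u
  exact ⟨dl u ++ w, by omega, by omega, h4⟩

theorem sz_pair_bits (u z : List Bool) : sz (u, z) ≤ 4 * u.length + 4 * z.length + 3 := by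
  rw [sz_pair]
  have := sz_bits u
  have := sz_bits z
  omega

/-- The graph of a function with NP graph, as an `NPd` predicate. -/
theorem HasNPGraph.npd {H : List Bool → List Bool} (hH : HasNPGraph H) :
    NPd (fun p : List Bool × List Bool => H p.1 = p.2) := by
  obtain ⟨_, L, hL, hLH⟩ := hH
  exact ((NPd.of_NP hL).comp ptf_encP).congr (fun p => hLH p.1 p.2)

/-- Polynomial-time functions have NP graphs. -/
theorem hasNPGraph_of_isPolyTime {H : List Bool → List Bool} (h : IsPolyTime H) :
    HasNPGraph H := by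
  have h1 := ptf_of_isPolyTime_fun h
  refine ⟨exists_poly_of_ptf h1.length, fun s => decide (H (decP s).1 = (decP s).2), ?_,
    fun x y => ?_⟩
  · refine NPd.mem_NP (NPd.of_ptf ?_)
    exact (h1.comp (PTF.fst.comp ptf_decP)).eq (PTF.snd.comp ptf_decP)
  · show decide (H (decP (N487b59b3.bitEncode (x, y))).1 =
      (decP (N487b59b3.bitEncode (x, y))).2) = true ↔ _
    rw [decP_enc, decide_eq_true_iff]

theorem bounded {A B : DecisionProblem} (hAB : IsDisjointCoNPPair A B) (k : ℕ)
    {H : List Bool → List Bool} (hH : HasNPGraph H) :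
    ∃ A' B', IsDisjointCoNPPair A' B' ∧ ∃ r : Polynomial ℕ, ∀ g, InTimePow k g →
      ∃ N₀ : ℕ, ∀ N ≥ N₀, ∃ x : List Bool,
        N ≤ x.length ∧ x.length ≤ r.eval N ∧ FailsAt (fun x => g (H x)) A' B' A B x := by
  obtain ⟨q, hq⟩ := hH.1
  have hqx : PTF (fun p : List Bool × List Bool => q.eval p.2.length) :=
    ptf_eval q PTF.snd.length
  have hF : NPd (fun p : (List Bool × List Bool) × List Bool => ufam k p.1.1 (H p.1.2) = p.2) := by
    refine NPd.fn (G := fun p : (List Bool × List Bool) × List Bool => H p.1.2)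
      (C := fun p => q.eval p.1.2.length) ?_ (hqx.comp PTF.fst) (fun p => hq _)
      (P := fun p z => ufam k p.1.1 z = p.2) ?_
    · exact hH.npd.comp ((PTF.snd.comp (PTF.fst.comp PTF.fst)).pair PTF.snd)
    · refine NPd.of_dec ?_
      exact ((ptf_ufam k).comp ((PTF.fst.comp (PTF.fst.comp PTF.fst)).pair PTF.snd)).eq
        (PTF.snd.comp PTF.fst)
  obtain ⟨j, hj⟩ := (ptf_ufam k).size
  have hC : PTF (fun p : List Bool × List Bool =>
      (4 * p.1.length + 4 * q.eval p.2.length + 3 + 2) ^ j) :=
    ptf_pow ((((((PTF.const 4).mul PTF.fst.length).add ((PTF.const 4).mul hqx)).add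
      (PTF.const 3)).add (PTF.const 2))) j
  obtain ⟨A', B', h1, r, h2⟩ := family_aux hAB (fun u x => ufam k u (H x)) hF hC (fun u x => by
    have h3 : sz (ufam k u (H x)) ≤ (sz (u, H x) + 2) ^ j := hj (u, H x)
    refine (length_le_sz _).trans (h3.trans (Nat.pow_le_pow_left ?_ _))
    have := sz_pair_bits u (H x)
    have := hq x
    dsimp only
    omega)
  refine ⟨A', B', h1, r, fun g hg => ?_⟩
  obtain ⟨N₀, hN⟩ := exists_index hg
  refine ⟨N₀, fun N hN' => ?_⟩
  obtain ⟨u, hu1, hu2⟩ := hN N hN'
  obtain ⟨x, h3, h4, h5⟩ := h2 u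
  have e : (fun x => ufam k u (H x)) = fun x => g (H x) := funext (fun x => hu2 _)
  rw [hu1] at h3 h4
  rw [e] at h5
  exact ⟨x, h3, h4, h5⟩

end Pool.Agent.Work.MP_46935e_lc
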