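import Pool.Prelude.Def_F_c21d359f

/-!
# Bounded-degree reductions between disjoint coNP pairs
-/

set_option autoImplicit false

namespace Pool.Agent.Work.MP_46935e_lc

/-- `g` is computed by a Mathlib machine in time `O(n^k)`: some machine computes `g` on the frozen
encodings of bit strings in time at most `c * (n ^ k + 1)`, where `n` is the length of the encoded
input. -/
def InTimePow (k : ℕ) (g : List Bool → List Bool) : Prop :=
  ∃ M : Turing.TM2ComputableInTime (N487b59b3.toEncoding (α := List Bool)).encode
    (N487b59b3.toEncoding (α := List Bool)).encode g, ∃ c : ℕ, ∀ n, M.time n ≤ c * (n ^ k + 1)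

/-- `H` has polynomially bounded values, and its graph `{(x, y) | H x = y}` is in `NP`. -/
def HasNPGraph (H : List Bool → List Bool) : Prop :=
  (∃ q : Polynomial ℕ, ∀ x, (H x).length ≤ q.eval x.length) ∧
    ∃ L ∈ N68a2faeb.NP, ∀ x y, L (N487b59b3.bitEncode (x, y)) = true ↔ H x = y

/-- The string `x` witnesses that `f` does not reduce the pair `(A', B')` to the pair `(A, B)`. -/
def FailsAt (f : List Bool → List Bool) (A' B' A B : N68a2faeb.DecisionProblem)
    (x : List Bool) : Prop :=
  (A' x = true ∧ A (f x) ≠ true) ∨ (B' x = true ∧ B (f x) ≠ true)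

end Pool.Agent.Work.MP_46935e_lc
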