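import Pool.Agent.Work.MP_46935e_lc.Univ2
import Pool.Agent.Work.MP_46935e_lc.Diag
import Pool.Agent.Work.PT.Serial
import Pool.Agent.Work.PT.BitEnc

/-!
# Runs of oracle algorithms: transcripts, universal simulation, certificates
-/

set_option autoImplicit false

namespace Pool.Agent.Work.MP_46935e_lc

open Pool.Agent.PT Turing Function

/-! ### Typed decoders -/

/-- Transcripts: lists of queries and answers. -/
abbrev Tr : Type := List (List Bool × List Bool)

/-- Decoding of a bit. -/
def dB (t : D) : Bool := decide (t ≠ D.nil)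
/-- Decoding of a bit string. -/
def dLB (t : D) : List Bool := t.toL.map dB
/-- Decoding of a transcript. -/
def dTr (t : D) : Tr := t.toL.map (fun e => (dLB e.hd, dLB e.tl))
/-- Decoding of a number. -/
def dN (t : D) : ℕ := t.toL.length
/-- Decoding of a list of numbers. -/
def dLN (t : D) : List ℕ := t.toL.map dN

theorem dB_enc (b : Bool) : dB (Enc.enc b) = b := by cases b <;> rfl

theorem dLB_enc (l : List Bool) : dLB (Enc.enc l) = l := by
  unfold dLB
  rw [D.toL_enc, List.map_map]
  refine (List.map_congr_left (g := id) (fun b _ => dB_enc b)).trans (List.map_id _)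

theorem dTr_enc (l : Tr) : dTr (Enc.enc l) = l := by
  unfold dTr
  rw [D.toL_enc, List.map_map]
  refine (List.map_congr_left (g := id) (fun e _ => ?_)).trans (List.map_id _)
  obtain ⟨a, b⟩ := e
  show (dLB (D.hd (Enc.enc (a, b))), dLB (D.tl (Enc.enc (a, b)))) = (a, b)
  rw [enc_pair, D.hd_cons, D.tl_cons, dLB_enc, dLB_enc]

theorem dN_enc (n : ℕ) : dN (Enc.enc n) = n := by
  induction n with
  | zero => rfl
  | succ n ih =>
    unfold dN at ih ⊢
    rw [enc_succ, D.toL, List.length_cons, ih]

theorem dLN_enc (l : List ℕ) : dLN (Enc.enc l) = l := by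
  unfold dLN
  rw [D.toL_enc, List.map_map]
  refine (List.map_congr_left (g := id) (fun b _ => dN_enc b)).trans (List.map_id _)

theorem ptf_dB : PTF dB := by unfold dB; fun_prop
theorem ptf_dLB : PTF dLB := by
  unfold dLB
  exact PTF.map (g := fun p : D × D => dB p.2) (PTF.toL PTF.id) (ptf_dB.comp PTF.snd)
theorem ptf_dTr : PTF dTr := by
  unfold dTr
  exact PTF.map (g := fun p : D × D => (dLB p.2.hd, dLB p.2.tl)) (PTF.toL PTF.id)
    ((ptf_dLB.comp (PTF.Dhd' PTF.snd)).pair (ptf_dLB.comp (PTF.Dtl' PTF.snd)))
theorem ptf_dN : PTF dN := by unfold dN; fun_prop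
theorem ptf_dLN : PTF dLN := by
  unfold dLN
  exact PTF.map (g := fun p : D × D => dN p.2) (PTF.toL PTF.id) (ptf_dN.comp PTF.snd)

/-- The serialisation of an object. -/
def ser {α : Type} [Enc α] (a : α) : List Bool := (Enc.enc a).enc

theorem length_ser {α : Type} [Enc α] (a : α) : (ser a).length = sz a := D.length_enc _

theorem parse_ser {α : Type} [Enc α] (a : α) : parse (ser a) = Enc.enc a := parse_enc _

@[fun_prop]
theorem ptf_ser' {α β : Type} [Enc α] [Enc β] {f : α → β} (hf : PTF f) :
    PTF (fun a => ser (f a)) := ptf_ser hf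

/-- Size as a polynomial-time computable number. -/
@[fun_prop]
theorem ptf_sz {α β : Type} [Enc α] [Enc β] {f : α → β} (hf : PTF f) :
    PTF (fun a => sz (f a)) := ((ptf_ser' hf).length).congr (fun _ => length_ser _)

attribute [fun_prop] ptf_dec2 ptf_dl ptf_encB ptf_unB

@[fun_prop]
theorem ptf_dTr' {α : Type} [Enc α] {f : α → D} (hf : PTF f) : PTF (fun a => dTr (f a)) :=
  ptf_dTr.comp hf
@[fun_prop]
theorem ptf_dLN' {α : Type} [Enc α] {f : α → D} (hf : PTF f) : PTF (fun a => dLN (f a)) :=
  ptf_dLN.comp hf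
@[fun_prop]
theorem ptf_dLB' {α : Type} [Enc α] {f : α → D} (hf : PTF f) : PTF (fun a => dLB (f a)) :=
  ptf_dLB.comp hf
@[fun_prop]
theorem ptf_parse' {α : Type} [Enc α] {f : α → List Bool} (hf : PTF f) :
    PTF (fun a => parse (f a)) := ptf_parse.comp hf
@[fun_prop]
theorem ptf_univ' {α : Type} [Enc α] {t : α → List ℕ} {T : α → ℕ} {x : α → List Bool}
    (ht : PTF t) (hT : PTF T) (hx : PTF x) : PTF (fun a => univ (t a) (T a) (x a)) :=
  ptf_univ ht hT hx

/-! ### Certificates of arbitrary type -/

theorem NPd.of_cert {α γ : Type} [Enc α] [Enc γ] {P : α → Prop} {dec : D → γ} (hdec : PTF dec)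
    (hd : ∀ c, dec (Enc.enc c) = c) {Ck : α × γ → Bool} (hCk : PTF Ck) {B : α → ℕ} (hB : PB B)
    (h1 : ∀ a, P a → ∃ c, sz c ≤ B a ∧ Ck (a, c) = true)
    (h2 : ∀ a c, Ck (a, c) = true → P a) : NPd P := by
  obtain ⟨k, hk⟩ := hB
  refine ⟨fun p => decide (p.2.length ≤ (sz p.1 + 2) ^ k) && Ck (p.1, dec (parse p.2)),
    fun a => (sz a + 2) ^ k, ?_, (PB.sz.add (PB.const 2)).pow k, fun a w hw => ?_, fun a => ?_⟩
  · have h3 : PTF (fun p : α × List Bool => (p.1, dec (parse p.2))) :=
      PTF.fst.pair (hdec.comp (ptf_parse.comp PTF.snd))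
    have h4 : PTF (fun p : α × List Bool => decide (p.2.length ≤ (sz p.1 + 2) ^ k)) := by
      fun_prop
    exact h4.and (hCk.comp h3)
  · simp only [Bool.and_eq_true, decide_eq_true_eq] at hw
    exact hw.1
  · constructor
    · intro h
      obtain ⟨c, hc1, hc2⟩ := h1 a h
      refine ⟨ser c, ?_⟩
      simp only [Bool.and_eq_true, decide_eq_true_eq, parse_ser, hd, length_ser]
      exact ⟨hc1.trans (hk a), hc2⟩
    · rintro ⟨w, hw⟩
      simp only [Bool.and_eq_true, decide_eq_true_eq] at hw
      exact h2 _ _ hw.2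

/-! ### Runs -/

/-- Total length of a transcript. -/
def trLen (h : Tr) : ℕ := (h.map (fun e => e.1.length + e.2.length + 1)).sum

@[fun_prop]
theorem ptf_trLen {α : Type} [Enc α] {f : α → Tr} (hf : PTF f) : PTF (fun a => trLen (f a)) := by
  have h : PTF (fun h : Tr => trLen h) := by
    unfold trLen
    fun_prop
  exact h.comp hf

theorem trLen_cons (e : List Bool × List Bool) (h : Tr) :
    trLen (e :: h) = e.1.length + e.2.length + 1 + trLen h := by
  simp [trLen]

theorem trLen_append (h h' : Tr) : trLen (h ++ h') = trLen h + trLen h' := by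
  simp [trLen]

theorem sz_tr (h : Tr) : sz h ≤ 4 * trLen h + 1 := by
  induction h with
  | nil => simp [sz_nil]
  | cons e h ih =>
    obtain ⟨a, b⟩ := e
    rw [trLen_cons, sz_cons, sz_pair]
    have := sz_bits a
    have := sz_bits b
    dsimp only
    omega

theorem trLen_le_sz (h : Tr) : trLen h ≤ sz h := by
  induction h with
  | nil => simp [trLen, sz_nil]
  | cons e h ih =>
    obtain ⟨a, b⟩ := e
    rw [trLen_cons, sz_cons, sz_pair]
    have := length_le_sz a
    have := length_le_sz b
    dsimp only
    omega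

/-- One round of an oracle algorithm: `a h` is either `true :: q` (ask the query `q`) or a result.
Nothing happens if the transcript is longer than `N`. -/
def rstep (a : Tr → List Bool) (N : ℕ) (o : List Bool → List Bool) (h : Tr) : Tr :=
  if (a h).headD false = true ∧ trLen h ≤ N then h ++ [((a h).tail, o (a h).tail)] else h

/-- The transcript after `n` rounds. -/
def rrun (a : Tr → List Bool) (N : ℕ) (o : List Bool → List Bool) (n : ℕ) : Tr :=
  (rstep a N o)^[n] []

/-- The result after `N` rounds. -/
def fin (a : Tr → List Bool) (N : ℕ) (o : List Bool → List Bool) : List Bool := a (rrun a N o N)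

section run

variable (a : Tr → List Bool) (N : ℕ) (o : List Bool → List Bool)

theorem rrun_zero : rrun a N o 0 = [] := rfl

theorem rrun_succ (n : ℕ) : rrun a N o (n + 1) = rstep a N o (rrun a N o n) :=
  iterate_succ_apply' _ _ _

theorem rrun_prefix_succ (n : ℕ) : rrun a N o n <+: rrun a N o (n + 1) := by
  rw [rrun_succ]
  unfold rstep
  split_ifs
  · exact List.prefix_append _ _
  · exact List.prefix_refl _

theorem rrun_prefix {m n : ℕ} (h : m ≤ n) : rrun a N o m <+: rrun a N o n := by
  induction n, h using Nat.le_induction with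
  | base => exact List.prefix_refl _
  | succ n _ ih => exact ih.trans (rrun_prefix_succ a N o n)

theorem rrun_ans (n : ℕ) : ∀ e ∈ rrun a N o n, e.2 = o e.1 := by
  induction n with
  | zero => intro e he; cases he
  | succ n ih =>
    intro e he
    rw [rrun_succ] at he
    unfold rstep at he
    split_ifs at he
    · rcases List.mem_append.1 he with h | h
      · exact ih e h
      · rw [List.mem_singleton] at h
        rw [h]
    · exact ih e he

theorem rrun_agree {o' : List Bool → List Bool} {n : ℕ}
    (h : ∀ e ∈ rrun a N o n, o' e.1 = o e.1) : ∀ m ≤ n, rrun a N o' m = rrun a N o m := by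
  intro m
  induction m with
  | zero => intro _; rfl
  | succ m ih =>
    intro hm
    have ih' := ih (by omega)
    have hp := (rrun_prefix a N o hm).subset
    rw [rrun_succ] at hp
    rw [rrun_succ, rrun_succ, ih']
    unfold rstep at hp ⊢
    split_ifs with hc
    · rw [if_pos hc] at hp
      have := h _ (hp (List.mem_append_right _ (List.mem_singleton.2 rfl)))
      rw [this]
    · rfl

theorem fin_agree {o' : List Bool → List Bool}
    (h : ∀ e ∈ rrun a N o N, o' e.1 = o e.1) : fin a N o' = fin a N o := by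
  unfold fin
  rw [rrun_agree a N o h N le_rfl]

theorem rrun_query (n : ℕ) : ∀ e ∈ rrun a N o n, ∃ h, trLen h ≤ N ∧ e.1 = (a h).tail := by
  induction n with
  | zero => intro e he; cases he
  | succ n ih =>
    intro e he
    rw [rrun_succ] at he
    unfold rstep at he
    split_ifs at he with hc
    · rcases List.mem_append.1 he with h | h
      · exact ih e h
      · rw [List.mem_singleton] at h
        exact ⟨_, hc.2, by rw [h]⟩
    · exact ih e he

theorem rrun_length (n : ℕ) : (rrun a N o n).length ≤ n := by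
  induction n with
  | zero => simp [rrun_zero]
  | succ n ih =>
    rw [rrun_succ]
    unfold rstep
    split_ifs
    · rw [List.length_append, List.length_singleton]; omega
    · omega

end run

theorem sz_list_le {γ : Type} [Enc γ] (l : List γ) (B : ℕ) (h : ∀ c ∈ l, sz c ≤ B) :
    sz l ≤ l.length * (B + 1) + 1 := by
  induction l with
  | nil => simp [sz_nil]
  | cons c l ih =>
    have h1 := h c List.mem_cons_self
    have h2 := ih (fun c hc => h c (List.mem_cons_of_mem _ hc))
    rw [sz_cons, List.length_cons, Nat.succ_mul]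
    omega

/-- The run without bounds. -/
def irun (a : Tr → List Bool) (o : List Bool → List Bool) : ℕ → Tr
  | 0 => []
  | n + 1 => irun a o n ++ [((a (irun a o n)).tail, o (a (irun a o n)).tail)]

/-- The algorithm asks `n` queries and then stops with result `v`. -/
def Halts (a : Tr → List Bool) (o : List Bool → List Bool) (n : ℕ) (v : List Bool) : Prop :=
  (∀ i < n, (a (irun a o i)).headD false = true) ∧ a (irun a o n) = false :: v

theorem irun_congr {a a' : Tr → List Bool} {o : List Bool → List Bool} {n : ℕ}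
    (h : ∀ i < n, a' (irun a o i) = a (irun a o i)) : ∀ m ≤ n, irun a' o m = irun a o m := by
  intro m
  induction m with
  | zero => intro _; rfl
  | succ m ih =>
    intro hm
    rw [irun, irun, ih (by omega), h m (by omega)]

theorem Halts.congr {a a' : Tr → List Bool} {o : List Bool → List Bool} {n : ℕ} {v : List Bool}
    (hh : Halts a o n v) (h : ∀ i ≤ n, a' (irun a o i) = a (irun a o i)) : Halts a' o n v := by
  have e := irun_congr (a := a) (a' := a') (o := o) (n := n) (fun i hi => h i hi.le)
  refine ⟨fun i hi => ?_, ?_⟩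
  · rw [e i hi.le, h i hi.le]; exact hh.1 i hi
  · rw [e n le_rfl, h n le_rfl]; exact hh.2

theorem fin_of_halts {a : Tr → List Bool} {o : List Bool → List Bool} {n N : ℕ} {v : List Bool}
    (hh : Halts a o n v) (hn : n ≤ N) (hb : ∀ i < n, trLen (irun a o i) ≤ N) :
    fin a N o = false :: v := by
  have h1 : ∀ i ≤ n, rrun a N o i = irun a o i := by
    intro i
    induction i with
    | zero => intro _; rfl
    | succ i ih =>
      intro hi
      rw [rrun_succ, ih (by omega), irun]
      unfold rstep
      rw [if_pos ⟨hh.1 i (by omega), hb i (by omega)⟩]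
  have h2 : ∀ m, n ≤ m → rrun a N o m = irun a o n := by
    intro m hm
    induction m, hm using Nat.le_induction with
    | base => exact h1 n le_rfl
    | succ m _ ih =>
      rw [rrun_succ, ih]
      unfold rstep
      rw [if_neg]
      rintro ⟨h3, _⟩
      rw [hh.2] at h3
      simp at h3
  unfold fin
  rw [h2 N hn, hh.2]

/-! ### Universal algorithms -/

/-- The action of the program `t` on the input `x`, with simulation time `N`. -/
def act (t : List ℕ) (x : List Bool) (N : ℕ) (h : Tr) : List Bool := univ t N (ser (x, h))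

@[fun_prop]
theorem ptf_act {α : Type} [Enc α] {t : α → List ℕ} {x : α → List Bool} {N : α → ℕ} {h : α → Tr}
    (ht : PTF t) (hx : PTF x) (hN : PTF N) (hh : PTF h) :
    PTF (fun a => act (t a) (x a) (N a) (h a)) := by
  unfold act
  fun_prop

theorem compile {F : List Bool × Tr → List Bool} (hF : PTF F) :
    ∃ (t : List ℕ) (k : ℕ), ∀ x h N, (sz x + sz h + 3) ^ k ≤ N → act t x N h = F (x, h) := by
  have h1 : PTF (fun s : List Bool => F (dLB (parse s).hd, dTr (parse s).tl)) := by
    have h2 : PTF (fun s : List Bool => (dLB (parse s).hd, dTr (parse s).tl)) := by fun_prop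
    exact hF.comp h2
  obtain ⟨M⟩ := h1.tm2_raw
  obtain ⟨t, C, ht⟩ := exists_program M.tm M.inputAlphabet M.outputAlphabet
  have h3 : PTF (fun s : List Bool => C * M.time.eval s.length) := by
    exact (PTF.const C).mul (ptf_eval _ (by fun_prop))
  obtain ⟨k, hk⟩ := h3.size
  refine ⟨t, k * 3, fun x h N hN => ?_⟩
  have h4 := ht (ser (x, h)) (F (x, h)) (M.time.eval (ser (x, h)).length) (by
    have := M.outputsFun (ser (x, h))
    rw [parse_ser, enc_pair, D.hd_cons, D.tl_cons, dLB_enc, dTr_enc] at this
    exact ⟨this⟩) N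
  refine h4 (le_trans ?_ hN)
  have h5 := hk (ser (x, h))
  beta_reduce at h5
  rw [sz_nat] at h5
  have h6 := sz_bits (ser (x, h))
  rw [length_ser] at h6
  have h7 : sz (x, h) = sz x + sz h + 1 := sz_pair _ _
  have h8 : sz (ser (x, h)) + 2 ≤ (sz x + sz h + 3) ^ 3 := by
    generalize sz x + sz h = u at h7 ⊢
    have : (u + 3) ^ 3 = u ^ 3 + 9 * u ^ 2 + 27 * u + 27 := by ring
    rw [this]
    have h9 : 0 ≤ u ^ 3 + 9 * u ^ 2 := Nat.zero_le _
    omega
  have h9 : (sz (ser (x, h)) + 2) ^ k ≤ ((sz x + sz h + 3) ^ 3) ^ k := Nat.pow_le_pow_left h8 k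
  rw [← pow_mul, Nat.mul_comm 3 k] at h9
  omega

theorem compile_run {F : List Bool × Tr → List Bool} (hF : PTF F) :
    ∃ (t : List ℕ) (k : ℕ), ∀ (x : List Bool) (o : List Bool → List Bool) (n : ℕ) (v : List Bool)
      (N : ℕ), Halts (fun h => F (x, h)) o n v → n ≤ N →
      (∀ i ≤ n, (sz x + sz (irun (fun h => F (x, h)) o i) + 3) ^ k ≤ N) →
      fin (act t x N) N o = false :: v := by
  obtain ⟨t, k, hk⟩ := compile hF
  refine ⟨t, k + 1, fun x o n v N hh hn hb => ?_⟩
  have e : ∀ i ≤ n, act t x N (irun (fun h => F (x, h)) o i) =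
      F (x, irun (fun h => F (x, h)) o i) := fun i hi =>
    hk _ _ _ (le_trans (Nat.pow_le_pow_right (by omega) (Nat.le_succ k)) (hb i hi))
  have e2 := irun_congr (a := fun h => F (x, h)) (a' := act t x N) (o := o) (n := n)
    (fun i hi => e i hi.le)
  refine fin_of_halts (hh.congr e) hn (fun i hi => ?_)
  rw [e2 i hi.le]
  have h1 := trLen_le_sz (irun (fun h => F (x, h)) o i)
  have h2 := hb i hi.le
  have h3 : (sz x + sz (irun (fun h => F (x, h)) o i) + 3) ^ 1 ≤
      (sz x + sz (irun (fun h => F (x, h)) o i) + 3) ^ (k + 1) :=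
    Nat.pow_le_pow_right (by omega) (by omega)
  rw [pow_one] at h3
  omega

end Pool.Agent.Work.MP_46935e_lc
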