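import Pool.Agent.Work.MP_46935e_lc.Defs

/-!
# Uniformly generated reductions of fixed polynomial size
-/

set_option autoImplicit false

namespace Pool.Agent.Work.MP_46935e_lc

/-- The description for inputs of length `n`: the value of `h` at (the frozen code of)
`(β n, 1^n)`. -/
def desc (h : List Bool → List Bool) (β : ℕ → List Bool) (n : ℕ) : List Bool :=
  h (N487b59b3.bitEncode (β n, List.replicate n true))

/-- The map `x ↦ F ⟨a_n, x⟩` with `n = |x|` and `a_n = h ⟨β n, 1^n⟩`. -/
def generated (F h : List Bool → List Bool) (β : ℕ → List Bool) (x : List Bool) : List Bool :=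
  F (N487b59b3.bitEncode (desc h β x.length, x))

/-- The advice `β n` has length `O(n^(1/e))` and the description `a_n` has length `O(n^k)`. -/
def SizeOK (h : List Bool → List Bool) (β : ℕ → List Bool) (e k : ℕ) : Prop :=
  ∃ C : ℕ, ∀ n, (β n).length ^ e ≤ C * (n + 1) ∧ (desc h β n).length ≤ C * (n ^ k + 1)

end Pool.Agent.Work.MP_46935e_lc
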