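import Pool.Agent.Work.MP_46935e_lc.GenTree
import Pool.Agent.Work.MP_46935e_lc.Bounded

/-!
# Generated reductions, part 2: the two pairs
-/

set_option autoImplicit false

namespace Pool.Agent.Work.MP_46935e_lc

open Pool.Agent.PT Turing Function N68a2faeb N08b01508

/-! ### Parameters and strings -/

/-- Parameters `(m₀, m₁, β₀, β₁, α₀, α₁)`. -/
abbrev Par : Type := ℕ × ℕ × List Bool × List Bool × List Bool × List Bool

/-- Decoding of parameters. -/
def dPar (t : D) : Par :=
  (dN t.hd, dN t.tl.hd, dLB t.tl.tl.hd, dLB t.tl.tl.tl.hd, dLB t.tl.tl.tl.tl.hd,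
    dLB t.tl.tl.tl.tl.tl)

theorem dPar_enc (q : Par) : dPar (Enc.enc q) = q := by
  obtain ⟨a, b, c, d, e, f⟩ := q
  simp only [dPar, enc_pair, D.hd_cons, D.tl_cons, dN_enc, dLB_enc]

@[fun_prop]
theorem ptf_dN' {α : Type} [Enc α] {f : α → D} (hf : PTF f) : PTF (fun a => dN (f a)) :=
  ptf_dN.comp hf

@[fun_prop]
theorem ptf_dPar' {α : Type} [Enc α] {f : α → D} (hf : PTF f) : PTF (fun a => dPar (f a)) := by
  unfold dPar
  fun_prop

/-- The root string. -/
def rootS (d : ℕ) (q : Par) : List Bool :=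
  false :: (dl (ser q) ++ List.replicate (q.1 ^ d - (2 * sz q + 2)) false)

/-- The string of the node `w`. -/
def nodeS (d : ℕ) (q : Par) (w : List Bool) : List Bool :=
  true :: (dl (ser q) ++ (dl w ++
    List.replicate (q.2.1 ^ d - (2 * sz q + 2 + (2 * w.length + 1))) false))

/-- Decoding: is it a node, parameters, position. -/
def dX (x : List Bool) : Bool × (Par × List Bool) :=
  (x.headD false, (dPar (parse (dec2 x.tail).1), (dec2 (dec2 x.tail).2).1))

@[fun_prop]
theorem ptf_rootS (d : ℕ) {α : Type} [Enc α] {q : α → Par} (hq : PTF q) :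
    PTF (fun a => rootS d (q a)) := by
  unfold rootS
  fun_prop

@[fun_prop]
theorem ptf_nodeS (d : ℕ) {α : Type} [Enc α] {q : α → Par} {w : α → List Bool} (hq : PTF q)
    (hw : PTF w) : PTF (fun a => nodeS d (q a) (w a)) := by
  unfold nodeS
  fun_prop

@[fun_prop]
theorem ptf_dX {α : Type} [Enc α] {x : α → List Bool} (hx : PTF x) :
    PTF (fun a => dX (x a)) := by
  unfold dX
  fun_prop

theorem dX_root (d : ℕ) (q : Par) : (dX (rootS d q)).1 = false ∧ (dX (rootS d q)).2.1 = q := by
  refine ⟨rfl, ?_⟩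
  show dPar (parse (dec2 (dl (ser q) ++ List.replicate _ false)).1) = q
  rw [dec2_dl, parse_ser, dPar_enc]

theorem dX_node (d : ℕ) (q : Par) (w : List Bool) : dX (nodeS d q w) = (true, (q, w)) := by
  show (true, (dPar (parse (dec2 (dl (ser q) ++ (dl w ++ List.replicate _ false))).1),
    (dec2 (dec2 (dl (ser q) ++ (dl w ++ List.replicate _ false))).2).1)) = _
  rw [dec2_dl, parse_ser, dPar_enc]
  dsimp only
  rw [dec2_dl]

theorem length_rootS {d : ℕ} {q : Par} (h : 2 * sz q + 2 ≤ q.1 ^ d) :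
    (rootS d q).length = q.1 ^ d := by
  rw [rootS, List.length_cons, List.length_append, dl, N487b59b3.length_delimit, length_ser,
    List.length_replicate]
  omega

theorem length_nodeS {d : ℕ} {q : Par} {w : List Bool}
    (h : 2 * sz q + 2 + (2 * w.length + 1) ≤ q.2.1 ^ d) : (nodeS d q w).length = q.2.1 ^ d := by
  rw [nodeS, List.length_cons, List.length_append, List.length_append, dl, dl,
    N487b59b3.length_delimit, N487b59b3.length_delimit, length_ser, List.length_replicate]
  omega

/-- Advice, instances, input. -/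
abbrev T3 : Type := List Bool × (List (List Bool) × List Bool)

/-- The problem at the root. -/
def t0 (d c : ℕ) (q : Par) : T3 := (q.2.2.2.2.1, (insts c q.1 q.2.2.1, rootS d q))

/-- The problem at the string `x` with the second set of parameters. -/
def t1 (c : ℕ) (q : Par) (x : List Bool) : T3 := (q.2.2.2.2.2, (insts c q.2.1 q.2.2.2.1, x))

/-- The children. -/
def kid (d : ℕ) (b : Bool) (y : Bool × (Par × List Bool)) : List Bool :=
  nodeS d y.2.1 (if y.1 = true then y.2.2 ++ [b] else [])

@[fun_prop]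
theorem ptf_t0 (d c : ℕ) {α : Type} [Enc α] {q : α → Par} (hq : PTF q) :
    PTF (fun a => t0 d c (q a)) := by
  unfold t0
  fun_prop

@[fun_prop]
theorem ptf_t1 (c : ℕ) {α : Type} [Enc α] {q : α → Par} {x : α → List Bool} (hq : PTF q)
    (hx : PTF x) : PTF (fun a => t1 c (q a) (x a)) := by
  unfold t1
  fun_prop

@[fun_prop]
theorem ptf_kid (d : ℕ) (b : Bool) {α : Type} [Enc α] {y : α → Bool × (Par × List Bool)}
    (hy : PTF y) : PTF (fun a => kid d b (y a)) := by
  unfold kid
  fun_prop

section pairD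

variable (S S' : T3 → Prop) (R : T3 × List Bool → Bool) (j d c : ℕ)

/-- Bound for the certificates at the root. -/
def Mx (q : Par) : ℕ := (sz (t0 d c q) + 2) ^ j

/-- First set. -/
def DU (y : Bool × (Par × List Bool)) : Prop :=
  ¬ (y.1 = true ∧ R (t0 d c y.2.1, y.2.2) = true) ∧
    ((y.1 = true ∧ Mx j d c y.2.1 ≤ y.2.2.length) ∨
      (S (t1 c y.2.1 (kid d false y)) ∧ S (t1 c y.2.1 (kid d true y))))

/-- Second set. -/
def DV (y : Bool × (Par × List Bool)) : Prop :=
  (y.1 = true ∧ R (t0 d c y.2.1, y.2.2) = true) ∨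
    (¬ (y.1 = true ∧ Mx j d c y.2.1 ≤ y.2.2.length) ∧
      (S' (t1 c y.2.1 (kid d false y)) ∨ S' (t1 c y.2.1 (kid d true y))))

theorem DU_or_DV (h : ∀ t, S t ∨ S' t) (y : Bool × (Par × List Bool)) :
    DU S R j d c y ∨ DV S' R j d c y := by
  unfold DU DV
  by_cases hW : y.1 = true ∧ R (t0 d c y.2.1, y.2.2) = true
  · exact Or.inr (Or.inl hW)
  by_cases hm : y.1 = true ∧ Mx j d c y.2.1 ≤ y.2.2.length
  · exact Or.inl ⟨hW, Or.inl hm⟩
  rcases h (t1 c y.2.1 (kid d false y)) with h0 | h0
  · rcases h (t1 c y.2.1 (kid d true y)) with h1 | h1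
    · exact Or.inl ⟨hW, Or.inr ⟨h0, h1⟩⟩
    · exact Or.inr (Or.inr ⟨hm, Or.inr h1⟩)
  · exact Or.inr (Or.inr ⟨hm, Or.inl h0⟩)

variable {S S' R}

theorem npd_DU (hS : NPd S) (hR : PTF R) : NPd (DU S R j d c) := by
  refine NPd.and ?_ (NPd.or ?_ (NPd.and ?_ ?_))
  · have h1 : PTF (fun y : Bool × (Par × List Bool) => R (t0 d c y.2.1, y.2.2)) :=
      hR.comp (by fun_prop)
    exact NPd.of_dec (P := fun y : Bool × (Par × List Bool) =>
      ¬ (y.1 = true ∧ R (t0 d c y.2.1, y.2.2) = true)) (by fun_prop)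
  · exact NPd.of_dec (P := fun y : Bool × (Par × List Bool) =>
      (y.1 = true ∧ Mx j d c y.2.1 ≤ y.2.2.length)) (by unfold Mx; fun_prop)
  · exact hS.comp (f := fun y : Bool × (Par × List Bool) => t1 c y.2.1 (kid d false y))
      (by fun_prop)
  · exact hS.comp (f := fun y : Bool × (Par × List Bool) => t1 c y.2.1 (kid d true y))
      (by fun_prop)

theorem npd_DV (hS : NPd S') (hR : PTF R) : NPd (DV S' R j d c) := by
  refine NPd.or ?_ (NPd.and ?_ (NPd.or ?_ ?_))
  · have h1 : PTF (fun y : Bool × (Par × List Bool) => R (t0 d c y.2.1, y.2.2)) :=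
      hR.comp (by fun_prop)
    exact NPd.of_dec (P := fun y : Bool × (Par × List Bool) =>
      (y.1 = true ∧ R (t0 d c y.2.1, y.2.2) = true)) (by fun_prop)
  · exact NPd.of_dec (P := fun y : Bool × (Par × List Bool) =>
      ¬ (y.1 = true ∧ Mx j d c y.2.1 ≤ y.2.2.length)) (by unfold Mx; fun_prop)
  · exact hS.comp (f := fun y : Bool × (Par × List Bool) => t1 c y.2.1 (kid d false y))
      (by fun_prop)
  · exact hS.comp (f := fun y : Bool × (Par × List Bool) => t1 c y.2.1 (kid d true y))
      (by fun_prop)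

/-- **The contradiction** for parameters `q` of the right sizes. -/
theorem core (hSS : ∀ t, S t ∨ S' t) (hRb : ∀ t w, R (t, w) = true → w.length ≤ (sz t + 2) ^ j)
    (hRS : ∀ t, S t ↔ ∃ w, R (t, w) = true) (q : Par)
    (hU0 : S (t0 d c q) → DU S R j d c (dX (rootS d q)))
    (hV0 : S' (t0 d c q) → DV S' R j d c (dX (rootS d q)))
    (hU1 : ∀ x : List Bool, x.length = q.2.1 ^ d → S (t1 c q x) → DU S R j d c (dX x))
    (hV1 : ∀ x : List Bool, x.length = q.2.1 ^ d → S' (t1 c q x) → DV S' R j d c (dX x))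
    (hs : 2 * sz q + 2 + (2 * Mx j d c q + 1) ≤ q.2.1 ^ d) : False := by
  obtain ⟨hr1, hr2⟩ := dX_root d q
  have hlen : ∀ w : List Bool, w.length ≤ Mx j d c q → (nodeS d q w).length = q.2.1 ^ d :=
    fun w hw => length_nodeS (by omega)
  refine tree_arg (u0 := S (t0 d c q)) (v0 := S' (t0 d c q))
    (U1 := fun w => S (t1 c q (nodeS d q w))) (V1 := fun w => S' (t1 c q (nodeS d q w)))
    (W := fun w => R (t0 d c q, w) = true) (M := Mx j d c q) (hSS _) ?_ ?_ ?_ ?_ ?_ ?_
  · intro h
    obtain ⟨w, hw⟩ := (hRS _).1 h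
    exact ⟨w, hRb _ _ hw, hw⟩
  · intro w hw
    exact (hRS _).2 ⟨w, hw⟩
  · intro h
    have h2 := hU0 h
    unfold DU kid at h2
    rw [hr1, hr2] at h2
    rcases h2.2 with h3 | h3
    · exact absurd h3.1 (by simp)
    · simpa using h3.1
  · intro h
    have h2 := hV0 h
    unfold DV kid at h2
    rw [hr1, hr2] at h2
    rcases h2 with h3 | ⟨_, h3 | h3⟩
    · exact absurd h3.1 (by simp)
    · simpa using h3
    · simpa using h3
  · intro w hw h
    have h2 := hU1 _ (hlen w hw) h
    unfold DU kid at h2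
    rw [dX_node] at h2
    simpa using h2
  · intro w hw h
    have h2 := hV1 _ (hlen w hw) h
    unfold DV kid at h2
    rw [dX_node] at h2
    simpa using h2

end pairD

/-! ### The bits of the generated strings -/

/-- The generated description. -/
def gen (h : List Bool → List Bool) (be : List Bool) (n : ℕ) : List Bool :=
  h (N487b59b3.bitEncode (be, List.replicate n true))

/-- Position in a list. -/
def posIn (x : List Bool) (l : List (List Bool)) : ℕ :=
  @List.idxOf (List Bool) instBEqOfDecidableEq x l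

theorem posIn_getElem {l : List (List Bool)} (hl : l.Nodup) (i : ℕ) (hi : i < l.length) :
    posIn l[i] l = i := by
  unfold posIn
  exact @List.Nodup.idxOf_getElem _ instBEqOfDecidableEq _ l hl i hi

@[fun_prop]
theorem ptf_posIn {α : Type} [Enc α] {x : α → List Bool} {l : α → List (List Bool)}
    (hx : PTF x) (hl : PTF l) : PTF (fun a => posIn (x a) (l a)) := PTF.idxOf hx hl

/-- Bits of the generated descriptions. -/
def Eb (h : List Bool → List Bool) (d c : ℕ) (x : List Bool) : Bool :=
  (dl (gen h (dec2 (dec2 x).2).1 ((dec2 x).1.length ^ d))).getD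
    (posIn x (insts c (dec2 x).1.length (dec2 (dec2 x).2).1)) false

theorem Eb_insts (h : List Bool → List Bool) (d c m : ℕ) (be : List Bool) {i : ℕ}
    (hi : i < (insts c m be).length) :
    Eb h d c ((insts c m be).getD i []) = (dl (gen h be (m ^ d))).getD i false := by
  have e1 : (insts c m be).getD i [] = (insts c m be)[i] := by
    rw [List.getD_eq_getElem?_getD, List.getElem?_eq_getElem hi]; rfl
  rw [e1]
  obtain ⟨h1, h2⟩ := dec_of_mem_insts (List.getElem_mem hi)
  unfold Eb
  rw [h1, h2, posIn_getElem (nodup_insts c m be)]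

theorem npd_Eb {h : List Bool → List Bool} (hh : HasNPGraph h) (d c : ℕ) (b : Bool) :
    NPd (fun x : List Bool => Eb h d c x = b) := by
  obtain ⟨q, hq⟩ := hh.1
  have harg : PTF (fun x : List Bool => N487b59b3.bitEncode
      ((dec2 (dec2 x).2).1, List.replicate ((dec2 x).1.length ^ d) true)) :=
    ptf_encP.comp (g := fun x : List Bool =>
      ((dec2 (dec2 x).2).1, List.replicate ((dec2 x).1.length ^ d) true)) (by fun_prop)
  refine NPd.fn (G := fun x : List Bool => gen h (dec2 (dec2 x).2).1 ((dec2 x).1.length ^ d))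
    (C := fun x => q.eval (N487b59b3.bitEncode
      ((dec2 (dec2 x).2).1, List.replicate ((dec2 x).1.length ^ d) true)).length) ?_
    (ptf_eval q harg.length) (fun x => hq _)
    (P := fun x y => (dl y).getD
      (posIn x (insts c (dec2 x).1.length (dec2 (dec2 x).2).1)) false = b) ?_
  · exact hh.npd.comp ((harg.comp PTF.fst).pair PTF.snd)
  · exact NPd.of_dec (P := fun p : List Bool × List Bool => (dl p.2).getD
      (posIn p.1 (insts c (dec2 p.1).1.length (dec2 (dec2 p.1).2).1)) false = b) (by fun_prop)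

end Pool.Agent.Work.MP_46935e_lc
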