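import Pool.Agent.Work.MP_46935e_lc.GenPair
import Pool.Agent.Work.MP_46935e_lc.GenDefs

/-!
# Generated reductions, part 3: sizes and the main theorem
-/

set_option autoImplicit false

namespace Pool.Agent.Work.MP_46935e_lc

open Pool.Agent.PT Turing Function N68a2faeb N08b01508

/-! ### Sizes -/

theorem num1 {b C m d : ℕ} (hd : 1 ≤ d) (hm : 1 ≤ m) (h : b ^ d ≤ C * (m ^ d + 1)) :
    b ≤ (2 * C + 1) * m := by
  by_contra hc
  rw [not_le] at hc
  have h1 : ((2 * C + 1) * m) ^ d < b ^ d := Nat.pow_lt_pow_left hc (by omega)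
  rw [mul_pow] at h1
  have h2 : 1 ≤ m ^ d := Nat.one_le_pow _ _ hm
  have h3 : 2 * C + 1 ≤ (2 * C + 1) ^ d := Nat.le_self_pow (by omega) _
  have h4 := Nat.mul_le_mul_right (m ^ d) h3
  have h5 : C * (m ^ d + 1) ≤ C * (2 * m ^ d) := Nat.mul_le_mul_left C (by omega)
  have h6 : C * (2 * m ^ d) = 2 * C * m ^ d := by ring
  have h7 : (2 * C + 1) * m ^ d = 2 * C * m ^ d + m ^ d := by ring
  omega

theorem num2 {a C n k : ℕ} (hn : 4 * C + 1 ≤ n) (h : a ≤ C * (n ^ k + 1)) :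
    2 * a + 1 ≤ n ^ (k + 1) := by
  have h1 : 1 ≤ n ^ k := Nat.one_le_pow _ _ (by omega)
  have h2 : C * (n ^ k + 1) ≤ C * (2 * n ^ k) := Nat.mul_le_mul_left C (by omega)
  have h3 : (4 * C + 1) * n ^ k ≤ n * n ^ k := Nat.mul_le_mul_right _ hn
  have h4 : (4 * C + 1) * n ^ k = 2 * (C * (2 * n ^ k)) + n ^ k := by ring
  rw [pow_succ, Nat.mul_comm (n ^ k) n]
  omega

theorem num4 {a l C L m k : ℕ} (hL : 1 ≤ L) (hm : 1 ≤ m) (hl : l ≤ L * m)
    (h : a ≤ C * (l ^ k + 1)) : a ≤ 2 * C * L ^ k * m ^ k := by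
  have h1 : l ^ k ≤ L ^ k * m ^ k := by
    rw [← mul_pow]; exact Nat.pow_le_pow_left hl k
  have h2 : 1 ≤ L ^ k * m ^ k := by
    rw [← mul_pow]; exact Nat.one_le_pow _ _ (Nat.mul_pos hL hm)
  have h3 : C * (l ^ k + 1) ≤ C * (2 * (L ^ k * m ^ k)) := Nat.mul_le_mul_left C (by omega)
  have h4 : C * (2 * (L ^ k * m ^ k)) = 2 * C * L ^ k * m ^ k := by ring
  omega

theorem num5 {m₀ K k d b₀ b₁ a₀ a₁ C A s : ℕ} (hK : 1 ≤ K) (hd : K * (k + 1) + 1 ≤ d)
    (hm : 2 * (4 + 8 * (2 * C + 1) + 8 * A + 11) + 2 ≤ m₀)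
    (hb₀ : b₀ ≤ (2 * C + 1) * m₀) (hb₁ : b₁ ≤ (2 * C + 1) * m₀ ^ K)
    (ha₀ : a₀ ≤ A * m₀ ^ k) (ha₁ : a₁ ≤ A * (m₀ ^ K) ^ k)
    (hs : s ≤ 2 * m₀ + 2 * m₀ ^ K + 4 * b₀ + 4 * b₁ + 4 * a₀ + 4 * a₁ + 11) :
    2 * s + 2 ≤ m₀ ^ d := by
  have hm1 : 1 ≤ m₀ := by omega
  set P := m₀ ^ (K * (k + 1)) with hP
  have hP1 : 1 ≤ P := Nat.one_le_pow _ _ hm1
  have e1 : m₀ ^ K ≤ P := Nat.pow_le_pow_right hm1 (Nat.le_mul_of_pos_right _ (by omega))
  have e2 : m₀ ≤ m₀ ^ K := Nat.le_self_pow (by omega) _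
  have e3 : (m₀ ^ K) ^ k ≤ P := by
    rw [← pow_mul]
    exact Nat.pow_le_pow_right hm1 (Nat.mul_le_mul_left K (Nat.le_succ k))
  have e4 : m₀ ^ k ≤ (m₀ ^ K) ^ k := Nat.pow_le_pow_left e2 k
  have f0 : (2 * C + 1) * m₀ ≤ (2 * C + 1) * P := Nat.mul_le_mul_left _ (by omega)
  have f1 : (2 * C + 1) * m₀ ^ K ≤ (2 * C + 1) * P := Nat.mul_le_mul_left _ e1
  have f2 : A * m₀ ^ k ≤ A * P := Nat.mul_le_mul_left _ (by omega)
  have f3 : A * (m₀ ^ K) ^ k ≤ A * P := Nat.mul_le_mul_left _ e3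
  have g1 : (2 * (4 + 8 * (2 * C + 1) + 8 * A + 11) + 2) * P ≤ m₀ * P :=
    Nat.mul_le_mul_right _ hm
  have g2 : (2 * (4 + 8 * (2 * C + 1) + 8 * A + 11) + 2) * P =
      8 * P + 16 * ((2 * C + 1) * P) + 16 * (A * P) + 22 * P + 2 * P := by ring
  have g3 : m₀ * P ≤ m₀ ^ d := by
    have : m₀ * P = m₀ ^ (K * (k + 1) + 1) := by rw [hP, pow_succ, Nat.mul_comm]
    rw [this]
    exact Nat.pow_le_pow_right hm1 hd
  omega

theorem num6 {m₀ k d j L A s : ℕ} (hd : 1 ≤ d) (hm : 4 * A + 4 * L + 13 ≤ m₀)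
    (hs : s + 2 ≤ 4 * (A * m₀ ^ k) + 1 + (m₀ ^ (d * (k + 1)) * (4 * (L * m₀) + 2) + 1) +
      (4 * m₀ ^ d + 1) + 4) : (s + 2) ^ j ≤ m₀ ^ (d * (k + 3) * j) := by
  have hm1 : 1 ≤ m₀ := by omega
  set Q := m₀ ^ (d * (k + 1) + 1) with hQ
  have hQ1 : 1 ≤ Q := Nat.one_le_pow _ _ hm1
  have e1 : m₀ ^ k ≤ Q := Nat.pow_le_pow_right hm1 (by
    have := Nat.le_mul_of_pos_left (k + 1) hd
    omega)
  have e2 : m₀ ^ d ≤ Q := Nat.pow_le_pow_right hm1 (by
    have := Nat.le_mul_of_pos_right d (Nat.succ_pos k)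
    have h3 : d * (k + 1) = d * Nat.succ k := rfl
    omega)
  have e3 : m₀ ^ (d * (k + 1)) * m₀ = Q := by rw [hQ, pow_succ]
  have e4 : m₀ ^ (d * (k + 1)) ≤ Q := Nat.pow_le_pow_right hm1 (Nat.le_succ _)
  have f1 : A * m₀ ^ k ≤ A * Q := Nat.mul_le_mul_left _ e1
  have f2 : m₀ ^ (d * (k + 1)) * (4 * (L * m₀) + 2) =
      4 * (L * (m₀ ^ (d * (k + 1)) * m₀)) + 2 * m₀ ^ (d * (k + 1)) := by ring
  rw [e3] at f2
  have g1 : (4 * A + 4 * L + 13) * Q ≤ m₀ * Q := Nat.mul_le_mul_right _ hm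
  have g2 : (4 * A + 4 * L + 13) * Q = 4 * (A * Q) + 4 * (L * Q) + 13 * Q := by ring
  have g3 : m₀ * Q ≤ m₀ ^ (d * (k + 3)) := by
    have : m₀ * Q = m₀ ^ (d * (k + 1) + 2) := by
      rw [hQ, pow_succ m₀ (d * (k + 1) + 1), Nat.mul_comm]
    rw [this]
    refine Nat.pow_le_pow_right hm1 ?_
    have h3 : d * (k + 3) = d * (k + 1) + 2 * d := by ring
    omega
  have h1 : s + 2 ≤ m₀ ^ (d * (k + 3)) := by omega
  rw [pow_mul]
  exact Nat.pow_le_pow_left h1 j

theorem num7 {m₀ k d j s M : ℕ} (hd : 1 ≤ d) (hm : 6 ≤ m₀) (hs : 2 * s + 2 ≤ m₀ ^ d)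
    (hM : M ≤ m₀ ^ (d * (k + 3) * j)) :
    2 * s + 2 + (2 * M + 1) ≤ (m₀ ^ ((k + 3) * j + 2)) ^ d := by
  set X := m₀ ^ (d * (k + 3) * j) with hX
  set Y := m₀ ^ d with hY
  have hX1 : 1 ≤ X := Nat.one_le_pow _ _ (by omega)
  have hY1 : 6 ≤ Y := hm.trans (Nat.le_self_pow (by omega) _)
  have e : (m₀ ^ ((k + 3) * j + 2)) ^ d = X * Y * Y := by
    rw [hX, hY, ← pow_mul, ← pow_add, ← pow_add]
    congr 1
    ring
  rw [e]
  have h1 : 1 * Y ≤ X * Y := Nat.mul_le_mul_right _ hX1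
  have h2 : X * 6 ≤ X * Y := Nat.mul_le_mul_left _ hY1
  have h3 : X * Y * 6 ≤ X * Y * Y := Nat.mul_le_mul_left _ hY1
  omega

/-! ### The main theorem -/

theorem sz_par (q : Par) : sz q ≤ 2 * q.1 + 2 * q.2.1 + 4 * q.2.2.1.length +
    4 * q.2.2.2.1.length + 4 * q.2.2.2.2.1.length + 4 * q.2.2.2.2.2.length + 11 := by
  obtain ⟨a, b, c, d, e, f⟩ := q
  rw [sz_pair, sz_pair, sz_pair, sz_pair, sz_pair, sz_nat, sz_nat]
  have := sz_bits c
  have := sz_bits d
  have := sz_bits e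
  have := sz_bits f
  dsimp only
  omega

theorem generated_fail {A B : DecisionProblem} (hAB : IsDisjointCoNPPair A B)
    {F : List Bool → List Bool} (hF : HasNPGraph F) (k : ℕ) :
    ∃ (e : ℕ) (A' B' : DecisionProblem), IsDisjointCoNPPair A' B' ∧
      ∀ (h : List Bool → List Bool) (be : ℕ → List Bool), HasNPGraph h → SizeOK h be e k →
        ∀ N : ℕ, ∃ x : List Bool, N ≤ x.length ∧ FailsAt (generated F h be) A' B' A B x := by
  classical
  set U : List Bool × List Bool → Prop := fun p => A (F (N487b59b3.bitEncode p)) = false with hUd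
  set V : List Bool × List Bool → Prop := fun p => B (F (N487b59b3.bitEncode p)) = false with hVd
  have hV0 : NPd (fun x : List Bool => B x = false) :=
    (NPd.of_NP (L := Bᶜ) hAB.memB).congr (fun x => by
      show (!(B x)) = true ↔ B x = false
      simp)
  have hU0 : NPd (fun x : List Bool => A x = false) :=
    (NPd.of_NP (L := Aᶜ) hAB.memA).congr (fun x => by
      show (!(A x)) = true ↔ A x = false
      simp)
  obtain ⟨pF, hpF⟩ := hF.1
  have hfn : ∀ P : List Bool → Prop, NPd P →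
      NPd (fun p : List Bool × List Bool => P (F (N487b59b3.bitEncode p))) := by
    intro P hP
    refine NPd.fn (G := fun p : List Bool × List Bool => F (N487b59b3.bitEncode p))
      (C := fun p => pF.eval (N487b59b3.bitEncode p).length) ?_ (ptf_eval pF ptf_encP.length)
      (fun p => hpF _) (P := fun _ y => P y) (hP.comp PTF.snd)
    exact hF.npd.comp ((ptf_encP.comp PTF.fst).pair PTF.snd)
  have hU : NPd U := hfn _ hU0
  have hV : NPd V := hfn _ hV0
  have hUV : ∀ p, U p ∨ V p := by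
    intro p
    have h := hAB.disjoint (F (N487b59b3.bitEncode p))
    show A (F (N487b59b3.bitEncode p)) = false ∨ B (F (N487b59b3.bitEncode p)) = false
    cases hA : A (F (N487b59b3.bitEncode p)) <;> cases hB : B (F (N487b59b3.bitEncode p)) <;>
      simp_all
  have hSU : NPd (SS U V U) := npd_SS hU hV hU
  have hSV : NPd (SS U V V) := npd_SS hU hV hV
  have htot : ∀ t, SS U V U t ∨ SS U V V t := SS_total hUV
  obtain ⟨R, Bd, hR, ⟨j, hj⟩, hRb, hRS⟩ := id hSU
  have hRb' : ∀ t w, R (t, w) = true → w.length ≤ (sz t + 2) ^ j :=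
    fun t w hw => (hRb t w hw).trans (hj t)
  set K : ℕ := (k + 3) * j + 2 with hK
  set d : ℕ := K * (k + 1) + 2 with hd
  set c : ℕ := d * (k + 1) with hc
  have hDU := (npd_DU j d c hSU hR).comp (f := fun x : List Bool => dX x) (by fun_prop)
  have hDV := (npd_DV j d c hSV hR).comp (f := fun x : List Bool => dX x) (by fun_prop)
  by_cases hD : ∀ (h : List Bool → List Bool) (be : ℕ → List Bool), HasNPGraph h →
      SizeOK h be d k → ∀ N : ℕ, ∃ x : List Bool, N ≤ x.length ∧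
        FailsAt (generated F h be) (fun x => !(decide (DU (SS U V U) R j d c (dX x))))
          (fun x => !(decide (DV (SS U V V) R j d c (dX x)))) A B x
  · refine ⟨d, _, _, ⟨?_, ?_, ?_⟩, hD⟩
    · refine NPd.mem_NP (hDU.congr (fun x => ?_))
      show _ ↔ (!(!(decide (DU (SS U V U) R j d c (dX x))))) = true
      simp
    · refine NPd.mem_NP (hDV.congr (fun x => ?_))
      show _ ↔ (!(!(decide (DV (SS U V V) R j d c (dX x))))) = true
      simp
    · intro x
      rcases DU_or_DV (SS U V U) (SS U V V) R j d c htot (dX x) with h | h <;> simp [h]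
  · push Not at hD
    obtain ⟨h₀, be₀, hh₀, ⟨C₀, hC₀⟩, N₀, hN₀⟩ := hD
    refine ⟨d, Eb h₀ d c, fun x => !(Eb h₀ d c x), ⟨?_, ?_, ?_⟩, ?_⟩
    · refine NPd.mem_NP ((npd_Eb hh₀ d c false).congr (fun x => ?_))
      show _ ↔ (!(Eb h₀ d c x)) = true
      simp
    · refine NPd.mem_NP ((npd_Eb hh₀ d c true).congr (fun x => ?_))
      show _ ↔ (!(!(Eb h₀ d c x))) = true
      simp
    · intro x
      cases Eb h₀ d c x <;> simp
    · rintro h be hh ⟨C₁, hC₁⟩ N₁
      by_contra hcon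
      push Not at hcon
      have hd1 : 1 ≤ d := by omega
      set C : ℕ := C₀ + C₁ with hCdef
      set L : ℕ := c + 4 * C + 6 with hL
      set A₁ : ℕ := 2 * C * L ^ k with hA₁
      set m₀ : ℕ := (2 * (4 + 8 * (2 * C + 1) + 8 * A₁ + 11) + 2) + (4 * A₁ + 4 * L + 13) +
        (4 * C + 1) + N₀ + N₁ + 6 with hm₀
      set bb : ℕ → List Bool := fun m => be₀ (m ^ d) with hbb
      set ll : ℕ → ℕ := fun m => (c + 2) * m + 2 * (bb m).length + 2 with hll
      set aa : ℕ → List Bool := fun m => gen h (be (ll m)) (ll m) with haa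
      have hgen₀ : ∀ m, (gen h₀ (bb m) (m ^ d)).length ≤ C * ((m ^ d) ^ k + 1) := fun m =>
        (hC₀ (m ^ d)).2.trans (Nat.mul_le_mul_right _ (by omega))
      have G1 : ∀ m, 1 ≤ m → (bb m).length ≤ (2 * C + 1) * m := fun m hm =>
        num1 hd1 hm ((hC₀ (m ^ d)).1.trans (Nat.mul_le_mul_right _ (by omega)))
      have G2 : ∀ m, 1 ≤ m → ll m ≤ L * m := by
        intro m hm
        have h1 := G1 m hm
        have e1 : L * m = (c + 2) * m + 2 * ((2 * C + 1) * m) + 2 * m := by rw [hL]; ring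
        show (c + 2) * m + 2 * (bb m).length + 2 ≤ L * m
        omega
      have G3 : ∀ m, 1 ≤ m → (aa m).length ≤ A₁ * m ^ k := fun m hm =>
        num4 (by omega) hm (G2 m hm) ((hC₁ (ll m)).2.trans (Nat.mul_le_mul_right _ (by omega)))
      have G4 : ∀ m, m₀ ≤ m → ∀ (S : List Bool × List Bool → Prop) (x : List Bool),
          SS U V S (aa m, (insts c m (bb m), x)) → S (gen h₀ (bb m) (m ^ d), x) := by
        intro m hm S x hS
        have hll' : N₁ ≤ ll m := by
          have : m ≤ (c + 2) * m := Nat.le_mul_of_pos_left m (by omega)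
          show N₁ ≤ (c + 2) * m + 2 * (bb m).length + 2
          omega
        refine SS_forced (Eb h₀ d c) (fun s hs hU1 => ?_) (fun s hs hV1 => ?_) ?_ (fun i hi => ?_)
          hS
        · have hsl : s.length = ll m := length_of_mem_insts hs
          have hg : generated F h be s = F (N487b59b3.bitEncode (aa m, s)) := by
            unfold generated desc; rw [hsl]; rfl
          by_contra hE
          refine hcon s (by omega) (Or.inl ⟨by simpa using hE, ?_⟩)
          rw [hg]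
          have : A (F (N487b59b3.bitEncode (aa m, s))) = false := hU1
          rw [this]; simp
        · have hsl : s.length = ll m := length_of_mem_insts hs
          have hg : generated F h be s = F (N487b59b3.bitEncode (aa m, s)) := by
            unfold generated desc; rw [hsl]; rfl
          by_contra hE
          refine hcon s (by omega) (Or.inr ⟨by simpa using hE, ?_⟩)
          rw [hg]
          have : B (F (N487b59b3.bitEncode (aa m, s))) = false := hV1
          rw [this]; simp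
        · rw [length_insts, dl, N487b59b3.length_delimit, hc, pow_mul]
          refine num2 (C := C) ?_ (hgen₀ m)
          exact le_trans (by omega) (Nat.le_self_pow (by omega : d ≠ 0) m)
        · exact Eb_insts h₀ d c m (bb m) hi
      have G5 : ∀ m, m₀ ≤ m → ∀ x : List Bool, x.length = m ^ d →
          (U (gen h₀ (bb m) (m ^ d), x) → DU (SS U V U) R j d c (dX x)) ∧
          (V (gen h₀ (bb m) (m ^ d), x) → DV (SS U V V) R j d c (dX x)) := by
        intro m hm x hx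
        have hxN : N₀ ≤ x.length := by
          rw [hx]
          exact le_trans (by omega) (Nat.le_self_pow (by omega : d ≠ 0) m)
        have hg : generated F h₀ be₀ x = F (N487b59b3.bitEncode (gen h₀ (bb m) (m ^ d), x)) := by
          unfold generated desc; rw [hx]; rfl
        constructor
        · intro hU1
          by_contra hc1
          refine hN₀ x hxN (Or.inl ⟨by simp [hc1], ?_⟩)
          rw [hg]
          have : A (F (N487b59b3.bitEncode (gen h₀ (bb m) (m ^ d), x))) = false := hU1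
          rw [this]; simp
        · intro hV1
          by_contra hc1
          refine hN₀ x hxN (Or.inr ⟨by simp [hc1], ?_⟩)
          rw [hg]
          have : B (F (N487b59b3.bitEncode (gen h₀ (bb m) (m ^ d), x))) = false := hV1
          rw [this]; simp
      set q : Par := (m₀, m₀ ^ K, bb m₀, bb (m₀ ^ K), aa m₀, aa (m₀ ^ K)) with hq
      have hK1 : 1 ≤ K := by omega
      have hm1 : 1 ≤ m₀ := by omega
      have hmK : m₀ ≤ m₀ ^ K := Nat.le_self_pow (by omega) _
      have hs1 : 2 * sz q + 2 ≤ m₀ ^ d :=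
        num5 hK1 (by omega) (by omega) (G1 m₀ hm1) (G1 (m₀ ^ K) (by omega)) (G3 m₀ hm1)
          (G3 (m₀ ^ K) (by omega)) (sz_par q)
      have hM1 : Mx j d c q ≤ m₀ ^ (d * (k + 3) * j) := by
        refine num6 (L := L) (A := A₁) hd1 (by omega) ?_
        have e1 : sz (t0 d c q) = sz (aa m₀) + (sz (insts c m₀ (bb m₀)) + sz (rootS d q) + 1) + 1 :=
          by unfold t0; rw [sz_pair, sz_pair]
        have e2 := sz_bits (aa m₀)
        have e3 := sz_insts c m₀ (bb m₀)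
        have e4 := sz_bits (rootS d q)
        rw [length_rootS hs1] at e4
        have e5 := G3 m₀ hm1
        have e6 := G2 m₀ hm1
        have e7 : m₀ ^ c * (4 * ((c + 2) * m₀ + 2 * (bb m₀).length + 2) + 2) ≤
            m₀ ^ c * (4 * (L * m₀) + 2) := by
          refine Nat.mul_le_mul_left _ ?_
          have e8 : (c + 2) * m₀ + 2 * (bb m₀).length + 2 ≤ L * m₀ := e6
          omega
        have e9 : q.1 = m₀ := rfl
        rw [e9] at e4
        rw [← hc]
        omega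
      have hs2 : 2 * sz q + 2 + (2 * Mx j d c q + 1) ≤ (m₀ ^ K) ^ d :=
        num7 hd1 (by omega) hs1 hM1
      refine core j d c htot hRb' hRS q (fun hS => ?_) (fun hS => ?_) (fun x hx hS => ?_)
        (fun x hx hS => ?_) hs2
      · exact (G5 m₀ le_rfl _ (length_rootS hs1)).1 (G4 m₀ le_rfl U _ hS)
      · exact (G5 m₀ le_rfl _ (length_rootS hs1)).2 (G4 m₀ le_rfl V _ hS)
      · exact (G5 (m₀ ^ K) hmK _ hx).1 (G4 (m₀ ^ K) hmK U _ hS)
      · exact (G5 (m₀ ^ K) hmK _ hx).2 (G4 (m₀ ^ K) hmK V _ hS)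

end Pool.Agent.Work.MP_46935e_lc
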