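import Pool.Agent.Work.MP_46935e_lc.RobustRun

/-!
# Generated reductions, part 1: tree argument, labellings of instance lists
-/

set_option autoImplicit false

namespace Pool.Agent.Work.MP_46935e_lc

open Pool.Agent.PT Turing Function

/-! ### The tree argument -/

theorem tree_arg {u0 v0 : Prop} {U1 V1 W : List Bool → Prop} {M : ℕ}
    (h0 : u0 ∨ v0) (hc : u0 → ∃ w, w.length ≤ M ∧ W w) (hW : ∀ w, W w → u0)
    (hrU : u0 → U1 []) (hrV : v0 → V1 [])
    (h1 : ∀ w : List Bool, w.length ≤ M → U1 w →
      ¬ W w ∧ (M ≤ w.length ∨ (U1 (w ++ [false]) ∧ U1 (w ++ [true]))))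
    (h2 : ∀ w : List Bool, w.length ≤ M → V1 w →
      W w ∨ (w.length < M ∧ (V1 (w ++ [false]) ∨ V1 (w ++ [true])))) : False := by
  have up : ¬ u0 := by
    intro hu
    obtain ⟨w, hwl, hwW⟩ := hc hu
    have key : ∀ (n : ℕ) (w' : List Bool), w'.length ≤ M → w'.length + n = w.length →
        (∃ s, w = w' ++ s) → ¬ U1 w' := by
      intro n
      induction n with
      | zero =>
        rintro w' hm' hl ⟨s, hs⟩ hU
        have hs0 : s = [] := by
          have := congrArg List.length hs
          rw [List.length_append] at this
          exact List.length_eq_zero_iff.1 (by omega)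
        have hww : w' = w := by rw [hs, hs0, List.append_nil]
        have h3 := h1 w' hm' hU
        rw [hww] at h3
        exact h3.1 hwW
      | succ n ih =>
        rintro w' hm hl ⟨s, hs⟩ hU
        obtain ⟨b, s', rfl⟩ : ∃ b s', s = b :: s' := by
          cases s with
          | nil =>
            have := congrArg List.length hs
            rw [List.length_append, List.length_nil] at this
            omega
          | cons b s' => exact ⟨b, s', rfl⟩
        have hl2 : (w' ++ [b]).length = w'.length + 1 := by simp
        have h3 := ih (w' ++ [b]) (by omega) (by omega) ⟨s', by rw [hs]; simp⟩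
        have h4 := h1 w' hm hU
        rcases h4.2 with h5 | h5
        · omega
        · cases b with
          | false => exact h3 h5.1
          | true => exact h3 h5.2
    exact key w.length [] (Nat.zero_le _) (by simp) ⟨w, rfl⟩ (hrU hu)
  have hv : v0 := h0.resolve_left up
  have down : ∀ (n : ℕ) (w : List Bool), w.length + n = M → V1 w → False := by
    intro n
    induction n with
    | zero =>
      intro w hl hV
      rcases h2 w (by omega) hV with h3 | h3
      · exact up (hW w h3)
      · omega
    | succ n ih =>
      intro w hl hV
      rcases h2 w (by omega) hV with h3 | ⟨_, h3 | h3⟩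
      · exact up (hW w h3)
      · exact ih (w ++ [false]) (by simp; omega) h3
      · exact ih (w ++ [true]) (by simp; omega) h3
  exact down M [] (by simp) (hrV hv)

/-! ### Bounded universal quantifiers -/

/-- Decoding of lists of bit strings. -/
def dLL (t : D) : List (List Bool) := t.toL.map dLB

theorem dLL_enc (l : List (List Bool)) : dLL (Enc.enc l) = l := by
  unfold dLL
  rw [D.toL_enc, List.map_map]
  refine (List.map_congr_left (g := id) (fun b _ => dLB_enc b)).trans (List.map_id _)

theorem ptf_dLL : PTF dLL := by
  unfold dLL
  exact PTF.map (g := fun p : D × D => dLB p.2) (PTF.toL PTF.id) (ptf_dLB.comp PTF.snd)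

theorem NPd.forall_lt {α : Type} [Enc α] {Q : α → ℕ → Prop}
    (h : NPd (fun p : α × ℕ => Q p.1 p.2)) {n : α → ℕ} (hn : PTF n) :
    NPd (fun a => ∀ i < n a, Q a i) := by
  obtain ⟨R, B, hR, ⟨k, hk⟩, h3, h4⟩ := h
  have hnB : PB n := hn.size.mono (fun a => by rw [sz_nat]; omega)
  refine NPd.of_cert (γ := List (List Bool)) ptf_dLL dLL_enc
    (Ck := fun q => (List.range (n q.1)).all (fun i => R ((q.1, i), q.2.getD i []))) ?_
    (B := fun a => n a * ((4 * (sz a + (2 * n a + 1) + 1 + 2) ^ k + 1) + 1) + 1) ?_ ?_ ?_
  · refine PTF.all (l := fun q : α × List (List Bool) => List.range (n q.1))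
      (p := fun r : (α × List (List Bool)) × ℕ => R ((r.1.1, r.2), r.1.2.getD r.2 []))
      ((hn.comp PTF.fst).range) (hR.comp ?_)
    fun_prop
  · exact (hnB.mul ((((PB.const 4).mul ((((PB.sz.add (((PB.const 2).mul hnB).add
      (PB.const 1))).add (PB.const 1)).add (PB.const 2)).pow k)).add (PB.const 1)).add
        (PB.const 1))).add (PB.const 1)
  · intro a ha
    choose! g hg using fun i (hi : i < n a) => (h4 (a, i)).1 (ha i hi)
    refine ⟨(List.range (n a)).map g, ?_, ?_⟩
    · have h5 := sz_list_le ((List.range (n a)).map g)
        (4 * (sz a + (2 * n a + 1) + 1 + 2) ^ k + 1) (fun c hc => by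
          obtain ⟨i, hi, rfl⟩ := List.mem_map.1 hc
          have hi' := List.mem_range.1 hi
          have h6 := sz_bits (g i)
          have h7 := h3 _ _ (hg i hi')
          have h8 : B (a, i) ≤ (sz a + (2 * n a + 1) + 1 + 2) ^ k := by
            refine (hk _).trans (Nat.pow_le_pow_left ?_ _)
            rw [sz_pair, sz_nat]
            omega
          omega)
      rw [List.length_map, List.length_range] at h5
      exact h5
    · simp only [List.all_eq_true, List.mem_range]
      intro i hi
      have : ((List.range (n a)).map g).getD i [] = g i := by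
        rw [List.getD_eq_getElem?_getD, List.getElem?_map, List.getElem?_range hi]
        rfl
      rw [this]
      exact hg i hi
  · intro a c hc i hi
    simp only [List.all_eq_true, List.mem_range] at hc
    exact (h4 (a, i)).2 ⟨_, hc i hi⟩

/-! ### Labellings -/

section lab

variable (U V : List Bool × List Bool → Prop)

/-- `b` is a possible labelling of the instances `Is`. -/
def Lab (al : List Bool) (Is : List (List Bool)) (b : List Bool) : Prop :=
  b.length = Is.length ∧ ∀ i < Is.length,
    (b.getD i false = true ∧ V (al, Is.getD i [])) ∨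
      (b.getD i false = false ∧ U (al, Is.getD i []))

/-- Some labelling codes a string `a` with `S (a, x)`. -/
def SS (S : List Bool × List Bool → Prop) (t : List Bool × (List (List Bool) × List Bool)) :
    Prop :=
  ∃ b : List Bool, b.length ≤ t.2.1.length ∧ (Lab U V t.1 t.2.1 b ∧ S ((dec2 b).1, t.2.2))

variable {U V}

theorem npd_SS (hU : NPd U) (hV : NPd V) {S : List Bool × List Bool → Prop} (hS : NPd S) :
    NPd (SS U V S) := by
  refine NPd.ex (P := fun (t : List Bool × (List (List Bool) × List Bool)) (b : List Bool) =>
    (Lab U V t.1 t.2.1 b ∧ S ((dec2 b).1, t.2.2))) (NPd.and (NPd.and ?_ ?_) ?_)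
    (B₀ := fun t => t.2.1.length) (by fun_prop)
  · exact NPd.of_dec (P := fun p : (List Bool × (List (List Bool) × List Bool)) × List Bool =>
      p.2.length = p.1.2.1.length) (by fun_prop)
  · refine NPd.forall_lt (Q := fun (p : (List Bool × (List (List Bool) × List Bool)) × List Bool)
      (i : ℕ) => (p.2.getD i false = true ∧ V (p.1.1, p.1.2.1.getD i [])) ∨
      (p.2.getD i false = false ∧ U (p.1.1, p.1.2.1.getD i [])))
      (NPd.or (NPd.and ?_ ?_) (NPd.and ?_ ?_)) (n := fun p => p.1.2.1.length) (by fun_prop)
    · exact NPd.of_dec (P := fun r : ((List Bool × (List (List Bool) × List Bool)) × List Bool)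
        × ℕ => r.1.2.getD r.2 false = true) (by fun_prop)
    · exact hV.comp (f := fun r : ((List Bool × (List (List Bool) × List Bool)) × List Bool)
        × ℕ => (r.1.1.1, r.1.1.2.1.getD r.2 [])) (by fun_prop)
    · exact NPd.of_dec (P := fun r : ((List Bool × (List (List Bool) × List Bool)) × List Bool)
        × ℕ => r.1.2.getD r.2 false = false) (by fun_prop)
    · exact hU.comp (f := fun r : ((List Bool × (List (List Bool) × List Bool)) × List Bool)
        × ℕ => (r.1.1.1, r.1.1.2.1.getD r.2 [])) (by fun_prop)
  · exact hS.comp (f := fun p : (List Bool × (List (List Bool) × List Bool)) × List Bool =>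
      ((dec2 p.2).1, p.1.2.2)) (by fun_prop)

theorem SS_total (hUV : ∀ q, U q ∨ V q) (t : List Bool × (List (List Bool) × List Bool)) :
    SS U V U t ∨ SS U V V t := by
  classical
  obtain ⟨al, Is, x⟩ := t
  set b : List Bool := Is.map (fun s => decide (V (al, s))) with hb
  have hbl : b.length = Is.length := by rw [hb, List.length_map]
  have hlab : Lab U V al Is b := by
    refine ⟨hbl, fun i hi => ?_⟩
    have e1 : b.getD i false = decide (V (al, Is.getD i [])) := by
      rw [hb, List.getD_eq_getElem?_getD, List.getElem?_map, List.getD_eq_getElem?_getD,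
        List.getElem?_eq_getElem hi]
      rfl
    rw [e1]
    by_cases h : V (al, Is.getD i [])
    · left; exact ⟨by simp only [decide_eq_true_eq]; exact h, h⟩
    · right; exact ⟨by simp only [decide_eq_false_iff_not]; exact h, (hUV _).resolve_right h⟩
  rcases hUV ((dec2 b).1, x) with h | h
  · exact Or.inl ⟨b, hbl.le, hlab, h⟩
  · exact Or.inr ⟨b, hbl.le, hlab, h⟩

/-- If the advice is correct, then the labelling is forced. -/
theorem SS_forced {S : List Bool × List Bool → Prop} {al : List Bool} {Is : List (List Bool)}
    {x a : List Bool} (e : List Bool → Bool) (h0 : ∀ s ∈ Is, U (al, s) → e s = false)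
    (h1 : ∀ s ∈ Is, V (al, s) → e s = true) (hl : (dl a).length ≤ Is.length)
    (he : ∀ i < Is.length, e (Is.getD i []) = (dl a).getD i false)
    (hS : SS U V S (al, (Is, x))) : S (a, x) := by
  obtain ⟨b, _, ⟨hbl, hb⟩, hb2⟩ := hS
  dsimp only at hbl hb hb2
  have hg : ∀ i < Is.length, b.getD i false = (dl a).getD i false := by
    intro i hi
    have hmem : Is.getD i [] ∈ Is := by
      rw [List.getD_eq_getElem?_getD, List.getElem?_eq_getElem hi]
      exact List.getElem_mem hi
    rw [← he i hi]
    rcases hb i hi with ⟨h2, h3⟩ | ⟨h2, h3⟩
    · rw [h2, h1 _ hmem h3]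
    · rw [h2, h0 _ hmem h3]
  have e1 : b = dl a ++ List.replicate (Is.length - (dl a).length) false := by
    apply List.ext_getElem
    · rw [List.length_append, List.length_replicate]; omega
    · intro i hi1 hi2
      have h4 := hg i (by omega)
      rw [List.getD_eq_getElem?_getD, List.getElem?_eq_getElem hi1, Option.getD_some] at h4
      rw [h4, List.getD_eq_getElem?_getD]
      by_cases hc : i < (dl a).length
      · rw [List.getElem?_eq_getElem hc, Option.getD_some, List.getElem_append_left hc]
      · rw [List.getElem?_eq_none (by omega), Option.getD_none,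
          List.getElem_append_right (by omega), List.getElem_replicate]
  rw [e1, dec2_dl] at hb2
  exact hb2

end lab

/-! ### Lists of instances -/

/-- `m ^ c` different strings of length `c * m`. -/
def digs : ℕ → ℕ → List (List Bool)
  | 0, _ => [[]]
  | c + 1, m => (List.range m).flatMap (fun z => (digs c m).map (fun s =>
      List.replicate z true ++ (List.replicate (m - z) false ++ s)))

theorem length_digs (c m : ℕ) : (digs c m).length = m ^ c := by
  induction c with
  | zero => rfl
  | succ c ih =>
    rw [digs, List.length_flatMap]
    simp only [List.length_map, ih]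
    rw [List.map_const', List.length_range, List.sum_replicate, pow_succ, smul_eq_mul,
      Nat.mul_comm]

theorem length_of_mem_digs {c m : ℕ} {s : List Bool} (h : s ∈ digs c m) :
    s.length = c * m := by
  induction c generalizing s with
  | zero =>
    rw [digs, List.mem_singleton] at h
    rw [h]; simp
  | succ c ih =>
    rw [digs, List.mem_flatMap] at h
    obtain ⟨z, hz, h⟩ := h
    obtain ⟨s', hs', rfl⟩ := List.mem_map.1 h
    have hz' := List.mem_range.1 hz
    rw [List.length_append, List.length_append, List.length_replicate, List.length_replicate,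
      ih hs', Nat.succ_mul]
    omega

theorem nodup_digs (c m : ℕ) : (digs c m).Nodup := by
  induction c with
  | zero => exact List.nodup_singleton _
  | succ c ih =>
    rw [digs, List.nodup_flatMap]
    constructor
    · intro z _
      refine ih.map (fun s s' h => ?_)
      exact List.append_cancel_left (List.append_cancel_left h)
    · refine List.Nodup.pairwise_of_forall_ne List.nodup_range (fun z hz z' hz' hne => ?_)
      have hz1 := List.mem_range.1 hz
      have hz1' := List.mem_range.1 hz'
      show List.Disjoint _ _
      intro x hx hx'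
      obtain ⟨s, _, rfl⟩ := List.mem_map.1 hx
      obtain ⟨s', _, h⟩ := List.mem_map.1 hx'
      rw [← List.append_assoc, ← List.append_assoc] at h
      have h2 := (List.append_inj h (by
        simp only [List.length_append, List.length_replicate]; omega)).1
      have h3 := congrArg (List.count true) h2
      simp only [List.count_append, List.count_replicate_self, List.count_replicate] at h3
      simp at h3
      exact hne h3.symm

@[fun_prop]
theorem ptf_digs (c : ℕ) {α : Type} [Enc α] {m : α → ℕ} (hm : PTF m) :
    PTF (fun a => digs c (m a)) := by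
  induction c with
  | zero => exact PTF.const _
  | succ c ih =>
    have h1 : PTF (fun p : α × ℕ => (digs c (m p.1)).map (fun s =>
        List.replicate p.2 true ++ (List.replicate (m p.1 - p.2) false ++ s))) := by
      have h2 : PTF (fun p : α × ℕ => digs c (m p.1)) := ih.comp PTF.fst
      have h3 : PTF (fun p : α × ℕ => m p.1) := hm.comp PTF.fst
      refine PTF.map (g := fun q : (α × ℕ) × List Bool => List.replicate q.1.2 true ++
        (List.replicate (m q.1.1 - q.1.2) false ++ q.2)) h2 ?_
      have h4 : PTF (fun q : (α × ℕ) × List Bool => m q.1.1) := h3.comp PTF.fst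
      fun_prop
    exact PTF.flatMap (g := fun p : α × ℕ => (digs c (m p.1)).map (fun s =>
        List.replicate p.2 true ++ (List.replicate (m p.1 - p.2) false ++ s))) hm.range h1

/-- The list of instances. -/
def insts (c m : ℕ) (be : List Bool) : List (List Bool) :=
  (digs c m).map (fun s => dl (List.replicate m true) ++ (dl be ++ s))

theorem length_insts (c m : ℕ) (be : List Bool) : (insts c m be).length = m ^ c := by
  rw [insts, List.length_map, length_digs]

theorem length_of_mem_insts {c m : ℕ} {be s : List Bool} (h : s ∈ insts c m be) :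
    s.length = (c + 2) * m + 2 * be.length + 2 := by
  obtain ⟨s', hs', rfl⟩ := List.mem_map.1 h
  rw [List.length_append, List.length_append, dl, dl, N487b59b3.length_delimit,
    N487b59b3.length_delimit, List.length_replicate, length_of_mem_digs hs', Nat.add_mul]
  omega

theorem dec_of_mem_insts {c m : ℕ} {be s : List Bool} (h : s ∈ insts c m be) :
    (dec2 s).1.length = m ∧ (dec2 (dec2 s).2).1 = be := by
  obtain ⟨s', hs', rfl⟩ := List.mem_map.1 h
  rw [dec2_dl]
  dsimp only
  rw [dec2_dl, List.length_replicate]
  exact ⟨rfl, rfl⟩

theorem nodup_insts (c m : ℕ) (be : List Bool) : (insts c m be).Nodup := by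
  refine (nodup_digs c m).map (fun s s' h => ?_)
  exact List.append_cancel_left (List.append_cancel_left h)

@[fun_prop]
theorem ptf_insts (c : ℕ) {α : Type} [Enc α] {m : α → ℕ} {be : α → List Bool} (hm : PTF m)
    (hb : PTF be) : PTF (fun a => insts c (m a) (be a)) := by
  refine PTF.map (g := fun q : α × List Bool => dl (List.replicate (m q.1) true) ++
    (dl (be q.1) ++ q.2)) (ptf_digs c hm) ?_
  have h1 : PTF (fun q : α × List Bool => m q.1) := hm.comp PTF.fst
  have h2 : PTF (fun q : α × List Bool => be q.1) := hb.comp PTF.fst
  fun_prop

theorem sz_insts (c m : ℕ) (be : List Bool) :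
    sz (insts c m be) ≤ m ^ c * (4 * ((c + 2) * m + 2 * be.length + 2) + 2) + 1 := by
  have h := sz_list_le (insts c m be) (4 * ((c + 2) * m + 2 * be.length + 2) + 1) (fun s hs => by
    have := sz_bits s
    rw [length_of_mem_insts hs] at this
    exact this)
  rw [length_insts] at h
  exact h

end Pool.Agent.Work.MP_46935e_lc
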