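import Pool.Agent.Work.MP_46935e_lc.RobustUniv

/-!
# From polynomial-time oracle algorithms to programs of the universal algorithm
-/

set_option autoImplicit false

namespace Pool.Agent.Work.MP_46935e_lc

open Pool.Agent.PT Turing Function N68a2faeb N08b01508

theorem exists_pow_bound (P : Polynomial ℕ) : ∃ k : ℕ, ∀ n : ℕ, P.eval n ≤ n ^ k + k := by
  obtain ⟨j, c, hc⟩ : ∃ j c : ℕ, ∀ n, P.eval n ≤ c * (n ^ j + 1) := by
    induction P using Polynomial.induction_on' with
    | add p q hp hq =>
      obtain ⟨k, c, h⟩ := hp
      obtain ⟨k', c', h'⟩ := hq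
      refine ⟨max k k', 2 * (c + c'), fun n => ?_⟩
      rw [Polynomial.eval_add]
      have key : ∀ j ≤ max k k', n ^ j + 1 ≤ 2 * (n ^ max k k' + 1) := by
        intro j hj
        rcases Nat.eq_zero_or_pos n with rfl | hn
        · have : (0 : ℕ) ^ j ≤ 1 := by cases j <;> simp
          have h0 : 0 ≤ (0 : ℕ) ^ max k k' := Nat.zero_le _
          generalize (0 : ℕ) ^ max k k' = z at h0 ⊢
          omega
        · have := Nat.pow_le_pow_right hn hj
          omega
      have h1 := (h n).trans (Nat.mul_le_mul_left c (key k (le_max_left _ _)))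
      have h2 := (h' n).trans (Nat.mul_le_mul_left c' (key k' (le_max_right _ _)))
      nlinarith
    | monomial k c =>
      refine ⟨k, c, fun n => ?_⟩
      rw [Polynomial.eval_monomial]
      exact Nat.mul_le_mul_left _ (Nat.le_succ _)
  refine ⟨2 * c + j + 1, fun n => (hc n).trans ?_⟩
  rcases Nat.lt_or_ge n 2 with hn | hn
  · have : n ^ j ≤ 1 := by
      have : n = 0 ∨ n = 1 := by omega
      rcases this with rfl | rfl
      · cases j <;> simp
      · simp
    have h1 : c * (n ^ j + 1) ≤ c * 2 := Nat.mul_le_mul_left _ (by omega)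
    have h2 : 0 ≤ n ^ (2 * c + j + 1) := Nat.zero_le _
    generalize n ^ (2 * c + j + 1) = z at h2 ⊢
    omega
  · have h1 : c ≤ n ^ c := (Nat.lt_two_pow_self).le.trans (Nat.pow_le_pow_left hn c)
    have h2 : c * n ^ j ≤ n ^ (2 * c + j + 1) := by
      calc c * n ^ j ≤ n ^ c * n ^ j := Nat.mul_le_mul_right _ h1
        _ = n ^ (c + j) := (pow_add _ _ _).symm
        _ ≤ n ^ (2 * c + j + 1) := Nat.pow_le_pow_right (by omega) (by omega)
    rw [Nat.mul_add, Nat.mul_one]
    omega

theorem ptf_of_isPolyTime_fun2 {f : List Bool × List Bool → List Bool}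
    (h : IsPolyTime f) : PTF f :=
  ptf_of_tm2 h ptf_encP (ptf_unB PTF.id) (fun b => by
    show unB (N487b59b3.bitEncode b) = b
    rw [bitEncode_list, unB_encB])

theorem isPolyTime_of_ptf_fun2 {f : List Bool × List Bool → List Bool} (h : PTF f) :
    IsPolyTime f :=
  tm2_of_ptf h ptf_decP decP_enc ptf_encL

theorem isPolyTime_of_ptf_fun {f : List Bool → List Bool} (h : PTF f) : IsPolyTime f :=
  tm2_of_ptf (d := unB) h (ptf_unB PTF.id) (fun a => by
    show unB (N487b59b3.bitEncode a) = a
    rw [bitEncode_list, unB_encB]) ptf_encL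

/-- The answers in a transcript. -/
def hist (h : Tr) : List Bool := h.flatMap (fun e => dl e.2)

theorem hist_append (h h' : Tr) : hist (h ++ h') = hist h ++ hist h' := by
  simp [hist]

@[fun_prop]
theorem ptf_hist {α : Type} [Enc α] {f : α → Tr} (hf : PTF f) : PTF (fun a => hist (f a)) := by
  unfold hist
  fun_prop

theorem answers_mono {next : List Bool × List Bool → List Bool} {g : List Bool → List Bool}
    {x : List Bool} {i j : ℕ} (h : i ≤ j) :
    (answers next g x i).length ≤ (answers next g x j).length := by
  induction j, h using Nat.le_induction with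
  | base => exact le_rfl
  | succ j _ ih =>
    rw [answers, List.length_append]
    omega

theorem length_le_hist (h : Tr) : ∀ e ∈ h, e.2.length ≤ (hist h).length := by
  induction h with
  | nil => intro e he; cases he
  | cons e h ih =>
    intro e' he'
    have h1 : hist (e :: h) = dl e.2 ++ hist h := rfl
    rw [h1, List.length_append, dl, N487b59b3.length_delimit]
    rcases List.mem_cons.1 he' with rfl | h2
    · omega
    · have := ih e' h2
      omega

/-- The algorithm given by `next`, `out` and a number of rounds, as an action on transcripts. -/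
def actOf (next : List Bool × List Bool → List Bool) (out : List Bool × List Bool → List Bool)
    (r : List Bool → ℕ) (q : List Bool × Tr) : List Bool :=
  if q.2.length < r q.1 then true :: next (q.1, hist q.2) else false :: out (q.1, hist q.2)

theorem ptf_actOf {next out : List Bool × List Bool → List Bool} {r : List Bool → ℕ}
    (hn : PTF next) (ho : PTF out) (hr : PTF r) : PTF (actOf next out r) := by
  unfold actOf
  have h1 : PTF (fun q : List Bool × Tr => (q.1, hist q.2)) := by fun_prop
  exact PTF.ite ((PTF.length PTF.snd).lt (hr.comp PTF.fst)) (PTF.cons (PTF.const true) (hn.comp h1))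
    (PTF.cons (PTF.const false) (ho.comp h1))

section

variable {next out : List Bool × List Bool → List Bool} {r : List Bool → ℕ}
  {g : List Bool → List Bool} {x : List Bool}

theorem irun_actOf (i : ℕ) (hi : i ≤ r x) :
    (irun (fun h => actOf next out r (x, h)) g i).length = i ∧
      hist (irun (fun h => actOf next out r (x, h)) g i) = answers next g x i ∧
      ∀ e ∈ irun (fun h => actOf next out r (x, h)) g i, ∃ j < i,
        e.1 = next (x, answers next g x j) := by
  induction i with
  | zero => exact ⟨rfl, rfl, fun e he => by cases he⟩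
  | succ i ih =>
    obtain ⟨h1, h2, h3⟩ := ih (by omega)
    have h4 : actOf next out r (x, irun (fun h => actOf next out r (x, h)) g i) =
        true :: next (x, answers next g x i) := by
      unfold actOf at h1 h2 ⊢
      dsimp only at h1 h2 ⊢
      rw [if_pos (by rw [h1]; omega), h2]
    refine ⟨?_, ?_, fun e he => ?_⟩
    · rw [irun, List.length_append, h1]
      rfl
    · rw [irun, hist_append, h2, answers, h4]
      simp [hist]
    · rw [irun] at he
      rcases List.mem_append.1 he with h5 | h5
      · obtain ⟨j, hj, e1⟩ := h3 e h5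
        exact ⟨j, by omega, e1⟩
      · rw [List.mem_singleton] at h5
        refine ⟨i, by omega, ?_⟩
        rw [h5, h4]
        rfl

theorem halts_actOf : Halts (fun h => actOf next out r (x, h)) g (r x)
    (out (x, answers next g x (r x))) := by
  constructor
  · intro i hi
    obtain ⟨h1, h2, h3⟩ := irun_actOf (next := next) (out := out) (r := r) (g := g) (x := x) i hi.le
    dsimp only
    unfold actOf at h1 h2 ⊢
    dsimp only at h1 h2 ⊢
    rw [if_pos (by rw [h1]; omega)]
    rfl
  · obtain ⟨h1, h2, h3⟩ := irun_actOf (next := next) (out := out) (r := r) (g := g) (x := x)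
      (r x) le_rfl
    dsimp only
    unfold actOf at h1 h2 ⊢
    dsimp only at h1 h2 ⊢
    rw [if_neg (by rw [h1]; omega), h2]

end

/-- **Compilation of oracle algorithms.** -/
theorem compile_oracle {next out : List Bool × List Bool → List Bool} (hnext : PTF next)
    (hout : PTF out) (p q : Polynomial ℕ) : ∃ (t : List ℕ) (k : ℕ),
    ∀ (g : List Bool → List Bool) (x : List Bool),
      (answers next g x (p.eval x.length)).length ≤ q.eval x.length →
      fin (act t x (x.length ^ k + k)) (x.length ^ k + k) g =
        false :: out (x, answers next g x (p.eval x.length)) := by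
  have hr : PTF (fun x : List Bool => p.eval x.length) := ptf_eval p PTF.id.length
  obtain ⟨t, k₀, hk⟩ := compile_run (ptf_actOf hnext hout hr)
  obtain ⟨kn, hkn⟩ := hnext.size
  set E : Polynomial ℕ := (4 * Polynomial.X + 4 * q + 5) ^ kn + (4 * q + 1) + 1 with hE
  set P : Polynomial ℕ := p + (4 * Polynomial.X + 1 + (p * (E + 1) + 1) + 3) ^ k₀ with hP
  obtain ⟨k, hPk⟩ := exists_pow_bound P
  refine ⟨t, k, fun g x hx => ?_⟩
  have hN := hPk x.length
  rw [hP, Polynomial.eval_add] at hN
  refine hk x g (p.eval x.length) _ _ halts_actOf (by omega) (fun i hi => ?_)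
  have key : sz x + sz (irun (fun h => actOf next out (fun x : List Bool => p.eval x.length)
      (x, h)) g i) + 3 ≤
      4 * x.length + 1 + (p.eval x.length * (E.eval x.length + 1) + 1) + 3 := by
    obtain ⟨h1, h2, h3⟩ := irun_actOf (next := next) (out := out)
      (r := fun x : List Bool => p.eval x.length) (g := g) (x := x) i hi
    have hlen : ∀ j, j ≤ i → (answers next g x j).length ≤ q.eval x.length := fun j hj =>
      (answers_mono (hj.trans hi)).trans hx
    have h4 : ∀ e ∈ irun (fun h => actOf next out (fun x : List Bool => p.eval x.length) (x, h)) g i,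
        sz e ≤ E.eval x.length := by
      intro e he
      obtain ⟨j, hj, hej⟩ := h3 e he
      have h5 := length_le_hist _ e he
      rw [h2] at h5
      have h6 := hlen i le_rfl
      have h7 := hlen j hj.le
      have h8 := hkn (x, answers next g x j)
      beta_reduce at h8
      rw [← hej] at h8
      have h9 : (sz (x, answers next g x j) + 2) ^ kn ≤
          (4 * x.length + 4 * q.eval x.length + 5) ^ kn := by
        refine Nat.pow_le_pow_left ?_ _
        rw [sz_pair]
        have := sz_bits x
        have := sz_bits (answers next g x j)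
        omega
      obtain ⟨e1, e2⟩ := e
      dsimp only at h5 h8
      have h10 := sz_bits e2
      rw [sz_pair, hE]
      simp only [Polynomial.eval_add, Polynomial.eval_mul, Polynomial.eval_pow, Polynomial.eval_X,
        Polynomial.eval_one, Polynomial.eval_ofNat]
      omega
    have h5 := sz_list_le _ _ h4
    rw [h1] at h5
    have h6 : i * (E.eval x.length + 1) ≤ p.eval x.length * (E.eval x.length + 1) :=
      Nat.mul_le_mul_right _ hi
    have h7 := sz_bits x
    omega
  have h8 := Nat.pow_le_pow_left key k₀
  have h9 : (4 * x.length + 1 + (p.eval x.length * (E.eval x.length + 1) + 1) + 3) ^ k₀ =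
      ((4 * Polynomial.X + 1 + (p * (E + 1) + 1) + 3) ^ k₀ : Polynomial ℕ).eval x.length := by
    simp only [Polynomial.eval_add, Polynomial.eval_mul, Polynomial.eval_pow, Polynomial.eval_X,
      Polynomial.eval_one, Polynomial.eval_ofNat]
  rw [h9] at h8
  omega

theorem compile_polyTimeIn {g : List Bool → List Bool} {L : DecisionProblem}
    (h : PolyTimeIn g L) : ∃ (t : List ℕ) (k : ℕ), ∀ x : List Bool,
      fin (act t x (x.length ^ k + k)) (x.length ^ k + k) g = [false, L x] := by
  obtain ⟨next, out, p, q, h1, h2, h3⟩ := h
  have hout : PTF (fun z : List Bool × List Bool => [out z]) :=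
    PTF.cons (ptf_of_isPolyTime h2) (PTF.const [])
  obtain ⟨t, k, hk⟩ := compile_oracle (ptf_of_isPolyTime_fun2 h1) hout p q
  exact ⟨t, k, fun x => by rw [hk g x (h3 x).1, ← (h3 x).2]⟩

end Pool.Agent.Work.MP_46935e_lc
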