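import Mathlib
import Pool.Prelude.Def_F_c21d359f

/-!
# Definitions used in the statement of the robustness theorem

The classes `coNP`, `IsDisjointCoNPPair` and `IsCompleteCoNPPair` are the ones of the frozen
statements; `DecisionProblem` is `List Bool → Bool`.
-/

set_option autoImplicit false

namespace Pool.Agent.Work.MP_46935e_lc

open N68a2faeb N08b01508

/-- `S` separates the pair `(C, D)`: it contains `C` and is disjoint from `D`. -/
def Separates (S C D : DecisionProblem) : Prop :=
  (∀ x, C x = true → S x = true) ∧ ∀ x, D x = true → S x = false

/-- The (delimited, concatenated) answers of the oracle `g` received in the first `i` rounds by the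
oracle algorithm which computes its next query from the input `x` and the answers received so far. -/
def answers (next : List Bool × List Bool → List Bool) (g : List Bool → List Bool)
    (x : List Bool) : ℕ → List Bool
  | 0 => []
  | i + 1 => answers next g x i ++ N487b59b3.delimit (g (next (x, answers next g x i)))

/-- `L` is in `P^g`, for a function oracle `g`: an oracle algorithm (`next` computes the next query,
`out` computes the result; both are polynomial-time functions of the input and of the answers
received so far) asks a polynomial number `p(|x|)` of queries, the total length of the answers is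
polynomially bounded, and the result is `L x`. -/
def PolyTimeIn (g : List Bool → List Bool) (L : DecisionProblem) : Prop :=
  ∃ (next : List Bool × List Bool → List Bool) (out : List Bool × List Bool → Bool)
    (p q : Polynomial ℕ), IsPolyTime next ∧ IsPolyTime out ∧ ∀ x : List Bool,
      (answers next g x (p.eval x.length)).length ≤ q.eval x.length ∧
      L x = out (x, answers next g x (p.eval x.length))

/-- `L` is in `P^S`, for a language `S`. -/
def PolyTimeInSet (S L : DecisionProblem) : Prop := PolyTimeIn (fun z => [S z]) L

/-- A total NP search problem (an element of `TFNP`): a polynomial-time relation `R` such that every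
`x` has a solution `y` of length at most `p(|x|)` with `R(x, y)`. -/
structure IsTotalNP (R : List Bool × List Bool → Bool) (p : Polynomial ℕ) : Prop where
  poly : IsPolyTime R
  total : ∀ x : List Bool, ∃ y : List Bool, y.length ≤ p.eval x.length ∧ R (x, y) = true

/-- `g` is a solution function of the search problem `(R, p)`. -/
def Solves (g : List Bool → List Bool) (R : List Bool × List Bool → Bool) (p : Polynomial ℕ) :
    Prop :=
  ∀ x : List Bool, (g x).length ≤ p.eval x.length ∧ R (x, g x) = true

/-- The space of all solution functions of a search problem. -/
def SolSpace (R : List Bool × List Bool → Bool) (p : Polynomial ℕ) : Type :=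
  {g : List Bool → List Bool // Solves g R p}

/-- Topology of pointwise convergence (a basic open set fixes the solutions of finitely many
strings). -/
instance (R : List Bool × List Bool → Bool) (p : Polynomial ℕ) : TopologicalSpace (SolSpace R p) :=
  TopologicalSpace.induced Subtype.val
    (@Pi.topologicalSpace (List Bool) (fun _ => List Bool) (fun _ => ⊥))

/-- The space of all separators of a pair, with the topology of pointwise convergence. -/
abbrev SepSpace (A B : DecisionProblem) : Type := {S : List Bool → Bool // Separates S A B}

/-- The string `x`, with the string `u` as a prefix and padded with `|x|^k + k` ones. -/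
def padded (u : List Bool) (k : ℕ) (x : List Bool) : List Bool :=
  N487b59b3.delimit u ++ (N487b59b3.delimit x ++ List.replicate (x.length ^ k + k) true)

/-- A uniformly coNP sequence of pairwise disjoint sets: membership of `x` in `A i` is a coNP
property of `(i, x)` with `i` in unary; `x ∈ A i` is only possible for `i ≤ p(|x|)`, and for at
most one `i`. -/
structure IsDisjointCoNPSeq (A : ℕ → DecisionProblem) : Prop where
  mem : ∃ L ∈ coNP, ∀ i x, A i x = L (N487b59b3.delimit (List.replicate i true) ++ x)
  bound : ∃ p : Polynomial ℕ, ∀ i x, A i x = true → i ≤ p.eval x.length
  disjoint : ∀ i j x, A i x = true → A j x = true → i = j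

/-- Complete uniformly coNP sequences of pairwise disjoint sets. -/
def IsCompleteCoNPSeq (A : ℕ → DecisionProblem) : Prop :=
  IsDisjointCoNPSeq A ∧ ∀ C, IsDisjointCoNPSeq C →
    ∃ f : List Bool → List Bool, IsPolyTime f ∧ ∀ i x, C i x = true → A i (f x) = true

/-- A `k`-tuple of pairwise disjoint coNP sets. -/
structure IsDisjointCoNPTuple {k : ℕ} (A : Fin k → DecisionProblem) : Prop where
  mem : ∀ i, A i ∈ coNP
  disjoint : ∀ i j x, A i x = true → A j x = true → i = j

/-- Complete `k`-tuples of pairwise disjoint coNP sets. -/
def IsCompleteCoNPTuple {k : ℕ} (A : Fin k → DecisionProblem) : Prop :=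
  IsDisjointCoNPTuple A ∧ ∀ C : Fin k → DecisionProblem, IsDisjointCoNPTuple C →
    ∃ f : List Bool → List Bool, IsPolyTime f ∧ ∀ i x, C i x = true → A i (f x) = true

end Pool.Agent.Work.MP_46935e_lc
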