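import Pool.Agent.Work.MP_46935e_lc.RobustTop

/-!
# The search problem of a pair; implications between the notions of hardness
-/

set_option autoImplicit false

namespace Pool.Agent.Work.MP_46935e_lc

open Pool.Agent.PT Turing Function N68a2faeb N08b01508

/-! ### Normal form -/

section normal

variable {R : List Bool × List Bool → Bool} {p : Polynomial ℕ} {π : List Bool → List Bool}
  {C D : DecisionProblem}

theorem insOf_padded (t : List ℕ) (σ : Tr) (k : ℕ) (x : List Bool) :
    insOf (padded (ser (t, σ)) k x) = ((t, σ), (x, x.length ^ k + k)) :=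
  insOf_enc t σ x _

theorem normal (t : List ℕ) (k : ℕ) (σ : Tr)
    (h : ∀ g, Solves g R p → Good C D t k (fun z => π (ovr σ g z))) (x : List Bool) :
    (C x = true → Uset R p π [false, true] (padded (ser (t, σ)) k x) = true) ∧
      (D x = true → Uset R p π [false, false] (padded (ser (t, σ)) k x) = true) := by
  constructor
  · intro hx
    rw [Uset_iff]
    intro g hg
    rw [insOf_padded]
    obtain ⟨b, h1, h2, _⟩ := h g hg x
    rw [h2 hx] at h1
    exact h1
  · intro hx
    rw [Uset_iff]
    intro g hg
    rw [insOf_padded]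
    obtain ⟨b, h1, _, h2⟩ := h g hg x
    rw [h2 hx] at h1
    exact h1

theorem Uset_pair (hR : PTF R) (hπ : PTF π)
    (htot : ∀ x : List Bool, ∃ y : List Bool, y.length ≤ p.eval x.length ∧ R (x, y) = true) :
    IsDisjointCoNPPair (Uset R p π [false, true]) (Uset R p π [false, false]) := by
  refine ⟨Uset_mem hR hπ htot _, Uset_mem hR hπ htot _, ?_⟩
  rintro x ⟨h1, h2⟩
  have := Uset_unique htot h1 h2
  simp at this

end normal

theorem ptf_padded (u : List Bool) (k : ℕ) : PTF (padded u k) := by
  have h : PTF (fun x : List Bool => dl u ++ (dl x ++ List.replicate (x.length ^ k + k) true)) := by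
    fun_prop
  exact h

/-! ### The search problem of a pair -/

theorem eq_false_of_compl {A : DecisionProblem} {x : List Bool} : (Aᶜ) x = true ↔ A x = false := by
  show (!(A x)) = true ↔ A x = false
  simp

theorem exists_search {A B : DecisionProblem} (hAB : IsDisjointCoNPPair A B) :
    ∃ (R : List Bool × List Bool → Bool) (p : Polynomial ℕ), IsTotalNP R p ∧
      (∀ z y, R (z, y) = true → (y.headD false = true → B z = false) ∧
        (y.headD false = false → A z = false)) ∧
      (∀ z, B z = false → ∃ y : List Bool, y.length ≤ p.eval z.length ∧ R (z, y) = true ∧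
        y.headD false = true) ∧
      (∀ z, A z = false → ∃ y : List Bool, y.length ≤ p.eval z.length ∧ R (z, y) = true ∧
        y.headD false = false) := by
  obtain ⟨pA, RA, hRA, hA⟩ := hAB.memA
  obtain ⟨pB, RB, hRB, hB⟩ := hAB.memB
  have hA' := fun x => eq_false_of_compl.symm.trans (hA x)
  have hB' := fun x => eq_false_of_compl.symm.trans (hB x)
  have h1 := ptf_of_isPolyTime hRA
  have h2 := ptf_of_isPolyTime hRB
  set R : List Bool × List Bool → Bool := fun q =>
    if q.2.headD false = true then
      RB (q.1, q.2.tail) && decide (q.2.tail.length ≤ pB.eval q.1.length)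
    else !q.2.isEmpty && (RA (q.1, q.2.tail) && decide (q.2.tail.length ≤ pA.eval q.1.length))
    with hR
  have hptf : PTF R := by
    have e1 : PTF (fun q : List Bool × List Bool => (q.1, q.2.tail)) := by fun_prop
    have e2 : PTF (fun q : List Bool × List Bool => q.2.tail.length) := by fun_prop
    have e3 : ∀ p : Polynomial ℕ, PTF (fun q : List Bool × List Bool => p.eval q.1.length) :=
      fun p => ptf_eval p (by fun_prop)
    exact PTF.ite (p := fun q : List Bool × List Bool => q.2.headD false = true) (by fun_prop)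
      ((h2.comp e1).and (e2.le (e3 pB)))
      ((PTF.not (PTF.isEmpty PTF.snd)).and ((h1.comp e1).and (e2.le (e3 pA))))
  have hT : ∀ z, B z = false → ∃ y : List Bool, y.length ≤ (pA + pB + 1).eval z.length ∧
      R (z, y) = true ∧ y.headD false = true := by
    intro z hz
    obtain ⟨w, hw1, hw2⟩ := (hB' z).1 hz
    refine ⟨true :: w, ?_, ?_, rfl⟩
    · simp only [List.length_cons, Polynomial.eval_add, Polynomial.eval_one]
      omega
    · simp only [hR, List.headD_cons, if_true, List.tail_cons, hw2, Bool.true_and,
        decide_eq_true_eq]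
      exact hw1
  have hF : ∀ z, A z = false → ∃ y : List Bool, y.length ≤ (pA + pB + 1).eval z.length ∧
      R (z, y) = true ∧ y.headD false = false := by
    intro z hz
    obtain ⟨w, hw1, hw2⟩ := (hA' z).1 hz
    refine ⟨false :: w, ?_, ?_, rfl⟩
    · simp only [List.length_cons, Polynomial.eval_add, Polynomial.eval_one]
      omega
    · simp only [hR, List.headD_cons, Bool.false_eq_true, if_false, List.tail_cons, hw2,
        Bool.true_and, decide_eq_true_eq, List.isEmpty_cons, Bool.not_false]
      exact hw1
  refine ⟨R, pA + pB + 1, ⟨isPolyTime_of_ptf hptf, fun z => ?_⟩, fun z y hy => ⟨fun h => ?_,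
    fun h => ?_⟩, hT, hF⟩
  · have hd := hAB.disjoint z
    by_cases hBz : B z = false
    · obtain ⟨y, h3, h4, _⟩ := hT z hBz
      exact ⟨y, h3, h4⟩
    · have hAz : A z = false := by
        by_contra hc
        exact hd ⟨by simpa using hc, by simpa using hBz⟩
      obtain ⟨y, h3, h4, _⟩ := hF z hAz
      exact ⟨y, h3, h4⟩
  · rw [hR] at hy
    dsimp only at hy
    rw [if_pos h] at hy
    simp only [Bool.and_eq_true, decide_eq_true_eq] at hy
    exact (hB' z).2 ⟨_, hy.2, hy.1⟩
  · rw [hR] at hy
    dsimp only at hy
    rw [if_neg (by rw [h]; simp)] at hy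
    simp only [Bool.and_eq_true, decide_eq_true_eq] at hy
    exact (hA' z).2 ⟨_, hy.2.2, hy.2.1⟩

/-! ### The implications -/

/-- Statement: normal form. -/
def NormalComplete (A B : DecisionProblem) : Prop :=
  IsDisjointCoNPPair A B ∧ ∀ C D, IsDisjointCoNPPair C D → ∃ (u : List Bool) (k : ℕ), ∀ x,
    (C x = true → A (padded u k x) = true) ∧ (D x = true → B (padded u k x) = true)

theorem complete_of_normal {A B : DecisionProblem} (h : NormalComplete A B) :
    IsCompleteCoNPPair A B := by
  refine ⟨h.1, fun C D hCD => ?_⟩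
  obtain ⟨u, k, hk⟩ := h.2 C D hCD
  exact ⟨padded u k, isPolyTime_of_ptf_fun (ptf_padded u k), fun x => (hk x).1, fun x => (hk x).2⟩

/-- Generic hardness of a search problem implies the existence of a complete pair. -/
theorem normal_of_generic_search {R : List Bool × List Bool → Bool} {p : Polynomial ℕ}
    (hR : IsTotalNP R p) (h : ∀ C D, IsDisjointCoNPPair C D →
      ¬ IsMeagre {a : SolSpace R p | ∃ L, Separates L C D ∧ PolyTimeIn a.1 L}) :
    ∃ A B, NormalComplete A B := by
  have hRp := ptf_of_isPolyTime hR.poly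
  refine ⟨Uset R p (fun y => y) [false, true], Uset R p (fun y => y) [false, false],
    Uset_pair hRp PTF.id hR.total, fun C D hCD => ?_⟩
  obtain ⟨t, k, U, hU, ⟨a, ha⟩, hgood⟩ := unif (o := fun a : SolSpace R p => a.1)
    sol_locallyConstant (h C D hCD)
  obtain ⟨K, hK⟩ := sol_open hU ha
  set σ : Tr := K.toList.map (fun z => (z, a.1 z)) with hσ
  have hσa : ∀ e ∈ σ, e.2 = a.1 e.1 := by
    intro e he
    obtain ⟨z, _, rfl⟩ := List.mem_map.1 he
    rfl
  refine ⟨ser (t, σ), k, fun x => normal t k σ (fun g hg => ?_) x⟩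
  have hs : Solves (ovr σ g) R p := by
    intro x
    rcases ovr_cases σ g x with ⟨e, he, hz, h4⟩ | ⟨_, h4⟩
    · rw [h4, hσa e he, hz]
      exact a.2 x
    · rw [h4]
      exact hg x
  refine hgood ⟨ovr σ g, hs⟩ (hK _ (fun z hz => ?_))
  show ovr σ g z = a.1 z
  have h5 : ∃ e ∈ σ, e.1 = z := ⟨(z, a.1 z), List.mem_map.2 ⟨z, by simpa using hz, rfl⟩, rfl⟩
  rw [ovr_mem h5 g a.1]
  exact ovr_table hσa z

/-- Generic hardness of a pair implies the existence of a complete pair. -/
theorem normal_of_generic_pair {A B : DecisionProblem} (hAB : IsDisjointCoNPPair A B)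
    (h : ∀ C D, IsDisjointCoNPPair C D →
      ¬ IsMeagre {S : SepSpace A B | ∃ L, Separates L C D ∧ PolyTimeInSet S.1 L}) :
    ∃ A B, NormalComplete A B := by
  obtain ⟨R, p, hR, hRy, hT, hF⟩ := exists_search hAB
  have hRp := ptf_of_isPolyTime hR.poly
  have hπ : PTF (fun y : List Bool => [y.headD false]) := by fun_prop
  refine ⟨Uset R p (fun y => [y.headD false]) [false, true],
    Uset R p (fun y => [y.headD false]) [false, false],
    Uset_pair hRp hπ hR.total, fun C D hCD => ?_⟩
  obtain ⟨t, k, U, hU, ⟨S₀, hS₀⟩, hgood⟩ := unif (o := fun (S : SepSpace A B) z => [S.1 z])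
    sep_locallyConstant (h C D hCD)
  obtain ⟨K, hK⟩ := sep_open hU hS₀
  have hy : ∀ z, ∃ y : List Bool, y.length ≤ p.eval z.length ∧ R (z, y) = true ∧
      y.headD false = S₀.1 z := by
    intro z
    cases hc : S₀.1 z with
    | true =>
      refine hT z ?_
      by_contra hB
      have := S₀.2.2 z (by simpa using hB)
      rw [hc] at this
      exact absurd this (by simp)
    | false =>
      refine hF z ?_
      by_contra hA
      have := S₀.2.1 z (by simpa using hA)
      rw [hc] at this
      exact absurd this (by simp)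
  choose y hy1 hy2 hy3 using hy
  set σ : Tr := K.toList.map (fun z => (z, y z)) with hσ
  have hσa : ∀ e ∈ σ, e.2 = y e.1 := by
    intro e he
    obtain ⟨z, _, rfl⟩ := List.mem_map.1 he
    rfl
  refine ⟨ser (t, σ), k, fun x => normal t k σ (fun g hg => ?_) x⟩
  have hs : Solves (ovr σ g) R p := by
    intro x
    rcases ovr_cases σ g x with ⟨e, he, hz, h4⟩ | ⟨_, h4⟩
    · rw [h4, hσa e he, hz]
      exact ⟨hy1 x, hy2 x⟩
    · rw [h4]
      exact hg x
  have hsep : Separates (fun z => (ovr σ g z).headD false) A B := by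
    constructor
    · intro z hz
      by_contra hc
      have := (hRy z _ (hs z).2).2 (by simpa using hc)
      rw [hz] at this
      exact absurd this (by simp)
    · intro z hz
      by_contra hc
      have := (hRy z _ (hs z).2).1 (by simpa using hc)
      rw [hz] at this
      exact absurd this (by simp)
  refine hgood ⟨_, hsep⟩ (hK _ (fun z hz => ?_))
  show (ovr σ g z).headD false = S₀.1 z
  have h5 : ∃ e ∈ σ, e.1 = z := ⟨(z, y z), List.mem_map.2 ⟨z, by simpa using hz, rfl⟩, rfl⟩
  rw [ovr_mem h5 g y, ovr_table hσa z, hy3]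

/-- Many-one reductions give oracle algorithms with one query. -/
theorem hard_of_complete {A B : DecisionProblem} (h : IsCompleteCoNPPair A B)
    {C D : DecisionProblem} (hCD : IsDisjointCoNPPair C D) {S : DecisionProblem}
    (hS : Separates S A B) : ∃ L, Separates L C D ∧ PolyTimeInSet S L := by
  obtain ⟨f, hf, h1, h2⟩ := h.2 C D hCD
  have hfp := ptf_of_isPolyTime_fun hf
  refine ⟨fun x => S (f x), ⟨fun x hx => hS.1 _ (h1 x hx), fun x hx => hS.2 _ (h2 x hx)⟩,
    fun q => f q.1, fun q => q.2.getD 1 false, 1, 3, ?_, ?_, fun x => ?_⟩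
  · exact isPolyTime_of_ptf_fun2 (hfp.comp PTF.fst)
  · refine isPolyTime_of_ptf ?_
    fun_prop
  · have e : answers (fun q => f q.1) (fun z => [S z]) x 1 = [true, S (f x), false] := rfl
    simp only [Polynomial.eval_one, Polynomial.eval_ofNat, e]
    exact ⟨by simp, rfl⟩

/-- A complete pair gives a search problem which is hard under many-one reductions. -/
theorem search_of_complete {A B : DecisionProblem} (h : IsCompleteCoNPPair A B) :
    ∃ (R : List Bool × List Bool → Bool) (p : Polynomial ℕ), IsTotalNP R p ∧
      ∀ C D, IsDisjointCoNPPair C D → ∃ (f : List Bool → List Bool)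
        (out : List Bool × List Bool → Bool), IsPolyTime f ∧ IsPolyTime out ∧
        ∀ x y : List Bool, y.length ≤ p.eval (f x).length → R (f x, y) = true →
          (out (x, y) = true → D x = false) ∧ (out (x, y) = false → C x = false) := by
  obtain ⟨R, p, hR, hRy, _, _⟩ := exists_search h.1
  refine ⟨R, p, hR, fun C D hCD => ?_⟩
  obtain ⟨f, hf, h1, h2⟩ := h.2 C D hCD
  refine ⟨f, fun q => q.2.headD false, hf, isPolyTime_of_ptf (by fun_prop),
    fun x y _ hy => ⟨fun hb => ?_, fun hb => ?_⟩⟩
  · have h3 := (hRy _ _ hy).1 hb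
    by_contra hc
    rw [h2 x (by simpa using hc)] at h3
    exact absurd h3 (by simp)
  · have h3 := (hRy _ _ hy).2 hb
    by_contra hc
    rw [h1 x (by simpa using hc)] at h3
    exact absurd h3 (by simp)

/-- Many-one hardness of a search problem implies Turing hardness. -/
theorem turing_of_search {R : List Bool × List Bool → Bool} {p : Polynomial ℕ}
    {C D : DecisionProblem} {f : List Bool → List Bool}
    {out : List Bool × List Bool → Bool} (hf : IsPolyTime f) (hout : IsPolyTime out)
    (h : ∀ x y : List Bool, y.length ≤ p.eval (f x).length → R (f x, y) = true →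
      (out (x, y) = true → D x = false) ∧ (out (x, y) = false → C x = false))
    {g : List Bool → List Bool} (hg : Solves g R p) :
    ∃ L, Separates L C D ∧ PolyTimeIn g L := by
  have hfp := ptf_of_isPolyTime_fun hf
  have hop := ptf_of_isPolyTime hout
  obtain ⟨r, hr⟩ := exists_poly_of_ptf hfp.length
  refine ⟨fun x => out (x, g (f x)), ⟨fun x hx => ?_, fun x hx => ?_⟩,
    fun q => f q.1, fun q => out (q.1, (dec2 q.2).1), 1, 2 * p.comp r + 1, ?_, ?_, fun x => ?_⟩
  · have h1 := (h x _ (hg (f x)).1 (hg (f x)).2).2
    by_contra hc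
    rw [hx] at h1
    exact absurd (h1 (by simpa using hc)) (by simp)
  · have h1 := (h x _ (hg (f x)).1 (hg (f x)).2).1
    by_contra hc
    rw [hx] at h1
    exact absurd (h1 (by simpa using hc)) (by simp)
  · exact isPolyTime_of_ptf_fun2 (hfp.comp PTF.fst)
  · refine isPolyTime_of_ptf (hop.comp ?_)
    fun_prop
  · have e : answers (fun q => f q.1) g x 1 = dl (g (f x)) ++ [] := by
      show [] ++ dl (g (f x)) = _
      simp
    simp only [Polynomial.eval_one, e, dec2_dl]
    refine ⟨?_, trivial⟩
    rw [List.append_nil, dl, N487b59b3.length_delimit]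
    simp only [Polynomial.eval_add, Polynomial.eval_mul, Polynomial.eval_comp,
      Polynomial.eval_ofNat, Polynomial.eval_one]
    have h1 := (hg (f x)).1
    have h2 := eval_mono p (hr x)
    omega

end Pool.Agent.Work.MP_46935e_lc
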