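import Pool.Agent.Work.MP_46935e_lc.RobustPair

/-!
# Complete sequences and tuples of pairwise disjoint coNP sets
-/

set_option autoImplicit false

namespace Pool.Agent.Work.MP_46935e_lc

open Pool.Agent.PT Turing Function N68a2faeb N08b01508

/-! ### The champion algorithm -/

/-- One step: the pair consists of the number of the round and the age of the current champion. -/
def cstep (s : ℕ × ℕ) (e : List Bool × List Bool) : ℕ × ℕ :=
  (s.1 + 1, if e.2.headD false = true then s.2 + 1 else 1)

/-- The champion after the answers of a transcript. -/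
def champ (h : Tr) : ℕ := (h.foldl cstep (0, 0)).1 - (h.foldl cstep (0, 0)).2

theorem champ_fst (h : Tr) : ∀ s : ℕ × ℕ, (h.foldl cstep s).1 = s.1 + h.length := by
  induction h with
  | nil => intro s; rfl
  | cons e h ih =>
    intro s
    rw [List.foldl_cons, ih, List.length_cons]
    simp only [cstep]
    omega

theorem champ_append (h : Tr) (e : List Bool × List Bool) :
    champ (h ++ [e]) = if e.2.headD false = true then champ h else h.length := by
  unfold champ
  rw [List.foldl_append, List.foldl_cons, List.foldl_nil]
  have := champ_fst h (0, 0)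
  simp only [cstep, this, Nat.zero_add]
  split_ifs <;> omega

theorem champ_le (h : Tr) : champ h ≤ h.length := by
  induction h using List.reverseRecOn with
  | nil => exact le_rfl
  | append_singleton h e ih =>
    rw [champ_append, List.length_append, List.length_singleton]
    split_ifs <;> omega

@[fun_prop]
theorem ptf_champ {α : Type} [Enc α] {f : α → Tr} (hf : PTF f) : PTF (fun a => champ (f a)) := by
  have h : PTF (fun h : Tr => h.foldl cstep (0, 0)) := by
    refine PTF.foldl_add (l := fun h : Tr => h) (init := fun _ : Tr => ((0 : ℕ), (0 : ℕ)))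
      (step := fun p : Tr × ((ℕ × ℕ) × (List Bool × List Bool)) => cstep p.2.1 p.2.2)
      PTF.id (PTF.const _) ?_ (fun _ => 4) (PB.const 4) (fun _ s e _ => ?_)
    · unfold cstep
      fun_prop
    · obtain ⟨n, d⟩ := s
      show sz (cstep (n, d) e) ≤ _
      unfold cstep
      simp only [sz_pair, sz_nat]
      split_ifs <;> omega
  exact ((PTF.fst.comp h).sub (PTF.snd.comp h)).comp hf

/-- Triples. -/
def tri (w v : ℕ) (x : List Bool) : List Bool :=
  dl (List.replicate w true) ++ (dl (List.replicate v true) ++ x)

theorem length_tri (w v : ℕ) (x : List Bool) :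
    (tri w v x).length = 2 * w + 1 + (2 * v + 1 + x.length) := by
  unfold tri
  rw [List.length_append, List.length_append, dl, dl, N487b59b3.length_delimit,
    N487b59b3.length_delimit, List.length_replicate, List.length_replicate]

section champion

variable {S : DecisionProblem} {f : List Bool → List Bool} {r : List Bool → ℕ}

/-- The champion algorithm. -/
def cact (f : List Bool → List Bool) (r : List Bool → ℕ) (q : List Bool × Tr) : List Bool :=
  if q.2.length < r q.1 then true :: f (tri (champ q.2) q.2.length q.1)
  else false :: List.replicate (champ q.2) true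

theorem ptf_cact (hf : PTF f) (hr : PTF r) : PTF (cact f r) := by
  unfold cact tri
  have h1 : PTF (fun q : List Bool × Tr => f (dl (List.replicate (champ q.2) true) ++
      (dl (List.replicate q.2.length true) ++ q.1))) := by
    refine hf.comp ?_
    fun_prop
  exact PTF.ite ((PTF.length PTF.snd).lt (hr.comp PTF.fst)) (PTF.cons (PTF.const true) h1)
    (by fun_prop)

theorem irun_cact (x : List Bool) (i : ℕ) (hi : i ≤ r x) :
    (irun (fun h => cact f r (x, h)) (fun z => [S z]) i).length = i ∧
    (∀ e ∈ irun (fun h => cact f r (x, h)) (fun z => [S z]) i, ∃ w v, w < r x ∧ v < r x ∧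
      e.1 = f (tri w v x) ∧ e.2.length = 1) ∧
    ∀ j < i, irun (fun h => cact f r (x, h)) (fun z => [S z]) (j + 1) =
      irun (fun h => cact f r (x, h)) (fun z => [S z]) j ++
        [(f (tri (champ (irun (fun h => cact f r (x, h)) (fun z => [S z]) j)) j x),
          [S (f (tri (champ (irun (fun h => cact f r (x, h)) (fun z => [S z]) j)) j x))])] := by
  induction i with
  | zero => exact ⟨rfl, fun e he => (by cases he), fun j hj => absurd hj (Nat.not_lt_zero _)⟩
  | succ i ih =>
    obtain ⟨h1, h2, h3⟩ := ih (by omega)
    set H := irun (fun h => cact f r (x, h)) (fun z => [S z]) i with hH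
    have h4 : cact f r (x, H) = true :: f (tri (champ H) i x) := by
      unfold cact
      dsimp only
      rw [if_pos (by rw [h1]; omega), h1]
    have h5 : irun (fun h => cact f r (x, h)) (fun z => [S z]) (i + 1) =
        H ++ [(f (tri (champ H) i x), [S (f (tri (champ H) i x))])] := by
      rw [irun, ← hH, h4]
      rfl
    refine ⟨?_, fun e he => ?_, fun j hj => ?_⟩
    · rw [h5, List.length_append, h1]
      rfl
    · rw [h5] at he
      rcases List.mem_append.1 he with h6 | h6
      · exact h2 e h6
      · rw [List.mem_singleton] at h6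
        refine ⟨champ H, i, ?_, by omega, by rw [h6], by rw [h6]; rfl⟩
        have := champ_le H
        omega
    · rcases Nat.lt_succ_iff_lt_or_eq.1 hj with h6 | rfl
      · exact h3 j h6
      · exact h5

/-- The champion algorithm finds the right index. -/
theorem halts_cact (x : List Bool) (i : ℕ) (hi : i < r x)
    (h1 : ∀ v, v ≠ i → S (f (tri i v x)) = true) (h2 : ∀ w, w ≠ i → S (f (tri w i x)) = false) :
    Halts (fun h => cact f r (x, h)) (fun z => [S z]) (r x) (List.replicate i true) := by
  have key : ∀ n, n ≤ r x → i < n →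
      champ (irun (fun h => cact f r (x, h)) (fun z => [S z]) n) = i := by
    intro n
    induction n with
    | zero => intro _ h; exact absurd h (Nat.not_lt_zero _)
    | succ n ih =>
      intro hn hin
      obtain ⟨hl, _, h3⟩ := irun_cact (S := S) (f := f) (r := r) x (n + 1) hn
      obtain ⟨hl', _, _⟩ := irun_cact (S := S) (f := f) (r := r) x n (by omega)
      rw [h3 n (by omega), champ_append, hl']
      rcases Nat.lt_succ_iff_lt_or_eq.1 hin with h6 | rfl
      · have h7 := ih (by omega) h6
        rw [h7]
        dsimp only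
        rw [h1 n (by omega)]
        simp
      · by_cases hc : champ (irun (fun h => cact f r (x, h)) (fun z => [S z]) i) = i
        · rw [hc]
          split_ifs <;> rfl
        · rw [h2 _ hc]
          simp
  constructor
  · intro j hj
    obtain ⟨hl, _, _⟩ := irun_cact (S := S) (f := f) (r := r) x j hj.le
    dsimp only
    rw [cact]
    dsimp only
    rw [if_pos (by rw [hl]; exact hj)]
    rfl
  · obtain ⟨hl, _, _⟩ := irun_cact (S := S) (f := f) (r := r) x (r x) le_rfl
    dsimp only
    rw [cact]
    dsimp only
    rw [if_neg (by rw [hl]; omega), key (r x) le_rfl hi]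

end champion

/-- Compilation of the champion algorithm. -/
theorem compile_champion {f : List Bool → List Bool} (hf : PTF f) (P : Polynomial ℕ) :
    ∃ (t : List ℕ) (k : ℕ), (∀ n : ℕ, P.eval n ≤ n ^ k + k) ∧
      ∀ (S : DecisionProblem) (x : List Bool) (i : ℕ), i < P.eval x.length →
      (∀ v, v ≠ i → S (f (tri i v x)) = true) → (∀ w, w ≠ i → S (f (tri w i x)) = false) →
      fin (act t x (x.length ^ k + k)) (x.length ^ k + k) (fun z => [S z]) =
        false :: List.replicate i true := by
  have hr : PTF (fun x : List Bool => P.eval x.length) := ptf_eval P PTF.id.length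
  obtain ⟨t, k₀, hk⟩ := compile_run (ptf_cact hf hr)
  obtain ⟨kn, hkn⟩ := hf.size
  set E : Polynomial ℕ := (4 * (2 * P + 1 + (2 * P + 1 + Polynomial.X)) + 1 + 2) ^ kn + 5 + 1 with hE
  set Q : Polynomial ℕ := P + (4 * Polynomial.X + 1 + (P * (E + 1) + 1) + 3) ^ k₀ with hQ
  obtain ⟨k, hQk⟩ := exists_pow_bound Q
  refine ⟨t, k, fun n => ?_, fun S x i hi h1 h2 => ?_⟩
  · have := hQk n
    rw [hQ, Polynomial.eval_add] at this
    omega
  have hN := hQk x.length
  rw [hQ, Polynomial.eval_add] at hN
  refine hk x _ (P.eval x.length) _ _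
    (halts_cact (r := fun x : List Bool => P.eval x.length) x i hi h1 h2)
    (by omega) (fun j hj => ?_)
  have key : sz x + sz (irun (fun h => cact f (fun x : List Bool => P.eval x.length)
      (x, h)) (fun z => [S z]) j) + 3 ≤
      4 * x.length + 1 + (P.eval x.length * (E.eval x.length + 1) + 1) + 3 := by
    obtain ⟨hl, h4, _⟩ := irun_cact (S := S) (f := f)
      (r := fun x : List Bool => P.eval x.length) x j hj
    have h5 : ∀ e ∈ irun (fun h => cact f (fun x : List Bool => P.eval x.length) (x, h))
        (fun z => [S z]) j, sz e ≤ E.eval x.length := by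
      intro e he
      obtain ⟨w, v, hw, hv, he1, he2⟩ := h4 e he
      have h8 := hkn (tri w v x)
      beta_reduce at h8
      rw [← he1] at h8
      have h9 : (sz (tri w v x) + 2) ^ kn ≤
          (4 * (2 * P.eval x.length + 1 + (2 * P.eval x.length + 1 + x.length)) + 1 + 2) ^ kn := by
        refine Nat.pow_le_pow_left ?_ _
        have := sz_bits (tri w v x)
        rw [length_tri] at this
        omega
      obtain ⟨e1, e2⟩ := e
      dsimp only at h8 he2
      have h10 := sz_bits e2
      rw [he2] at h10
      rw [sz_pair, hE]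
      simp only [Polynomial.eval_add, Polynomial.eval_mul, Polynomial.eval_pow, Polynomial.eval_X,
        Polynomial.eval_one, Polynomial.eval_ofNat]
      omega
    have h6 := sz_list_le _ _ h5
    rw [hl] at h6
    have h7 : j * (E.eval x.length + 1) ≤ P.eval x.length * (E.eval x.length + 1) :=
      Nat.mul_le_mul_right _ hj
    have h8 := sz_bits x
    omega
  have h8 := Nat.pow_le_pow_left key k₀
  have h9 : (4 * x.length + 1 + (P.eval x.length * (E.eval x.length + 1) + 1) + 3) ^ k₀ =
      ((4 * Polynomial.X + 1 + (P * (E + 1) + 1) + 3) ^ k₀ : Polynomial ℕ).eval x.length := by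
    simp only [Polynomial.eval_add, Polynomial.eval_mul, Polynomial.eval_pow, Polynomial.eval_X,
      Polynomial.eval_one, Polynomial.eval_ofNat]
  rw [h9] at h8
  omega

/-! ### Complete sequences -/

/-- The comparison pair of a sequence. -/
theorem compare_pair {C : ℕ → DecisionProblem} (hC : IsDisjointCoNPSeq C) :
    ∃ E₁ E₂ : DecisionProblem, IsDisjointCoNPPair E₁ E₂ ∧
      (∀ w v x, w ≠ v → C w x = true → E₁ (tri w v x) = true) ∧
      (∀ w v x, w ≠ v → C v x = true → E₂ (tri w v x) = true) := by
  obtain ⟨L, hL, hLC⟩ := hC.mem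
  have hL' : NPd (fun s : List Bool => L s = false) :=
    (NPd.of_NP (L := Lᶜ) hL).congr (fun x => eq_false_of_compl)
  have hw : PTF (fun s : List Bool => (dec2 s).1.length) := by fun_prop
  have hv : PTF (fun s : List Bool => (dec2 (dec2 s).2).1.length) := by fun_prop
  have hx : PTF (fun s : List Bool => (dec2 (dec2 s).2).2) := by fun_prop
  have hne : PTF (fun s : List Bool =>
      decide ((dec2 s).1.length = (dec2 (dec2 s).2).1.length)) := by fun_prop
  refine ⟨fun s => decide ((dec2 s).1.length ≠ (dec2 (dec2 s).2).1.length) &&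
      C (dec2 s).1.length (dec2 (dec2 s).2).2,
    fun s => decide ((dec2 s).1.length ≠ (dec2 (dec2 s).2).1.length) &&
      C (dec2 (dec2 s).2).1.length (dec2 (dec2 s).2).2, ⟨?_, ?_, ?_⟩, ?_, ?_⟩
  · refine NPd.mem_NP ((NPd.or (NPd.of_dec hne) (hL'.comp ((ptf_dl
      ((hw.replicate (PTF.const true)))).append hx))).congr (fun s => ?_))
    rw [eq_false_of_compl, ← hLC]
    by_cases h : (dec2 s).1.length = (dec2 (dec2 s).2).1.length <;> simp [h]
  · refine NPd.mem_NP ((NPd.or (NPd.of_dec hne) (hL'.comp ((ptf_dl
      ((hv.replicate (PTF.const true)))).append hx))).congr (fun s => ?_))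
    rw [eq_false_of_compl, ← hLC]
    by_cases h : (dec2 s).1.length = (dec2 (dec2 s).2).1.length <;> simp [h]
  · rintro s ⟨h1, h2⟩
    simp only [Bool.and_eq_true, decide_eq_true_eq] at h1 h2
    exact h1.1 (hC.disjoint _ _ _ h1.2 h2.2)
  · intro w v x hne hc
    unfold tri
    simp only [dec2_dl, List.length_replicate, hc, Bool.and_true, decide_eq_true_eq]
    exact hne
  · intro w v x hne hc
    unfold tri
    simp only [dec2_dl, List.length_replicate, hc, Bool.and_true, decide_eq_true_eq]
    exact hne

theorem seq_of_complete {A B : DecisionProblem} (hAB : IsCompleteCoNPPair A B) :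
    ∃ 𝒜, IsCompleteCoNPSeq 𝒜 := by
  classical
  obtain ⟨R, p, hR, hRy, _, _⟩ := exists_search hAB.1
  have hRp := ptf_of_isPolyTime hR.poly
  have hπ : PTF (fun y : List Bool => [y.headD false]) := by fun_prop
  set 𝒜 : ℕ → DecisionProblem := fun i s => decide (i ≤ s.length) &&
    Uset R p (fun y => [y.headD false]) (false :: List.replicate i true) s with h𝒜
  refine ⟨𝒜, ⟨⟨fun s => 𝒜 (dec2 s).1.length (dec2 s).2, ?_, fun i x => ?_⟩,
    ⟨Polynomial.X, fun i x h => ?_⟩, fun i j x hi hj => ?_⟩, fun C hC => ?_⟩
  · have h1 : PTF (fun s : List Bool => (dec2 s).1.length) := by fun_prop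
    have h2 : PTF (fun s : List Bool => (dec2 s).2) := by fun_prop
    have h3 : PTF (fun s : List Bool => decide (¬ (dec2 s).1.length ≤ (dec2 s).2.length)) := by
      fun_prop
    refine NPd.mem_NP ((NPd.or (NPd.of_dec h3) (NPd_Uset (p := p) hRp hπ hR.total
      (v := fun s : List Bool => false :: List.replicate (dec2 s).1.length true)
      (s := fun s => (dec2 s).2) ?_ h2)).congr (fun s => ?_))
    · exact PTF.cons (PTF.const false) (h1.replicate (PTF.const true))
    · rw [eq_false_of_compl]
      simp only [h𝒜, Bool.and_eq_false_iff, decide_eq_false_iff_not]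
  · show 𝒜 i x = 𝒜 (dec2 (dl (List.replicate i true) ++ x)).1.length
      (dec2 (dl (List.replicate i true) ++ x)).2
    rw [dec2_dl]
    simp only [List.length_replicate]
  · simp only [h𝒜, Bool.and_eq_true, decide_eq_true_eq] at h
    rw [Polynomial.eval_X]
    exact h.1
  · simp only [h𝒜, Bool.and_eq_true, decide_eq_true_eq] at hi hj
    have h1 := Uset_unique hR.total hi.2 hj.2
    simpa using congrArg List.length h1
  · obtain ⟨E₁, E₂, hE, hE₁, hE₂⟩ := compare_pair hC
    obtain ⟨f, hf, hf₁, hf₂⟩ := hAB.2 E₁ E₂ hE
    obtain ⟨P, hP⟩ := hC.bound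
    obtain ⟨t, k, hPk, hk⟩ := compile_champion (ptf_of_isPolyTime_fun hf) (P + 1)
    refine ⟨padded (ser (t, ([] : Tr))) k, isPolyTime_of_ptf_fun (ptf_padded _ _),
      fun i x hx => ?_⟩
    have hi := hP i x hx
    have hi' : i < (P + 1).eval x.length := by
      rw [Polynomial.eval_add, Polynomial.eval_one]
      omega
    simp only [h𝒜, Bool.and_eq_true, decide_eq_true_eq]
    refine ⟨?_, ?_⟩
    · unfold padded
      rw [List.length_append, List.length_append, List.length_replicate]
      have := hPk x.length
      omega
    · rw [Uset_iff]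
      intro g hg
      rw [insOf_padded]
      have hsep : Separates (fun z => (g z).headD false) A B := by
        constructor
        · intro z hz
          by_contra hc
          have := (hRy z _ (hg z).2).2 (by simpa using hc)
          rw [hz] at this
          exact absurd this (by simp)
        · intro z hz
          by_contra hc
          have := (hRy z _ (hg z).2).1 (by simpa using hc)
          rw [hz] at this
          exact absurd this (by simp)
      exact hk (fun z => (g z).headD false) x i hi'
        (fun v hv => hsep.1 _ (hf₁ _ (hE₁ i v x (Ne.symm hv) hx)))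
        (fun w hw => hsep.2 _ (hf₂ _ (hE₂ w i x hw hx)))

/-! ### Tuples -/

theorem NPd.forall_fin {α : Type} [Enc α] {k : ℕ} {P : Fin k → α → Prop} (h : ∀ i, NPd (P i)) :
    NPd (fun a => ∀ i, P i a) := by
  induction k with
  | zero =>
    refine (NPd.of_ptf (PTF.const (α := α) true)).congr (fun a => ?_)
    constructor
    · intro _ i; exact i.elim0
    · intro _; rfl
  | succ k ih =>
    refine ((h 0).and (ih (fun i => h i.succ))).congr (fun a => ?_)
    exact (Fin.forall_fin_succ (P := fun i => P i a)).symm

theorem tuple_of_seq {𝒜 : ℕ → DecisionProblem} (h : IsCompleteCoNPSeq 𝒜) (k : ℕ) :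
    IsCompleteCoNPTuple (fun i : Fin k => 𝒜 i) := by
  obtain ⟨⟨⟨L, hL, hL𝒜⟩, _, hdis⟩, hcomp⟩ := h
  have hL' : NPd (fun s : List Bool => L s = false) :=
    (NPd.of_NP (L := Lᶜ) hL).congr (fun x => eq_false_of_compl)
  refine ⟨⟨fun i => ?_, fun i j x hi hj => Fin.ext (hdis _ _ x hi hj)⟩, fun C hC => ?_⟩
  · refine NPd.mem_NP ((hL'.comp (f := fun x => dl (List.replicate (i : ℕ) true) ++ x)
      ((PTF.const _).append PTF.id)).congr (fun x => ?_))
    rw [eq_false_of_compl, ← hL𝒜]
  · set C' : ℕ → DecisionProblem := fun i => if h : i < k then C ⟨i, h⟩ else fun _ => false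
      with hC'
    have hpos : ∀ i (h : i < k), C' i = C ⟨i, h⟩ := fun i h => dif_pos h
    have hneg : ∀ i, ¬ i < k → C' i = fun _ => false := fun i h => dif_neg h
    have hseq : IsDisjointCoNPSeq C' := by
      refine ⟨⟨fun s => C' (dec2 s).1.length (dec2 s).2, ?_, fun i x => ?_⟩,
        ⟨Polynomial.C k, fun i x h => ?_⟩, fun i j x hi hj => ?_⟩
      · have h1 : PTF (fun s : List Bool => (dec2 s).2) := by fun_prop
        refine NPd.mem_NP ((NPd.forall_fin (k := k) (P := fun i (s : List Bool) =>
          ¬ ((dec2 s).1.length = (i : ℕ)) ∨ C i (dec2 s).2 = false) (fun i => ?_)).congr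
          (fun s => ?_))
        · have h2 : PTF (fun s : List Bool => decide (¬ ((dec2 s).1.length = (i : ℕ)))) := by
            fun_prop
          exact (NPd.of_dec h2).or (((NPd.of_NP (L := (C i)ᶜ) (hC.mem i)).congr
            (fun x => eq_false_of_compl)).comp h1)
        · rw [eq_false_of_compl]
          constructor
          · intro h3
            by_cases h4 : (dec2 s).1.length < k
            · rw [hpos _ h4]
              exact (h3 ⟨_, h4⟩).resolve_left (by simp)
            · rw [hneg _ h4]
          · intro h3 i
            by_cases h4 : (dec2 s).1.length = (i : ℕ)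
            · right
              rw [h4, hpos _ i.2] at h3
              exact h3
            · exact Or.inl h4
      · show _ = C' (dec2 (dl (List.replicate i true) ++ x)).1.length
          (dec2 (dl (List.replicate i true) ++ x)).2
        simp only [dec2_dl, List.length_replicate]
      · rw [Polynomial.eval_C]
        by_contra hc
        rw [hneg i (by omega)] at h
        exact absurd h (by simp)
      · by_cases h1 : i < k
        · by_cases h2 : j < k
          · rw [hpos _ h1] at hi
            rw [hpos _ h2] at hj
            have := hC.disjoint _ _ x hi hj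
            simpa using this
          · rw [hneg _ h2] at hj
            exact absurd hj (by simp)
        · rw [hneg _ h1] at hi
          exact absurd hi (by simp)
    obtain ⟨f, hf, hfC⟩ := hcomp C' hseq
    refine ⟨f, hf, fun i x hx => hfC i x ?_⟩
    rw [hpos _ i.2]
    exact hx

theorem pair_of_tuple {k : ℕ} (hk : 2 ≤ k) {𝒜 : Fin k → DecisionProblem}
    (h : IsCompleteCoNPTuple 𝒜) : IsCompleteCoNPPair (𝒜 ⟨0, by omega⟩) (𝒜 ⟨1, by omega⟩) := by
  refine ⟨⟨h.1.mem _, h.1.mem _, fun x hx => ?_⟩, fun C D hCD => ?_⟩
  · have := h.1.disjoint _ _ x hx.1 hx.2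
    simp at this
  · set T : Fin k → DecisionProblem := fun i => if (i : ℕ) = 0 then C else if (i : ℕ) = 1 then D
      else fun _ => false with hT
    have e0 : ∀ i : Fin k, (i : ℕ) = 0 → T i = C := fun i h => if_pos h
    have e1 : ∀ i : Fin k, (i : ℕ) = 1 → T i = D := fun i h => by
      simp only [hT]
      rw [if_neg (by omega), if_pos h]
    have e2 : ∀ i : Fin k, (i : ℕ) ≠ 0 → (i : ℕ) ≠ 1 → T i = fun _ => false := fun i h h' => by
      simp only [hT]
      rw [if_neg h, if_neg h']
    have hcases : ∀ i : Fin k, ((i : ℕ) = 0 ∧ T i = C) ∨ ((i : ℕ) = 1 ∧ T i = D) ∨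
        T i = fun _ => false := by
      intro i
      by_cases h0 : (i : ℕ) = 0
      · exact Or.inl ⟨h0, e0 i h0⟩
      · by_cases h1 : (i : ℕ) = 1
        · exact Or.inr (Or.inl ⟨h1, e1 i h1⟩)
        · exact Or.inr (Or.inr (e2 i h0 h1))
    have htup : IsDisjointCoNPTuple T := by
      refine ⟨fun i => ?_, fun i j x hi hj => ?_⟩
      · rcases hcases i with ⟨_, h1⟩ | ⟨_, h1⟩ | h1
        · rw [h1]
          exact hCD.memA
        · rw [h1]
          exact hCD.memB
        · rw [h1]
          refine NPd.mem_NP ((NPd.of_ptf (PTF.const (α := List Bool) true)).congr (fun x => ?_))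
          rw [eq_false_of_compl]
          simp
      · have hd := hCD.disjoint x
        refine Fin.ext ?_
        rcases hcases i with ⟨h0, h1⟩ | ⟨h0, h1⟩ | h1 <;> rw [h1] at hi <;>
          rcases hcases j with ⟨h2, h3⟩ | ⟨h2, h3⟩ | h3 <;> rw [h3] at hj <;>
          first
            | omega
            | exact (Bool.false_ne_true hi).elim
            | exact (Bool.false_ne_true hj).elim
            | exact (hd (And.intro hi hj)).elim
            | exact (hd (And.intro hj hi)).elim
    obtain ⟨f, hf, hfC⟩ := h.2 T htup
    refine ⟨f, hf, fun x hx => hfC ⟨0, by omega⟩ x ?_, fun x hx => hfC ⟨1, by omega⟩ x ?_⟩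
    · rw [e0 _ rfl]
      exact hx
    · rw [e1 _ rfl]
      exact hx

end Pool.Agent.Work.MP_46935e_lc
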