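import Pool.Agent.Work.MP_46935e_lc.RobustConv

/-!
# Category arguments: from non-uniform to uniform reductions
-/

set_option autoImplicit false

namespace Pool.Agent.Work.MP_46935e_lc

open Pool.Agent.PT Turing Function N68a2faeb N08b01508 Topology

/-- The result of a run depends on finitely many values of the oracle. -/
theorem fin_locallyConstant {X : Type} [TopologicalSpace X] {o : X → List Bool → List Bool}
    (ho : ∀ z, IsLocallyConstant (fun a => o a z)) (ac : Tr → List Bool) (N : ℕ) :
    IsLocallyConstant (fun a => fin ac N (o a)) := by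
  rw [IsLocallyConstant.iff_eventually_eq]
  intro a
  have h : ∀ l : Tr, ∀ᶠ b in 𝓝 a, ∀ e ∈ l, o b e.1 = o a e.1 := by
    intro l
    induction l with
    | nil => exact Filter.Eventually.of_forall (fun b e he => by cases he)
    | cons e l ih =>
      have h1 := (IsLocallyConstant.iff_eventually_eq _).1 (ho e.1) a
      filter_upwards [ih, h1] with b hb1 hb2 e' he'
      rcases List.mem_cons.1 he' with rfl | h3
      · exact hb2
      · exact hb1 e' h3
  filter_upwards [h (rrun ac N (o a) N)] with b hb
  exact fin_agree ac N (o a) hb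

/-- `t`, `k` separate the pair `(C, D)` with the oracle `o`. -/
def Good (C D : DecisionProblem) (t : List ℕ) (k : ℕ) (o : List Bool → List Bool) : Prop :=
  ∀ x : List Bool, ∃ b : Bool, fin (act t x (x.length ^ k + k)) (x.length ^ k + k) o = [false, b] ∧
    (C x = true → b = true) ∧ (D x = true → b = false)

theorem good_of_polyTimeIn {C D : DecisionProblem} {g : List Bool → List Bool}
    {L : DecisionProblem} (hL : Separates L C D) (h : PolyTimeIn g L) : ∃ t k, Good C D t k g := by
  obtain ⟨t, k, hk⟩ := compile_polyTimeIn h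
  exact ⟨t, k, fun x => ⟨L x, hk x, hL.1 x, hL.2 x⟩⟩

/-- **Uniformisation.** -/
theorem unif {X : Type} [TopologicalSpace X] {o : X → List Bool → List Bool}
    (ho : ∀ z, IsLocallyConstant (fun a => o a z)) {C D : DecisionProblem}
    (h : ¬ IsMeagre {a : X | ∃ L, Separates L C D ∧ PolyTimeIn (o a) L}) :
    ∃ (t : List ℕ) (k : ℕ) (U : Set X), IsOpen U ∧ U.Nonempty ∧ ∀ a ∈ U, Good C D t k (o a) := by
  set F : List ℕ × ℕ → Set X := fun i => {a | Good C D i.1 i.2 (o a)} with hF
  have hclosed : ∀ i, IsClosed (F i) := by
    intro i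
    have e : F i = ⋂ x : List Bool, (fun a => fin (act i.1 x (x.length ^ i.2 + i.2))
        (x.length ^ i.2 + i.2) (o a)) ⁻¹' {w | ∃ b : Bool, w = [false, b] ∧
          (C x = true → b = true) ∧ (D x = true → b = false)} := by
      ext a
      simp only [hF, Set.mem_iInter]
      exact Iff.rfl
    rw [e]
    refine isClosed_iInter (fun x => ?_)
    have h1 := fin_locallyConstant ho (act i.1 x (x.length ^ i.2 + i.2)) (x.length ^ i.2 + i.2)
    rw [← isOpen_compl_iff, ← Set.preimage_compl]
    exact h1 _
  by_contra hcon
  push Not at hcon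
  apply h
  have hmea : ∀ i, IsMeagre (F i) := by
    intro i
    refine IsNowhereDense.isMeagre ?_
    rw [(hclosed i).isNowhereDense_iff]
    by_contra hne
    obtain ⟨a, ha, hna⟩ := hcon i.1 i.2 (interior (F i)) isOpen_interior
      (Set.nonempty_iff_ne_empty.2 hne)
    exact hna (interior_subset ha)
  refine IsMeagre.mono ?_ (isMeagre_iUnion hmea)
  rintro a ⟨L, hL1, hL2⟩
  obtain ⟨t, k, hk⟩ := good_of_polyTimeIn hL1 hL2
  exact Set.mem_iUnion.2 ⟨(t, k), hk⟩

/-! ### The space of solution functions -/

section sol

variable {R : List Bool × List Bool → Bool} {p : Polynomial ℕ}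

/-- Evaluation of a solution function. -/
def SolSpace.ev (a : SolSpace R p) : List Bool → List Bool := Subtype.val a

theorem sol_locallyConstant (z : List Bool) :
    IsLocallyConstant (fun a : SolSpace R p => a.ev z) := by
  intro s
  refine ⟨(fun f : List Bool → List Bool => f z) ⁻¹' s, ?_, rfl⟩
  let _ : TopologicalSpace (List Bool) := ⊥
  have : DiscreteTopology (List Bool) := ⟨rfl⟩
  exact (isOpen_discrete s).preimage (continuous_apply z)

theorem sol_open {U : Set (SolSpace R p)} (hU : IsOpen U) {a : SolSpace R p} (ha : a ∈ U) :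
    ∃ K : Finset (List Bool), ∀ b : SolSpace R p, (∀ z ∈ K, b.ev z = a.ev z) → b ∈ U := by
  obtain ⟨V, hV, rfl⟩ := hU
  let _ : TopologicalSpace (List Bool) := ⊥
  obtain ⟨I, u, h1, h2⟩ := isOpen_pi_iff.1 hV (Subtype.val a) ha
  refine ⟨I, fun b hb => h2 (fun z hz => ?_)⟩
  have h3 := (h1 z hz).2
  have h4 : Subtype.val b z = Subtype.val a z := hb z hz
  rw [h4]
  exact h3

theorem sol_compact : CompactSpace (SolSpace R p) := by
  let _ : TopologicalSpace (List Bool) := ⊥
  have : DiscreteTopology (List Bool) := ⟨rfl⟩
  have h1 : IsCompact (Set.pi Set.univ (fun x : List Bool =>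
      {y : List Bool | y.length ≤ p.eval x.length ∧ R (x, y) = true})) := by
    refine isCompact_univ_pi (fun x => Set.Finite.isCompact ?_)
    refine (List.finite_length_le Bool (p.eval x.length)).subset ?_
    rintro y ⟨hy, _⟩
    exact hy
  have h2 : {g : List Bool → List Bool | Solves g R p} = Set.pi Set.univ (fun x : List Bool =>
      {y : List Bool | y.length ≤ p.eval x.length ∧ R (x, y) = true}) := by
    ext g
    simp only [Set.mem_pi, Set.mem_univ, true_implies]
    rfl
  rw [← h2] at h1
  exact isCompact_iff_compactSpace.1 h1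

theorem sol_t2 : T2Space (SolSpace R p) := by
  let _ : TopologicalSpace (List Bool) := ⊥
  have : DiscreteTopology (List Bool) := ⟨rfl⟩
  exact inferInstanceAs (T2Space {g : List Bool → List Bool // Solves g R p})

theorem sol_not_meagre (h : ∃ g, Solves g R p) :
    ¬ IsMeagre (Set.univ : Set (SolSpace R p)) := by
  have := sol_compact (R := R) (p := p)
  have := sol_t2 (R := R) (p := p)
  have : BaireSpace (SolSpace R p) := inferInstance
  obtain ⟨g, hg⟩ := h
  exact not_isMeagre_of_isOpen isOpen_univ ⟨⟨g, hg⟩, trivial⟩

end sol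

/-! ### The space of separators -/

section sep

variable {A B : DecisionProblem}

theorem sep_locallyConstant (z : List Bool) :
    IsLocallyConstant (fun S : SepSpace A B => [S.1 z]) := by
  have h1 : Continuous (fun S : SepSpace A B => S.1 z) :=
    (continuous_apply z).comp continuous_subtype_val
  have h2 : IsLocallyConstant (fun S : SepSpace A B => S.1 z) :=
    (IsLocallyConstant.iff_continuous _).2 h1
  exact h2.comp (fun b => [b])

theorem sep_open {U : Set (SepSpace A B)} (hU : IsOpen U) {a : SepSpace A B} (ha : a ∈ U) :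
    ∃ K : Finset (List Bool), ∀ b : SepSpace A B, (∀ z ∈ K, b.1 z = a.1 z) → b ∈ U := by
  obtain ⟨V, hV, rfl⟩ := hU
  obtain ⟨I, u, h1, h2⟩ := isOpen_pi_iff.1 hV (Subtype.val a) ha
  refine ⟨I, fun b hb => h2 (fun z hz => ?_)⟩
  have h3 := (h1 z hz).2
  rw [hb z hz]
  exact h3

theorem sep_compact : CompactSpace (SepSpace A B) := by
  have h1 : IsClosed {S : List Bool → Bool | Separates S A B} := by
    have e : {S : List Bool → Bool | Separates S A B} =
        (⋂ x : List Bool, {S | A x = true → S x = true}) ∩
          ⋂ x : List Bool, {S | B x = true → S x = false} := by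
      ext S
      simp only [Set.mem_inter_iff, Set.mem_iInter]
      exact Iff.rfl
    rw [e]
    refine (isClosed_iInter (fun x => ?_)).inter (isClosed_iInter (fun x => ?_))
    · exact IsClosed.preimage (f := fun S : List Bool → Bool => S x)
        (continuous_apply x) (isClosed_discrete {b : Bool | A x = true → b = true})
    · exact IsClosed.preimage (f := fun S : List Bool → Bool => S x)
        (continuous_apply x) (isClosed_discrete {b : Bool | B x = true → b = false})
  exact isCompact_iff_compactSpace.1 h1.isCompact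

theorem sep_not_meagre (h : ∃ S, Separates S A B) :
    ¬ IsMeagre (Set.univ : Set (SepSpace A B)) := by
  have := sep_compact (A := A) (B := B)
  obtain ⟨S, hS⟩ := h
  exact not_isMeagre_of_isOpen isOpen_univ ⟨⟨S, hS⟩, trivial⟩

end sep

end Pool.Agent.Work.MP_46935e_lc
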