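import Pool.Agent.Work.MP_46935e_lc.RobustDefs
import Pool.Agent.Work.MP_46935e_lc.RobustRun

/-!
# The universal coNP sets attached to a total NP search problem
-/

set_option autoImplicit false

namespace Pool.Agent.Work.MP_46935e_lc

open Pool.Agent.PT Turing Function N68a2faeb N08b01508

/-! ### Overriding an oracle by a finite table -/

/-- The oracle `g`, overridden by the table `σ`. -/
def ovr (σ : Tr) (g : List Bool → List Bool) (z : List Bool) : List Bool :=
  ((σ.find? (fun e => decide (e.1 = z))).map Prod.snd).getD (g z)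

theorem ovr_append (σ τ : Tr) (g : List Bool → List Bool) : ovr (σ ++ τ) g = ovr σ (ovr τ g) := by
  funext z
  unfold ovr
  rw [List.find?_append]
  cases List.find? (fun e => decide (e.1 = z)) σ <;> rfl

/-- If `z` occurs in the table then the oracle is irrelevant. -/
theorem ovr_mem {σ : Tr} {z : List Bool} (h : ∃ e ∈ σ, e.1 = z) (g g' : List Bool → List Bool) :
    ovr σ g z = ovr σ g' z := by
  unfold ovr
  cases hc : List.find? (fun e => decide (e.1 = z)) σ with
  | some e => rfl
  | none =>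
    obtain ⟨e, he, hz⟩ := h
    have := List.find?_eq_none.1 hc e he
    simp [hz] at this

/-- The value is given by the table or by the oracle. -/
theorem ovr_cases (σ : Tr) (g : List Bool → List Bool) (z : List Bool) :
    (∃ e ∈ σ, e.1 = z ∧ ovr σ g z = e.2) ∨ ((∀ e ∈ σ, e.1 ≠ z) ∧ ovr σ g z = g z) := by
  unfold ovr
  cases hc : List.find? (fun e => decide (e.1 = z)) σ with
  | some e =>
    left
    have h1 := List.mem_of_find?_eq_some hc
    have h2 := List.find?_some hc
    exact ⟨e, h1, by simpa using h2, rfl⟩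
  | none =>
    right
    refine ⟨fun e he hz => ?_, rfl⟩
    have := List.find?_eq_none.1 hc e he
    simp [hz] at this

/-- A table of values of `g`. -/
theorem ovr_table {σ : Tr} {g : List Bool → List Bool} (h : ∀ e ∈ σ, e.2 = g e.1) (z : List Bool) :
    ovr σ g z = g z := by
  rcases ovr_cases σ g z with ⟨e, he, hz, h1⟩ | ⟨_, h1⟩
  · rw [h1, h e he, hz]
  · exact h1

@[fun_prop]
theorem ptf_table {α : Type} [Enc α] {σ : α → Tr} {z : α → List Bool} (hσ : PTF σ) (hz : PTF z) :
    PTF (fun a => ovr (σ a) (fun _ => []) (z a)) := by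
  unfold ovr
  fun_prop

/-! ### Instances -/

/-- Instances: a program, a table, an input and a unary bound. -/
abbrev Ins : Type := (List ℕ × Tr) × (List Bool × ℕ)

section univ

variable (R : List Bool × List Bool → Bool) (p : Polynomial ℕ) (π : List Bool → List Bool)

/-- The result of the run of an instance. -/
def insFin (ι : Ins) (g : List Bool → List Bool) : List Bool :=
  fin (act ι.1.1 ι.2.1 ι.2.2) ι.2.2 (fun z => π (ovr ι.1.2 g z))

/-- The transcript of an instance with respect to a table. -/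
def tabRun (q : Ins × Tr) : Tr :=
  rrun (act q.1.1.1 q.1.2.1 q.1.2.2) q.1.2.2 (fun z => π (ovr (q.1.1.2 ++ q.2) (fun _ => []) z))
    q.1.2.2

variable {R p π}

/-- Bound for the queries. -/
theorem exists_query_bound : ∃ B : Ins → ℕ, PB B ∧ ∀ (ι : Ins) (h : Tr), trLen h ≤ ι.2.2 →
    sz (act ι.1.1 ι.2.1 ι.2.2 h).tail ≤ B ι := by
  have h1 : PTF (fun q : Ins × Tr => (act q.1.1.1 q.1.2.1 q.1.2.2 q.2).tail) := by fun_prop
  obtain ⟨k, hk⟩ := h1.size
  refine ⟨fun ι => (sz ι + (4 * sz ι.2.2 + 1) + 1 + 2) ^ k, ?_, fun ι h hh => ?_⟩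
  · have h2 : PTF (fun ι : Ins => ι.2.2) := by fun_prop
    exact ((((PB.sz.add (((PB.const 4).mul h2.size).add (PB.const 1))).add (PB.const 1)).add
      (PB.const 2)).pow k)
  · refine (hk (ι, h)).trans (Nat.pow_le_pow_left ?_ _)
    rw [sz_pair]
    have h2 := sz_tr h
    have h3 := sz_nat ι.2.2
    omega

theorem ptf_tabRun (hπ : PTF π) : PTF (tabRun π) := by
  obtain ⟨B, hB, hBq⟩ := exists_query_bound
  -- bound for the answers
  have ho : PTF (fun p : (Ins × Tr) × List Bool =>
      π (ovr (p.1.1.1.2 ++ p.1.2) (fun _ => []) p.2)) := by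
    refine hπ.comp ?_
    fun_prop
  obtain ⟨k, hk⟩ := ho.size
  have hN : PTF (fun q : Ins × Tr => q.1.2.2) := by fun_prop
  have hB' : PB (fun q : Ins × Tr => B q.1) := by
    have h0 : PTF (fun q : Ins × Tr => q.1) := by fun_prop
    exact hB.comp h0.size
  have hstep : PTF (fun p : (Ins × Tr) × Tr => rstep (act p.1.1.1.1 p.1.1.2.1 p.1.1.2.2)
      p.1.1.2.2 (fun z => π (ovr (p.1.1.1.2 ++ p.1.2) (fun _ => []) z)) p.2) := by
    unfold rstep
    have ha : PTF (fun p : (Ins × Tr) × Tr => act p.1.1.1.1 p.1.1.2.1 p.1.1.2.2 p.2) := by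
      fun_prop
    have hans : PTF (fun p : (Ins × Tr) × Tr => π (ovr (p.1.1.1.2 ++ p.1.2) (fun _ => [])
        (act p.1.1.1.1 p.1.1.2.1 p.1.1.2.2 p.2).tail)) := by
      exact ho.comp (f := fun p : (Ins × Tr) × List Bool =>
        π (ovr (p.1.1.1.2 ++ p.1.2) (fun _ => []) p.2)) (PTF.fst.pair ha.tail)
    refine PTF.ite (p := fun p : (Ins × Tr) × Tr =>
      (act p.1.1.1.1 p.1.1.2.1 p.1.1.2.2 p.2).headD false = true ∧ trLen p.2 ≤ p.1.1.2.2) ?_ ?_ ?_
    · fun_prop
    · exact PTF.snd.append (PTF.cons (ha.tail.pair hans) (PTF.const []))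
    · exact PTF.snd
  refine PTF.nat_iterate (n := fun q : Ins × Tr => q.1.2.2) (init := fun _ => ([] : Tr))
    (step := fun p : (Ins × Tr) × Tr => rstep (act p.1.1.1.1 p.1.1.2.1 p.1.1.2.2)
      p.1.1.2.2 (fun z => π (ovr (p.1.1.1.2 ++ p.1.2) (fun _ => []) z)) p.2)
    hN (PTF.const _) hstep
    (fun q => sz q.1.2.2 * (B q.1 + (sz q + B q.1 + 1 + 2) ^ k + 1 + 1) + 1)
    ((hN.size.mul (((hB'.add ((((PB.sz.add hB').add (PB.const 1)).add (PB.const 2)).pow k)).add
      (PB.const 1)).add (PB.const 1))).add (PB.const 1)) (fun q i hi => ?_)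
  show sz (rrun (act q.1.1.1 q.1.2.1 q.1.2.2) q.1.2.2
    (fun z => π (ovr (q.1.1.2 ++ q.2) (fun _ => []) z)) i) ≤ _
  refine (sz_list_le _ (B q.1 + (sz q + B q.1 + 1 + 2) ^ k + 1) ?_).trans ?_
  · intro e he
    obtain ⟨h, h1, h2⟩ := rrun_query _ _ _ _ e he
    have h3 := rrun_ans _ _ _ _ e he
    have h4 := hBq q.1 h h1
    rw [← h2] at h4
    obtain ⟨e1, e2⟩ := e
    have h5 := hk (q, e1)
    dsimp only at h3 h4 h5
    rw [← h3, sz_pair] at h5
    have h6 : (sz q + sz e1 + 1 + 2) ^ k ≤ (sz q + B q.1 + 1 + 2) ^ k :=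
      Nat.pow_le_pow_left (by omega) _
    rw [sz_pair]
    omega
  · refine Nat.add_le_add_right (Nat.mul_le_mul_right _ ?_) _
    refine (rrun_length _ _ _ _).trans (hi.trans ?_)
    rw [sz_nat]
    omega

variable (R p) in
/-- The verifier. -/
def verif (q : (Ins × List Bool) × Tr) : Bool :=
  (q.2.all (fun e => R e && decide (e.2.length ≤ p.eval e.1.length)) &&
    (tabRun π (q.1.1, q.2)).all
      (fun e => (q.1.1.1.2 ++ q.2).any (fun e' => decide (e'.1 = e.1)))) &&
  !(decide (act q.1.1.1.1 q.1.1.2.1 q.1.1.2.2 (tabRun π (q.1.1, q.2)) = q.1.2))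

theorem ptf_verif (hR : PTF R) (hπ : PTF π) : PTF (verif (π := π) R p) := by
  unfold verif
  have h1 : PTF (fun q : (Ins × List Bool) × Tr => tabRun π (q.1.1, q.2)) :=
    (ptf_tabRun hπ).comp ((PTF.fst.comp PTF.fst).pair PTF.snd)
  have h2 : PTF (fun q : ((Ins × List Bool) × Tr) × (List Bool × List Bool) =>
      R q.2 && decide (q.2.2.length ≤ p.eval q.2.1.length)) := by
    refine (hR.comp PTF.snd).and (PTF.le (by fun_prop) (ptf_eval p ?_))
    fun_prop
  refine ((PTF.all PTF.snd h2).and ?_).and ?_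
  · refine PTF.all (p := fun q : ((Ins × List Bool) × Tr) × (List Bool × List Bool) =>
      (q.1.1.1.1.2 ++ q.1.2).any (fun e' => decide (e'.1 = q.2.1))) h1 ?_
    fun_prop
  · refine PTF.not (PTF.eq ?_ (by fun_prop))
    exact ptf_act (by fun_prop) (by fun_prop) (by fun_prop) h1

/-- **Certificates.** It is an NP property of an instance and `v` that some solution function leads
to a result different from `v`. -/
theorem NPd_bad (hR : PTF R) (hπ : PTF π)
    (htot : ∀ x : List Bool, ∃ y : List Bool, y.length ≤ p.eval x.length ∧ R (x, y) = true) :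
    NPd (fun q : Ins × List Bool => ∃ g, Solves g R p ∧ insFin π q.1 g ≠ q.2) := by
  choose g₀ hg₀ using htot
  obtain ⟨B, hB, hBq⟩ := exists_query_bound
  have h0 : PTF (fun q : Ins × List Bool => q.1) := by fun_prop
  have hB' : PB (fun q : Ins × List Bool => B q.1) := hB.comp h0.size
  have hN : PTF (fun q : Ins × List Bool => q.1.2.2) := by fun_prop
  have hpB : PB (fun q : Ins × List Bool => p.eval (B q.1)) := by
    have h1 : PTF (fun n : ℕ => p.eval n) := ptf_eval p PTF.id
    obtain ⟨k, hk⟩ := h1.size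
    have h2 : PB (fun n : ℕ => p.eval n) := ⟨k, fun n => by
      have h3 := hk n
      beta_reduce at h3
      rw [sz_nat] at h3
      dsimp only
      omega⟩
    refine h2.comp (((((PB.const 2).mul hB').add (PB.const 1))).mono (fun q => ?_))
    rw [sz_nat]
  refine NPd.of_cert ptf_dTr dTr_enc (ptf_verif (p := p) hR hπ)
    (B := fun q : Ins × List Bool =>
      sz q.1.2.2 * (B q.1 + (4 * p.eval (B q.1) + 1) + 1 + 1) + 1)
    ((hN.size.mul (((hB'.add (((PB.const 4).mul hpB).add (PB.const 1))).add (PB.const 1)).add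
      (PB.const 1))).add (PB.const 1)) (fun q hq => ?_) (fun q τ hτ => ?_)
  · -- completeness
    obtain ⟨ι, v⟩ := q
    obtain ⟨g, hg, hv⟩ := hq
    set h : Tr := rrun (act ι.1.1 ι.2.1 ι.2.2) ι.2.2 (fun z => π (ovr ι.1.2 g z)) ι.2.2 with hh
    set τ : Tr := h.map (fun e => (e.1, g e.1)) with hτ
    have hτg : ∀ e ∈ τ, e.2 = g e.1 := by
      intro e he
      obtain ⟨e', _, rfl⟩ := List.mem_map.1 he
      rfl
    have hag : ∀ e ∈ h, ovr (ι.1.2 ++ τ) (fun _ => []) e.1 = ovr ι.1.2 g e.1 := by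
      intro e he
      have h1 : ∃ e' ∈ ι.1.2 ++ τ, e'.1 = e.1 :=
        ⟨(e.1, g e.1), List.mem_append_right _ (List.mem_map.2 ⟨e, he, rfl⟩), rfl⟩
      rw [ovr_mem h1 _ g, ovr_append]
      have h2 : ovr τ g = g := funext (fun z => ovr_table hτg z)
      rw [h2]
    have hrun : tabRun π (ι, τ) = h := by
      have := rrun_agree (act ι.1.1 ι.2.1 ι.2.2) ι.2.2 (fun z => π (ovr ι.1.2 g z))
        (o' := fun z => π (ovr (ι.1.2 ++ τ) (fun _ => []) z)) (n := ι.2.2)
        (fun e he => congrArg π (hag e he)) ι.2.2 le_rfl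
      exact this
    refine ⟨τ, ?_, ?_⟩
    · refine (sz_list_le τ (B ι + (4 * p.eval (B ι) + 1) + 1) ?_).trans ?_
      · intro e he
        obtain ⟨e', he', rfl⟩ := List.mem_map.1 he
        obtain ⟨h', h1, h2⟩ := rrun_query _ _ _ _ e' he'
        have h3 := hBq ι h' h1
        rw [← h2] at h3
        have h4 : (g e'.1).length ≤ p.eval (B ι) := (hg e'.1).1.trans
          (eval_mono p ((length_le_sz _).trans h3))
        have h5 := sz_bits (g e'.1)
        rw [sz_pair]
        omega
      · refine Nat.add_le_add_right (Nat.mul_le_mul_right _ ?_) _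
        rw [hτ, List.length_map]
        refine (rrun_length _ _ _ _).trans ?_
        show ι.2.2 ≤ sz ι.2.2
        rw [sz_nat]
        omega
    · unfold verif
      simp only [Bool.and_eq_true, List.all_eq_true, decide_eq_true_eq, Bool.not_eq_true',
        decide_eq_false_iff_not, List.any_eq_true]
      refine ⟨⟨fun e he => ?_, fun e he => ?_⟩, ?_⟩
      · have h1 := hτg e he
        obtain ⟨e1, e2⟩ := e
        dsimp only at h1 ⊢
        rw [h1]
        exact ⟨(hg e1).2, (hg e1).1⟩
      · rw [hrun] at he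
        exact ⟨(e.1, g e.1), List.mem_append_right _ (List.mem_map.2 ⟨e, he, rfl⟩), rfl⟩
      · rw [hrun]
        exact hv
  · -- soundness
    obtain ⟨ι, v⟩ := q
    unfold verif at hτ
    simp only [Bool.and_eq_true, List.all_eq_true, decide_eq_true_eq, Bool.not_eq_true',
      decide_eq_false_iff_not, List.any_eq_true] at hτ
    obtain ⟨⟨h1, h2⟩, h3⟩ := hτ
    refine ⟨ovr τ g₀, fun x => ?_, ?_⟩
    · rcases ovr_cases τ g₀ x with ⟨e, he, hz, h4⟩ | ⟨_, h4⟩
      · have h5 := h1 e he
        rw [h4, ← hz]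
        exact ⟨h5.2, h5.1⟩
      · rw [h4]
        exact hg₀ x
    · have h4 := fin_agree (act ι.1.1 ι.2.1 ι.2.2) ι.2.2
        (fun z => π (ovr (ι.1.2 ++ τ) (fun _ => []) z))
        (o' := fun z => π (ovr ι.1.2 (ovr τ g₀) z)) (fun e he => by
          rw [← ovr_append]
          exact congrArg π (ovr_mem (h2 e he) _ _))
      intro h5
      exact h3 (h4.symm.trans h5)

/-! ### The universal sets -/

/-- Decoding of instances. -/
def insOf (s : List Bool) : Ins :=
  ((dLN (parse (dec2 s).1).hd, dTr (parse (dec2 s).1).tl), ((dec2 (dec2 s).2).1,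
    (dec2 (dec2 s).2).2.length))

theorem ptf_insOf : PTF insOf := by
  unfold insOf
  fun_prop

theorem insOf_enc (t : List ℕ) (σ : Tr) (x : List Bool) (n : ℕ) :
    insOf (dl (ser (t, σ)) ++ (dl x ++ List.replicate n true)) = ((t, σ), (x, n)) := by
  unfold insOf
  rw [dec2_dl]
  dsimp only
  rw [dec2_dl, parse_ser, enc_pair, D.hd_cons, D.tl_cons, dLN_enc, dTr_enc]
  dsimp only
  rw [List.length_replicate]

open Classical in
variable (R p π) in
/-- The set of the instances all of whose runs have the result `v`. -/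
noncomputable def Uset (v : List Bool) (s : List Bool) : Bool :=
  decide (∀ g, Solves g R p → insFin π (insOf s) g = v)

theorem Uset_iff (v s : List Bool) :
    Uset R p π v s = true ↔ ∀ g, Solves g R p → insFin π (insOf s) g = v := by
  classical
  unfold Uset
  exact decide_eq_true_iff

theorem NPd_Uset {α : Type} [Enc α] (hR : PTF R) (hπ : PTF π)
    (htot : ∀ x : List Bool, ∃ y : List Bool, y.length ≤ p.eval x.length ∧ R (x, y) = true)
    {v s : α → List Bool} (hv : PTF v) (hs : PTF s) :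
    NPd (fun a => Uset R p π (v a) (s a) = false) := by
  refine ((NPd_bad hR hπ htot).comp ((ptf_insOf.comp hs).pair hv)).congr (fun a => ?_)
  rw [← Bool.not_eq_true, Uset_iff]
  push Not
  rfl

theorem Uset_mem (hR : PTF R) (hπ : PTF π)
    (htot : ∀ x : List Bool, ∃ y : List Bool, y.length ≤ p.eval x.length ∧ R (x, y) = true)
    (v : List Bool) : Uset R p π v ∈ coNP := by
  show (Uset R p π v)ᶜ ∈ NP
  refine NPd.mem_NP ((NPd_Uset hR hπ htot (PTF.const v) PTF.id).congr (fun s => ?_))
  show _ ↔ (!(Uset R p π v s)) = true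
  simp

theorem Uset_unique
    (htot : ∀ x : List Bool, ∃ y : List Bool, y.length ≤ p.eval x.length ∧ R (x, y) = true)
    {v v' s : List Bool} (h : Uset R p π v s = true) (h' : Uset R p π v' s = true) : v = v' := by
  choose g₀ hg₀ using htot
  rw [Uset_iff] at h h'
  rw [← h g₀ hg₀, h' g₀ hg₀]

end univ

end Pool.Agent.Work.MP_46935e_lc
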