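import Pool.Agent.Work.MP_46935e_lc.Frozen

/-!
# A universal clocked simulator for Mathlib's `FinTM2` machines

`univ (t, T, x)`: run the flat stack machine with program `t : List ℕ` for `T` steps on input `x`.
Every `FinTM2` machine is simulated by a suitable program with constant slowdown
(`exists_program`).
-/

set_option autoImplicit false

namespace Pool.Agent.Work.MP_46935e_lc

open Pool.Agent.PT Turing Function
open Pool.Agent.PT.Clk (pushed Good sym stp ix)

/-! ### The flat machine -/

/-- One step of the flat stack machine with program `t`. A configuration is an address together with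
a list of stacks. The block at address `p` consists of an operation code, the index of a stack, a
symbol, and the addresses to go to for each possible top symbol (`0` for an empty stack). -/
def fstep (t : List ℕ) (c : ℕ × List (List ℕ)) : ℕ × List (List ℕ) :=
  (t.getD (c.1 + 3 + (c.2.getD (t.getD (c.1 + 1) 0) []).headD 0) 0,
    if t.getD c.1 0 = 1 then
      c.2.set (t.getD (c.1 + 1) 0) (t.getD (c.1 + 2) 0 :: c.2.getD (t.getD (c.1 + 1) 0) [])
    else if t.getD c.1 0 = 2 then
      c.2.set (t.getD (c.1 + 1) 0) (c.2.getD (t.getD (c.1 + 1) 0) []).tail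
    else c.2)

section ptf
variable {α : Type} [Enc α]

theorem ptf_fstep {t : α → List ℕ} {c : α → ℕ × List (List ℕ)} (ht : PTF t) (hc : PTF c) :
    PTF (fun a => fstep (t a) (c a)) := by
  have h1 : PTF (fun a => (c a).1) := PTF.fst.comp hc
  have h2 : PTF (fun a => (c a).2) := PTF.snd.comp hc
  have hop : PTF (fun a => (t a).getD (c a).1 0) := ht.getD h1 (PTF.const 0)
  have hj : PTF (fun a => (t a).getD ((c a).1 + 1) 0) := ht.getD (h1.add (PTF.const 1)) (PTF.const 0)
  have hs : PTF (fun a => (t a).getD ((c a).1 + 2) 0) := ht.getD (h1.add (PTF.const 2)) (PTF.const 0)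
  have hl : PTF (fun a => (c a).2.getD ((t a).getD ((c a).1 + 1) 0) []) :=
    h2.getD hj (PTF.const [])
  exact (ht.getD ((h1.add (PTF.const 3)).add (hl.headD (PTF.const 0))) (PTF.const 0)).pair
    (PTF.ite (hop.eq (PTF.const 1)) (h2.set hj (PTF.cons hs hl))
      (PTF.ite (hop.eq (PTF.const 2)) (h2.set hj hl.tail) h2))

end ptf

theorem sz_getD_le (t : List ℕ) (i : ℕ) : sz (t.getD i 0) ≤ sz t + 1 := by
  by_cases h : i < t.length
  · have : t.getD i 0 ∈ t := by
      rw [List.getD_eq_getElem _ _ h]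
      exact List.getElem_mem h
    exact (sz_le_of_mem this).trans (Nat.le_succ _)
  · rw [List.getD_eq_default _ _ (by omega), sz_nat]
    have := sz_pos t
    omega

theorem sz_set_ge (S : List (List ℕ)) (j : ℕ) (l : List ℕ) (h : ¬ j < S.length) : S.set j l = S :=
  List.set_eq_of_length_le (by omega)

theorem sz_tail_le' {β : Type} [Enc β] (l : List β) : sz l.tail ≤ sz l := by
  cases l with
  | nil => simp
  | cons a l => rw [List.tail_cons, sz_cons]; omega

theorem sz_fstep (t : List ℕ) (c : ℕ × List (List ℕ)) : sz (fstep t c) ≤ sz c + (2 * sz t + 3) := by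
  obtain ⟨p, S⟩ := c
  have h1 := sz_getD_le t (p + 3 + (S.getD (t.getD (p + 1) 0) []).headD 0)
  have h2 := sz_getD_le t (p + 2)
  have h3 : sz (S.set (t.getD (p + 1) 0) (t.getD (p + 2) 0 :: S.getD (t.getD (p + 1) 0) [])) ≤
      sz S + (sz t + 2) := by
    refine sz_set_le (sz t + 2) _ [] S _ ?_
    rw [sz_cons]; omega
  have h4 : sz (S.set (t.getD (p + 1) 0) (S.getD (t.getD (p + 1) 0) []).tail) ≤ sz S + 0 := by
    refine sz_set_le 0 _ [] S _ ?_
    exact sz_tail_le' _
  unfold fstep
  simp only [sz_pair]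
  split_ifs <;> omega

/-- The parameters of a program: the header `ns, k0, cf, ct, k1, dt, p0` followed by the blocks. -/
def fprog (t : List ℕ) : List ℕ := t.drop 7

/-- Initial configuration. -/
def finit (t : List ℕ) (x : List Bool) : ℕ × List (List ℕ) :=
  (t.getD 6 0, (List.replicate (t.getD 0 0) []).set (t.getD 1 0)
    (x.map (fun b => if b = true then t.getD 3 0 else t.getD 2 0)))

/-- Read the output. -/
def fout (t : List ℕ) (c : ℕ × List (List ℕ)) : List Bool :=
  (c.2.getD (t.getD 4 0) []).map (fun s => decide (s = t.getD 5 0))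

/-- The universal simulator. -/
def univ (t : List ℕ) (T : ℕ) (x : List Bool) : List Bool :=
  fout t ((fun c => fstep (fprog t) c)^[T] (finit t x))

section ptf
variable {α : Type} [Enc α]

theorem ptf_univ {t : α → List ℕ} {T : α → ℕ} {x : α → List Bool} (ht : PTF t) (hT : PTF T)
    (hx : PTF x) : PTF (fun a => univ (t a) (T a) (x a)) := by
  have hg : ∀ i : ℕ, PTF (fun a => (t a).getD i 0) := fun i => ht.getD (PTF.const i) (PTF.const 0)
  have hinit : PTF (fun a => finit (t a) (x a)) := by
    refine (hg 6).pair (((hg 0).replicate (PTF.const [])).set (hg 1) (hx.map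
      (g := fun p : α × Bool => if p.2 = true then (t p.1).getD 3 0 else (t p.1).getD 2 0) ?_))
    exact PTF.ite (p := fun p : α × Bool => p.2 = true) (PTF.snd.eq (PTF.const true))
      ((hg 3).comp PTF.fst) ((hg 2).comp PTF.fst)
  have hprog : PTF (fun a => fprog (t a)) := ht.drop (PTF.const 7)
  have hit := PTF.nat_iterate_add (n := T) (init := fun a => finit (t a) (x a))
    (step := fun p : α × (ℕ × List (List ℕ)) => fstep (fprog (t p.1)) p.2) hT hinit
    (ptf_fstep (hprog.comp PTF.fst) PTF.snd) (fun a => 2 * sz (fprog (t a)) + 3)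
    (((PB.const 2).mul hprog.size).add (PB.const 3)) (fun a s => sz_fstep _ _)
  have hstk := (PTF.snd.comp hit).getD (hg 4) (PTF.const [])
  exact hstk.map (g := fun p : α × ℕ => decide (p.2 = (t p.1).getD 5 0))
    (PTF.snd.eq ((hg 5).comp PTF.fst))

end ptf

/-! ### Numberings -/

theorem exists_numbering {X : Type} {P : Set X} (hP : P.Finite) :
    ∃ (N : ℕ) (idx : X → ℕ) (pt : ℕ → Option X), ∀ x ∈ P, idx x < N ∧ pt (idx x) = some x := by
  classical
  refine ⟨hP.toFinset.toList.length, fun x => hP.toFinset.toList.idxOf x,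
    fun i => hP.toFinset.toList[i]?, fun x hx => ?_⟩
  have h1 : x ∈ hP.toFinset.toList := by simpa using hx
  have h2 := List.idxOf_lt_length_iff.2 h1
  refine ⟨h2, ?_⟩
  show hP.toFinset.toList[List.idxOf x hP.toFinset.toList]? = some x
  rw [List.getElem?_eq_getElem h2, List.getElem_idxOf h2]

/-! ### Compilation -/

section compile

variable {K Λ σ : Type} {Γ : K → Type} [Fintype K]

/-- Coded stacks, for a coding `sc` of the symbols. -/
noncomputable def cStk (sc : ∀ k, Γ k → ℕ) (S : ∀ k, List (Γ k)) : List (List ℕ) :=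
  List.ofFn (fun j : Fin (Fintype.card K) => (S ((Fintype.equivFin K).symm j)).map (sc _))

theorem cStk_getD (sc : ∀ k, Γ k → ℕ) (S : ∀ k, List (Γ k)) (k : K) :
    (cStk sc S).getD (ix k) [] = (S k).map (sc k) := by
  have h : ix k < Fintype.card K := (Fintype.equivFin K k).2
  have e : (Fintype.equivFin K).symm ⟨ix k, h⟩ = k := (Fintype.equivFin K).symm_apply_apply k
  rw [List.getD_eq_getElem?_getD, cStk, List.getElem?_ofFn, dif_pos h, Option.getD_some]
  rw [e]

theorem cStk_update [DecidableEq K] (sc : ∀ k, Γ k → ℕ) (S : ∀ k, List (Γ k)) (k : K)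
    (l : List (Γ k)) : cStk sc (update S k l) = (cStk sc S).set (ix k) (l.map (sc k)) := by
  apply List.ext_getElem
  · simp [cStk]
  · intro i h1 h2
    rw [List.getElem_set]
    simp only [cStk, List.getElem_ofFn]
    have hi : i < Fintype.card K := by simpa [cStk] using h1
    by_cases h : ix k = i
    · rw [if_pos h]
      subst h
      have e : (Fintype.equivFin K).symm ⟨ix k, hi⟩ = k :=
        (Fintype.equivFin K).symm_apply_apply k
      rw [e, update_self]
    · rw [if_neg h]
      have e : (Fintype.equivFin K).symm ⟨i, hi⟩ ≠ k := by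
        intro e
        apply h
        rw [← e, ix, Equiv.apply_symm_apply]
      rw [update_of_ne e]

omit [Fintype K] in
theorem good_update [DecidableEq K] {F : Set (Σ k, Γ k)} {S : ∀ k, List (Γ k)} (hS : Good F S)
    (k : K) (l : List (Γ k)) (hl : ∀ x ∈ l, (⟨k, x⟩ : Σ k, Γ k) ∈ F) : Good F (update S k l) := by
  intro k' x hx
  by_cases e : k' = k
  · subst e
    rw [update_self] at hx
    exact hl _ hx
  · rw [update_of_ne e] at hx
    exact hS _ _ hx

/-- Control points. -/
abbrev Pt (Γ : K → Type) (Λ σ : Type) : Type := Option (TM2.Stmt Γ Λ σ × σ)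

/-- Operation code of a point. -/
def opc : Pt Γ Λ σ → ℕ
  | some (.push _ _ _, _) => 1
  | some (.pop _ _ _, _) => 2
  | _ => 0

/-- Stack of a point. -/
noncomputable def stc : Pt Γ Λ σ → ℕ
  | some (.push k _ _, _) => ix k
  | some (.peek k _ _, _) => ix k
  | some (.pop k _ _, _) => ix k
  | _ => 0

/-- Symbol of a point. -/
def syc (sc : ∀ k, Γ k → ℕ) : Pt Γ Λ σ → ℕ
  | some (.push k f _, v) => sc k (f v)
  | _ => 0

/-- Next point. -/
def nxt (m : Λ → TM2.Stmt Γ Λ σ) (sd : ∀ k, ℕ → Option (Γ k)) : Pt Γ Λ σ → ℕ → Pt Γ Λ σ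
  | none, _ => none
  | some (.push _ _ q, v), _ => some (q, v)
  | some (.peek k f q, v), n => some (q, f v (sd k n))
  | some (.pop k f q, v), n => some (q, f v (sd k n))
  | some (.load f q, v), _ => some (q, f v)
  | some (.branch f q₁ q₂, v), _ => some (if f v then q₁ else q₂, v)
  | some (.goto f, v), _ => some (m (f v), v)
  | some (.halt, _), _ => none

/-- The point of a configuration. -/
def ptOf (m : Λ → TM2.Stmt Γ Λ σ) (c : TM2.Cfg Γ Λ σ) : Pt Γ Λ σ :=
  match c.l with
  | none => none
  | some l => some (m l, c.var)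

/-- The relevant points. -/
def pts (m : Λ → TM2.Stmt Γ Λ σ) : Set (Pt Γ Λ σ) :=
  {x | x = none ∨ ∃ q v, x = some (q, v) ∧ ∃ l, q ∈ TM2.stmts₁ (m l)}

omit [Fintype K] in
theorem pts_finite [Finite Λ] [Finite σ] (m : Λ → TM2.Stmt Γ Λ σ) : (pts m).Finite := by
  have h1 : (⋃ l, (TM2.stmts₁ (m l) : Set (TM2.Stmt Γ Λ σ))).Finite :=
    Set.finite_iUnion (fun l => Finset.finite_toSet _)
  have h2 : ((⋃ l, (TM2.stmts₁ (m l) : Set (TM2.Stmt Γ Λ σ))) ×ˢ (Set.univ : Set σ)).Finite :=
    h1.prod Set.finite_univ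
  refine ((h2.image some).insert none).subset ?_
  rintro x (rfl | ⟨q, v, rfl, l, hl⟩)
  · exact Set.mem_insert _ _
  · refine Set.mem_insert_of_mem _ ⟨(q, v), ⟨Set.mem_iUnion.2 ⟨l, hl⟩, Set.mem_univ _⟩, rfl⟩

omit [Fintype K] in
theorem nxt_mem (m : Λ → TM2.Stmt Γ Λ σ) (sd : ∀ k, ℕ → Option (Γ k)) {x : Pt Γ Λ σ}
    (hx : x ∈ pts m) (n : ℕ) : nxt m sd x n ∈ pts m := by
  classical
  rcases hx with rfl | ⟨q, v, rfl, l, hl⟩
  · exact Or.inl rfl
  · cases q with
    | push k f q =>
      exact Or.inr ⟨_, _, rfl, l, TM2.stmts₁_trans hl (by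
        simp only [TM2.stmts₁]; exact Finset.mem_insert_of_mem TM2.stmts₁_self)⟩
    | peek k f q =>
      exact Or.inr ⟨_, _, rfl, l, TM2.stmts₁_trans hl (by
        simp only [TM2.stmts₁]; exact Finset.mem_insert_of_mem TM2.stmts₁_self)⟩
    | pop k f q =>
      exact Or.inr ⟨_, _, rfl, l, TM2.stmts₁_trans hl (by
        simp only [TM2.stmts₁]; exact Finset.mem_insert_of_mem TM2.stmts₁_self)⟩
    | load f q =>
      exact Or.inr ⟨_, _, rfl, l, TM2.stmts₁_trans hl (by
        simp only [TM2.stmts₁]; exact Finset.mem_insert_of_mem TM2.stmts₁_self)⟩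
    | branch f q₁ q₂ =>
      refine Or.inr ⟨_, _, rfl, l, TM2.stmts₁_trans hl ?_⟩
      simp only [TM2.stmts₁]
      refine Finset.mem_insert_of_mem ?_
      by_cases h : f v = true
      · rw [if_pos h]; exact Finset.mem_union_left _ TM2.stmts₁_self
      · rw [if_neg h]; exact Finset.mem_union_right _ TM2.stmts₁_self
    | goto f => exact Or.inr ⟨_, _, rfl, f v, TM2.stmts₁_self⟩
    | halt => exact Or.inl rfl

/-- Maximal number of flat steps needed for a statement. -/
def dep : TM2.Stmt Γ Λ σ → ℕ
  | .push _ _ q => dep q + 1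
  | .peek _ _ q => dep q + 1
  | .pop _ _ q => dep q + 1
  | .load _ q => dep q + 1
  | .branch _ q₁ q₂ => max (dep q₁) (dep q₂) + 1
  | .goto _ => 1
  | .halt => 1

section table

variable (m : Λ → TM2.Stmt Γ Λ σ) (sc : ∀ k, Γ k → ℕ) (sd : ∀ k, ℕ → Option (Γ k)) (M N : ℕ)
  (idx : Pt Γ Λ σ → ℕ) (pt : ℕ → Option (Pt Γ Λ σ))

/-- Entries of the block of a point. -/
noncomputable def ent (x : Pt Γ Λ σ) (r : ℕ) : ℕ :=
  if r = 0 then opc x else if r = 1 then stc x else if r = 2 then syc sc x
  else (M + 4) * idx (nxt m sd x (r - 3))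

/-- The program. -/
noncomputable def tab : List ℕ :=
  (List.range ((M + 4) * N)).map (fun a =>
    match pt (a / (M + 4)) with
    | none => 0
    | some x => ent m sc sd M idx x (a % (M + 4)))

variable (hidx : ∀ x ∈ pts m, idx x < N ∧ pt (idx x) = some x)
include hidx

theorem tab_getD {x : Pt Γ Λ σ} (hx : x ∈ pts m) {r : ℕ} (hr : r < M + 4) :
    (tab m sc sd M N idx pt).getD ((M + 4) * idx x + r) 0 = ent m sc sd M idx x r := by
  obtain ⟨h1, h2⟩ := hidx x hx
  have h3 : (M + 4) * idx x + r < (M + 4) * N := by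
    have : (M + 4) * (idx x + 1) ≤ (M + 4) * N := Nat.mul_le_mul_left _ h1
    rw [Nat.mul_add, Nat.mul_one] at this
    omega
  have h4 : ((M + 4) * idx x + r) / (M + 4) = idx x := by
    rw [Nat.mul_add_div (by omega), Nat.div_eq_of_lt hr, Nat.add_zero]
  have h5 : ((M + 4) * idx x + r) % (M + 4) = r := by
    rw [Nat.mul_add_mod, Nat.mod_eq_of_lt hr]
  rw [List.getD_eq_getElem?_getD, tab, List.getElem?_map, List.getElem?_range h3]
  simp only [Option.map_some, Option.getD_some, h4, h5, h2]

theorem fstep_tab {x : Pt Γ Λ σ} (hx : x ∈ pts m) (T : List (List ℕ))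
    (hT : (T.getD (stc x) []).headD 0 ≤ M) :
    fstep (tab m sc sd M N idx pt) ((M + 4) * idx x, T) =
      ((M + 4) * idx (nxt m sd x ((T.getD (stc x) []).headD 0)),
        if opc x = 1 then T.set (stc x) (syc sc x :: T.getD (stc x) [])
        else if opc x = 2 then T.set (stc x) (T.getD (stc x) []).tail else T) := by
  have h0 : (tab m sc sd M N idx pt).getD ((M + 4) * idx x) 0 = opc x := by
    have := tab_getD m sc sd M N idx pt hidx hx (r := 0) (by omega)
    rw [Nat.add_zero] at this
    rw [this]; simp [ent]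
  have h1 : (tab m sc sd M N idx pt).getD ((M + 4) * idx x + 1) 0 = stc x := by
    rw [tab_getD m sc sd M N idx pt hidx hx (r := 1) (by omega)]; simp [ent]
  have h2 : (tab m sc sd M N idx pt).getD ((M + 4) * idx x + 2) 0 = syc sc x := by
    rw [tab_getD m sc sd M N idx pt hidx hx (r := 2) (by omega)]; simp [ent]
  have h3 : (tab m sc sd M N idx pt).getD ((M + 4) * idx x + 3 + (T.getD (stc x) []).headD 0) 0 =
      (M + 4) * idx (nxt m sd x ((T.getD (stc x) []).headD 0)) := by
    rw [Nat.add_assoc, tab_getD m sc sd M N idx pt hidx hx (r := 3 + (T.getD (stc x) []).headD 0)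
      (by omega)]
    unfold ent
    rw [if_neg (by omega), if_neg (by omega), if_neg (by omega)]
    congr 4
    omega
  unfold fstep
  simp only [h0, h1, h2, h3]

variable {F : Set (Σ k, Γ k)}
  (hsc : ∀ k x, (⟨k, x⟩ : Σ k, Γ k) ∈ F → sc k x ≤ M ∧ sd k (sc k x) = some x)
  (hsd : ∀ k, sd k 0 = none)

omit hidx in
include hsc in
theorem head_le {S : ∀ k, List (Γ k)} (hS : Good F S) (j : ℕ) :
    ((cStk sc S).getD j []).headD 0 ≤ M := by
  by_cases h : j < (cStk sc S).length
  · have hj : j < Fintype.card K := by simpa [cStk] using h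
    rw [List.getD_eq_getElem _ _ h]
    simp only [cStk, List.getElem_ofFn]
    cases e : S ((Fintype.equivFin K).symm ⟨j, hj⟩) with
    | nil => simp
    | cons a l =>
      simp only [List.map_cons, List.headD_cons]
      exact (hsc _ a (hS _ a (by rw [e]; simp))).1
  · rw [List.getD_eq_default _ _ (by omega)]
    simp

omit hidx in
include hsc hsd in
theorem sd_head {S : ∀ k, List (Γ k)} (hS : Good F S) (k : K) :
    sd k (((cStk sc S).getD (ix k) []).headD 0) = (S k).head? := by
  rw [cStk_getD]
  cases e : S k with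
  | nil => simp [hsd]
  | cons a l => simpa using (hsc _ a (hS _ a (by rw [e]; simp))).2

include hsc hsd in
theorem sim_stmt [DecidableEq K] (q : TM2.Stmt Γ Λ σ) : ∀ (v : σ) (S : ∀ k, List (Γ k)),
    (some (q, v) : Pt Γ Λ σ) ∈ pts m → pushed q ⊆ F → Good F S →
    ∃ n, n ≤ dep q ∧ (fun c => fstep (tab m sc sd M N idx pt) c)^[n]
      ((M + 4) * idx (some (q, v)), cStk sc S) =
      ((M + 4) * idx (ptOf m (TM2.stepAux q v S)), cStk sc (TM2.stepAux q v S).stk) ∧
      Good F (TM2.stepAux q v S).stk := by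
  induction q with
  | push k f q ih =>
    intro v S hx hq hS
    have hk : (⟨k, f v⟩ : Σ k, Γ k) ∈ F := hq (Or.inl ⟨v, rfl⟩)
    have hS' : Good F (update S k (f v :: S k)) := good_update hS k _ (fun x hx => by
      rcases List.mem_cons.1 hx with rfl | hx
      · exact hk
      · exact hS _ _ hx)
    have h1 := fstep_tab m sc sd M N idx pt hidx hx (cStk sc S) (head_le sc sd M hsc hS _)
    obtain ⟨n, hn, h2, h3⟩ := ih v (update S k (f v :: S k))
      (nxt_mem m sd hx 0) (fun x hx => hq (Or.inr hx)) hS'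
    refine ⟨n + 1, by simp only [dep]; omega, ?_, h3⟩
    rw [iterate_succ_apply]
    simp only [h1]
    rw [cStk_update, List.map_cons, ← cStk_getD] at h2
    exact h2
  | peek k f q ih =>
    intro v S hx hq hS
    have h1 := fstep_tab m sc sd M N idx pt hidx hx (cStk sc S) (head_le sc sd M hsc hS _)
    have h0 := sd_head sc sd M hsc hsd hS k
    obtain ⟨n, hn, h2, h3⟩ := ih (f v (S k).head?) S
      (by have := nxt_mem m sd hx (((cStk sc S).getD (ix k) []).headD 0)
          simp only [nxt, h0] at this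
          exact this) hq hS
    refine ⟨n + 1, by simp only [dep]; omega, ?_, h3⟩
    rw [iterate_succ_apply]
    simp only [h1]
    rw [← h0] at h2
    rw [TM2.stepAux, ← h0]
    exact h2
  | pop k f q ih =>
    intro v S hx hq hS
    have h1 := fstep_tab m sc sd M N idx pt hidx hx (cStk sc S) (head_le sc sd M hsc hS _)
    have h0 := sd_head sc sd M hsc hsd hS k
    have hS' : Good F (update S k (S k).tail) := good_update hS k _ (fun x hx =>
      hS _ _ (List.mem_of_mem_tail hx))
    obtain ⟨n, hn, h2, h3⟩ := ih (f v (S k).head?) (update S k (S k).tail)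
      (by have := nxt_mem m sd hx (((cStk sc S).getD (ix k) []).headD 0)
          simp only [nxt, h0] at this
          exact this) hq hS'
    refine ⟨n + 1, by simp only [dep]; omega, ?_, ?_⟩
    · rw [iterate_succ_apply]
      simp only [h1]
      rw [cStk_update, List.map_tail, ← cStk_getD, ← h0] at h2
      rw [TM2.stepAux, ← h0]
      exact h2
    · rw [TM2.stepAux]; exact h3
  | load f q ih =>
    intro v S hx hq hS
    have h1 := fstep_tab m sc sd M N idx pt hidx hx (cStk sc S) (head_le sc sd M hsc hS _)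
    obtain ⟨n, hn, h2, h3⟩ := ih (f v) S (nxt_mem m sd hx 0) hq hS
    refine ⟨n + 1, by simp only [dep]; omega, ?_, h3⟩
    rw [iterate_succ_apply]
    simp only [h1]
    exact h2
  | branch f q₁ q₂ ih₁ ih₂ =>
    intro v S hx hq hS
    have h1 := fstep_tab m sc sd M N idx pt hidx hx (cStk sc S) (head_le sc sd M hsc hS _)
    have h5 := nxt_mem m sd hx 0
    simp only [nxt] at h5
    cases hf : f v with
    | true =>
      rw [hf, if_pos rfl] at h5
      obtain ⟨n, hn, h2, h3⟩ := ih₁ v S h5 (fun x hx => hq (Or.inl hx)) hS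
      refine ⟨n + 1, by simp only [dep]; omega, ?_, ?_⟩
      · rw [iterate_succ_apply]
        simp only [h1, nxt, hf, TM2.stepAux]
        exact h2
      · simp only [TM2.stepAux, hf]; exact h3
    | false =>
      rw [hf, if_neg (by simp)] at h5
      obtain ⟨n, hn, h2, h3⟩ := ih₂ v S h5 (fun x hx => hq (Or.inr hx)) hS
      refine ⟨n + 1, by simp only [dep]; omega, ?_, ?_⟩
      · rw [iterate_succ_apply]
        simp only [h1, nxt, hf, TM2.stepAux]
        exact h2
      · simp only [TM2.stepAux, hf]; exact h3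
  | goto f =>
    intro v S hx hq hS
    have h1 := fstep_tab m sc sd M N idx pt hidx hx (cStk sc S) (head_le sc sd M hsc hS _)
    exact ⟨1, le_refl _, h1, hS⟩
  | halt =>
    intro v S hx hq hS
    have h1 := fstep_tab m sc sd M N idx pt hidx hx (cStk sc S) (head_le sc sd M hsc hS _)
    exact ⟨1, le_refl _, h1, hS⟩

end table

end compile

end Pool.Agent.Work.MP_46935e_lc
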